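import Pool.Agent.E8helper88.ScaleMain

set_option autoImplicit false

open Finset

namespace Pool.Agent.E8helper88

noncomputable section

theorem cl_eq (k N : ℕ) (A : ℕ) (hA : A < k) :
    cl k N ArithmeticFunction.vonMangoldt A =
      ∑ n ∈ (Icc 1 N).filter (fun n => n ≡ A [MOD k]), ArithmeticFunction.vonMangoldt n := by
  unfold cl
  have h1 : Icc 1 N = Ioc 0 N := by ext; simp [Nat.succ_le_iff]
  rw [h1]
  refine sum_congr (filter_congr fun n _ => ?_) fun _ _ => rfl
  unfold Nat.ModEq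
  rw [Nat.mod_eq_of_lt hA]

theorem one_scale (δ : ℝ) (hδ : 0 < δ) (hδ1 : δ ≤ 1 / 16) : ∃ x0 : ℕ, ∀ K : ℕ, x0 ≤ K → 1 ≤ K →
    ∀ x : ℕ, ∃ S : Finset ℕ, (S.card : ℝ) ≤ (K : ℝ) ^ (1 - δ / 4) ∧
      (K ≤ x → (x : ℝ) ^ (1 + 16 * δ) ≤ 16 * (K : ℝ) ^ 2 → ∀ k ∈ Ioc K (2 * K), k ∉ S →
        ∀ N : ℕ, x ≤ 2 * N → N ≤ x → k ≤ N → ∀ y : ℝ,
          N * (2 * Real.log k - (1 + 8 * δ) * Real.log N) ≤
          ∑ A ∈ (range k).filter (fun A => Nat.Coprime A k),
            (cl k N ArithmeticFunction.vonMangoldt A - y) ^ 2) := by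
  classical
  obtain ⟨x0, h0⟩ := scale δ hδ hδ1
  refine ⟨x0, fun K hK hK1 x => ?_⟩
  have hK0 : (0 : ℝ) < K := by exact_mod_cast hK1
  by_cases hc : K ≤ x ∧ (x : ℝ) ^ (1 + 16 * δ) ≤ 16 * (K : ℝ) ^ 2
  · obtain ⟨E, hE0, hEs, hE⟩ := h0 K x (hK.trans hc.1) hK1 hc.1 hc.2
    have hxK : (K : ℝ) ≤ x := by exact_mod_cast hc.1
    have hxpos : (0 : ℝ) < x := by linarith
    refine ⟨(Ioc K (2 * K)).filter (fun k => (x : ℝ) ^ (1 - δ / 2) < E k), ?_, ?_⟩
    · set S := (Ioc K (2 * K)).filter (fun k => (x : ℝ) ^ (1 - δ / 2) < E k) with hS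
      have h1 : (S.card : ℝ) * (x : ℝ) ^ (1 - δ / 2) ≤ K * (x : ℝ) ^ (1 - 3 * δ / 4) := by
        calc (S.card : ℝ) * (x : ℝ) ^ (1 - δ / 2) = ∑ k ∈ S, (x : ℝ) ^ (1 - δ / 2) := by
              rw [sum_const, nsmul_eq_mul]
          _ ≤ ∑ k ∈ S, E k := by
              refine sum_le_sum fun k hk => ?_
              rw [hS, mem_filter] at hk
              exact hk.2.le
          _ ≤ ∑ k ∈ Ioc K (2 * K), E k :=
              sum_le_sum_of_subset_of_nonneg (filter_subset _ _) fun k _ _ => hE0 k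
          _ ≤ _ := hEs
      have h2 : (x : ℝ) ^ (1 - 3 * δ / 4) = (x : ℝ) ^ (-(δ / 4)) * (x : ℝ) ^ (1 - δ / 2) := by
        rw [← Real.rpow_add hxpos]; congr 1; ring
      rw [h2, ← mul_assoc] at h1
      have h3 := le_of_mul_le_mul_right h1 (Real.rpow_pos_of_pos hxpos _)
      refine h3.trans ?_
      have h4 : (x : ℝ) ^ (-(δ / 4)) ≤ (K : ℝ) ^ (-(δ / 4)) :=
        Real.rpow_le_rpow_of_nonpos hK0 hxK (by linarith)
      calc (K : ℝ) * (x : ℝ) ^ (-(δ / 4)) ≤ K * (K : ℝ) ^ (-(δ / 4)) := by gcongr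
        _ = (K : ℝ) ^ (1 - δ / 4) := by
            rw [sub_eq_add_neg, Real.rpow_add hK0, Real.rpow_one]
    · intro _ _ k hk hkS N hN1 hN2 hkN y
      refine hE k hk ?_ N hN1 hN2 hkN y
      by_contra h
      push Not at h
      exact hkS (mem_filter.2 ⟨hk, h⟩)
  · refine ⟨∅, by simp; positivity, fun h1 h2 => ?_⟩
    exact absurd ⟨h1, h2⟩ hc

theorem contra (δ ε : ℝ) (hδ : 0 < δ) (hε : 16 * δ ≤ ε) (k N : ℕ) (X V : ℝ) (hk : 1 ≤ k)
    (hkN : k ≤ N) (hN2 : 2 ≤ N) (hNδ : 1 / (4 * δ) ≤ N) (hNX : (N : ℝ) ≤ X) (hXN : X < N + 1)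
    (h0 : 0 ≤ V) (h1 : N * (2 * Real.log k - (1 + 8 * δ) * Real.log N) ≤ V)
    (h2 : V < X * (2 * Real.log k - Real.log X - ε * Real.log X)) : False := by
  have hN0 : (0 : ℝ) < N := by
    have : 0 < N := by omega
    exact_mod_cast this
  have hN1 : (1 : ℝ) < N := by
    have : 1 < N := by omega
    exact_mod_cast this
  have hX1 : 1 < X := by linarith
  have hlX : 0 < Real.log X := Real.log_pos hX1
  have hlN : 0 < Real.log N := Real.log_pos hN1
  have hk0 : (0 : ℝ) < k := by exact_mod_cast hk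
  have hkN' : (k : ℝ) ≤ N := by exact_mod_cast hkN
  have hlk : 0 ≤ Real.log k := Real.log_natCast_nonneg k
  have hlkN : Real.log k ≤ Real.log N := Real.log_le_log hk0 hkN'
  have hlNX : Real.log N ≤ Real.log X := Real.log_le_log hN0 hNX
  have h3 : 2 * Real.log k - Real.log X - ε * Real.log X ≤
      2 * Real.log k - (1 + 16 * δ) * Real.log X := by nlinarith
  have hg : 0 < 2 * Real.log k - Real.log X - ε * Real.log X := by
    by_contra h
    push Not at h
    have : X * (2 * Real.log k - Real.log X - ε * Real.log X) ≤ 0 :=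
      mul_nonpos_of_nonneg_of_nonpos (by linarith) h
    linarith
  have h4 : 2 * Real.log k - (1 + 16 * δ) * Real.log X ≤
      2 * Real.log k - (1 + 16 * δ) * Real.log N := by nlinarith
  set g := 2 * Real.log k - (1 + 16 * δ) * Real.log N with hgdef
  have hg0 : 0 < g := by linarith
  have h5 : X * (2 * Real.log k - Real.log X - ε * Real.log X) ≤ (N + 1) * g := by
    apply mul_le_mul hXN.le (by linarith) hg.le (by linarith)
  have h6 : g ≤ 2 * Real.log N := by
    rw [hgdef]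
    have : 0 ≤ (1 + 16 * δ) * Real.log N := by positivity
    linarith
  have h7 : N * (2 * Real.log k - (1 + 8 * δ) * Real.log N) = N * g + 8 * δ * N * Real.log N := by
    rw [hgdef]; ring
  have h8 : 8 * δ * N * Real.log N < 2 * Real.log N := by nlinarith
  have h9 : 8 * δ * N < 2 := lt_of_mul_lt_mul_right h8 hlN.le
  rw [div_le_iff₀ (by positivity)] at hNδ
  nlinarith

open Classical in
theorem main (ε : ℝ) (hε : 0 < ε) : ∃ κ K₀ : ℝ, 0 < κ ∧ ∀ K : ℕ, K₀ ≤ K →
    (((Ioc K (2 * K)).filter (fun k : ℕ => ∃ X y : ℝ, (k : ℝ) ≤ X ∧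
      ∑ A ∈ (range k).filter (fun A => A.Coprime k),
        ((∑ n ∈ (Icc 1 ⌊X⌋₊).filter (fun n => n ≡ A [MOD k]),
          ArithmeticFunction.vonMangoldt n) - y) ^ 2
      < X * (2 * Real.log k - Real.log X - ε * Real.log X))).card : ℝ) ≤
      (K : ℝ) ^ (1 - κ) := by
  set δ := min ε 1 / 16 with hδdef
  have hm0 : 0 < min ε 1 := lt_min hε one_pos
  have hδ : 0 < δ := by positivity
  have hδ1 : δ ≤ 1 / 16 := by
    rw [hδdef]
    have := min_le_right ε 1
    linarith
  have hδε : 16 * δ ≤ ε := by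
    rw [hδdef]
    have := min_le_left ε 1
    linarith
  obtain ⟨x0, h0⟩ := one_scale δ hδ hδ1
  obtain ⟨x1, h1⟩ := growth 1 (δ / 8) 6 (by positivity) (by norm_num)
  refine ⟨δ / 8, max (max (x0 : ℝ) (x1 : ℝ)) (max 2 (1 / (4 * δ))), by positivity,
    fun K hK => ?_⟩
  have hKx0 : x0 ≤ K := by
    have : (x0 : ℝ) ≤ K := ((le_max_left _ _).trans (le_max_left _ _)).trans hK
    exact_mod_cast this
  have hKx1 : x1 ≤ K := by
    have : (x1 : ℝ) ≤ K := ((le_max_right _ _).trans (le_max_left _ _)).trans hK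
    exact_mod_cast this
  have hK2' : (2 : ℝ) ≤ K := ((le_max_left _ _).trans (le_max_right _ _)).trans hK
  have hK2 : 2 ≤ K := by exact_mod_cast hK2'
  have hKδ : 1 / (4 * δ) ≤ K := ((le_max_right _ _).trans (le_max_right _ _)).trans hK
  have hK0 : (0 : ℝ) < K := by linarith
  choose S hScard hS using fun i : ℕ => h0 K hKx0 (by omega) (2 ^ (i + 1))
  set I := Nat.log 2 (16 * K ^ 2) + 1 with hI
  -- the bad moduli are covered
  have hcover : ((Ioc K (2 * K)).filter (fun k : ℕ => ∃ X y : ℝ, (k : ℝ) ≤ X ∧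
      ∑ A ∈ (range k).filter (fun A => A.Coprime k),
        ((∑ n ∈ (Icc 1 ⌊X⌋₊).filter (fun n => n ≡ A [MOD k]),
          ArithmeticFunction.vonMangoldt n) - y) ^ 2
      < X * (2 * Real.log k - Real.log X - ε * Real.log X))) ⊆ (range I).biUnion S := by
    intro k hk
    rw [mem_filter] at hk
    obtain ⟨hkK, X, y, hkX, hlt⟩ := hk
    have hkK' := mem_Ioc.1 hkK
    have hk1 : 1 ≤ k := by omega
    have hk0 : (0 : ℝ) < k := by exact_mod_cast hk1
    have hX0 : 0 < X := by linarith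
    set N := ⌊X⌋₊ with hN
    have hkN : k ≤ N := Nat.le_floor hkX
    have hNX : (N : ℝ) ≤ X := Nat.floor_le hX0.le
    have hXN : X < N + 1 := Nat.lt_floor_add_one X
    have hN0 : N ≠ 0 := by omega
    have hNpos : (0 : ℝ) < N := by
      have : 0 < N := by omega
      exact_mod_cast this
    have hsum0 : 0 ≤ ∑ A ∈ (range k).filter (fun A => A.Coprime k),
        ((∑ n ∈ (Icc 1 N).filter (fun n => n ≡ A [MOD k]),
          ArithmeticFunction.vonMangoldt n) - y) ^ 2 := sum_nonneg fun _ _ => sq_nonneg _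
    set i := Nat.log 2 N with hi
    have hx1 : N < 2 ^ (i + 1) := Nat.lt_pow_succ_log_self (by norm_num) N
    have hx2 : 2 ^ (i + 1) ≤ 2 * N := by
      have : 2 ^ i ≤ N := Nat.pow_log_le_self 2 hN0
      rw [pow_succ]
      omega
    -- positivity of the right-hand side
    have hg : 0 < 2 * Real.log k - Real.log X - ε * Real.log X := by
      by_contra h
      push Not at h
      have : X * (2 * Real.log k - Real.log X - ε * Real.log X) ≤ 0 :=
        mul_nonpos_of_nonneg_of_nonpos hX0.le h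
      linarith
    have hcond : ((2 ^ (i + 1) : ℕ) : ℝ) ^ (1 + 16 * δ) ≤ 16 * (K : ℝ) ^ 2 := by
      have hX1 : 1 ≤ X := by
        have : (1 : ℝ) ≤ k := by exact_mod_cast hk1
        linarith
      have hlX : 0 ≤ Real.log X := Real.log_nonneg hX1
      have a1 : (1 + 16 * δ) * Real.log X ≤ 2 * Real.log k := by nlinarith
      have a2 : (1 + 16 * δ) * Real.log N ≤ 2 * Real.log k := by
        have : Real.log N ≤ Real.log X := Real.log_le_log hNpos hNX
        have h16 : 0 ≤ 1 + 16 * δ := by positivity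
        nlinarith
      have a3 : (N : ℝ) ^ (1 + 16 * δ) ≤ (k : ℝ) ^ 2 := by
        rw [← Real.log_le_log_iff (Real.rpow_pos_of_pos hNpos _) (by positivity),
          Real.log_rpow hNpos, Real.log_pow]
        push_cast
        exact a2
      have a4 : (k : ℝ) ≤ 2 * K := by exact_mod_cast hkK'.2
      have a5 : ((2 ^ (i + 1) : ℕ) : ℝ) ≤ 2 * N := by exact_mod_cast hx2
      calc ((2 ^ (i + 1) : ℕ) : ℝ) ^ (1 + 16 * δ) ≤ (2 * N) ^ (1 + 16 * δ) :=
            Real.rpow_le_rpow (Nat.cast_nonneg _) a5 (by positivity)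
        _ = (2 : ℝ) ^ (1 + 16 * δ) * (N : ℝ) ^ (1 + 16 * δ) :=
            Real.mul_rpow (by norm_num) hNpos.le
        _ ≤ 4 * (2 * (K : ℝ)) ^ 2 := by
            apply mul_le_mul _ (a3.trans (by gcongr)) (Real.rpow_pos_of_pos hNpos _).le
              (by norm_num)
            calc (2 : ℝ) ^ (1 + 16 * δ) ≤ (2 : ℝ) ^ (2 : ℝ) :=
                  Real.rpow_le_rpow_of_exponent_le (by norm_num) (by linarith)
              _ = 4 := by norm_num
        _ = _ := by ring
    have hiI : i ∈ range I := by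
      rw [mem_range, hI]
      have b1 : ((2 ^ (i + 1) : ℕ) : ℝ) ≤ 16 * (K : ℝ) ^ 2 := by
        refine le_trans ?_ hcond
        have : (1 : ℝ) ≤ ((2 ^ (i + 1) : ℕ) : ℝ) := by
          exact_mod_cast Nat.one_le_two_pow
        calc ((2 ^ (i + 1) : ℕ) : ℝ) = ((2 ^ (i + 1) : ℕ) : ℝ) ^ (1 : ℝ) := (Real.rpow_one _).symm
          _ ≤ _ := Real.rpow_le_rpow_of_exponent_le this (by linarith)
      have b2 : 2 ^ (i + 1) ≤ 16 * K ^ 2 := by exact_mod_cast b1
      have b3 := (Nat.le_log_iff_pow_le (by norm_num) (by positivity)).2 b2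
      omega
    rw [mem_biUnion]
    refine ⟨i, hiI, ?_⟩
    by_contra hnot
    have hb := hS i (by omega) hcond k hkK hnot N hx2 hx1.le hkN y
    have hconv : ∑ A ∈ (range k).filter (fun A => Nat.Coprime A k),
            (cl k N ArithmeticFunction.vonMangoldt A - y) ^ 2 =
        ∑ A ∈ (range k).filter (fun A => A.Coprime k),
        ((∑ n ∈ (Icc 1 N).filter (fun n => n ≡ A [MOD k]),
          ArithmeticFunction.vonMangoldt n) - y) ^ 2 := by
      refine sum_congr rfl fun A hA => ?_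
      rw [mem_filter, mem_range] at hA
      rw [cl_eq k N A hA.1]
    rw [hconv] at hb
    have hNK : (K : ℝ) ≤ N := by
      have : K ≤ N := by omega
      exact_mod_cast this
    exact contra δ ε hδ hδε k N X _ hk1 hkN (by omega) (by linarith) hNX hXN hsum0 hb hlt
  have hcard : (((Ioc K (2 * K)).filter (fun k : ℕ => ∃ X y : ℝ, (k : ℝ) ≤ X ∧
      ∑ A ∈ (range k).filter (fun A => A.Coprime k),
        ((∑ n ∈ (Icc 1 ⌊X⌋₊).filter (fun n => n ≡ A [MOD k]),
          ArithmeticFunction.vonMangoldt n) - y) ^ 2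
      < X * (2 * Real.log k - Real.log X - ε * Real.log X))).card : ℝ) ≤
      I * (K : ℝ) ^ (1 - δ / 4) := by
    have c1 := (card_le_card hcover).trans card_biUnion_le
    calc _ ≤ ((∑ i ∈ range I, (S i).card : ℕ) : ℝ) := by exact_mod_cast c1
      _ = ∑ i ∈ range I, ((S i).card : ℝ) := by push_cast; rfl
      _ ≤ ∑ i ∈ range I, (K : ℝ) ^ (1 - δ / 4) := sum_le_sum fun i _ => hScard i
      _ = _ := by rw [sum_const, card_range, nsmul_eq_mul]
  refine hcard.trans ?_
  have hIb : (I : ℝ) ≤ (K : ℝ) ^ (δ / 8) := by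
    refine le_trans ?_ (h1 K hKx1)
    rw [pow_one, hI]
    push_cast
    have d1 : (2 : ℝ) ^ (Nat.log 2 (16 * K ^ 2)) ≤ 16 * (K : ℝ) ^ 2 := by
      have := Nat.pow_log_le_self 2 (x := 16 * K ^ 2) (by positivity)
      exact_mod_cast this
    have d2 := Real.log_le_log (by positivity) d1
    rw [Real.log_pow, Real.log_mul (by norm_num) (by positivity), Real.log_pow] at d2
    have d3 : Real.log 16 = 4 * Real.log 2 := by
      have : (16 : ℝ) = 2 ^ 4 := by norm_num
      rw [this, Real.log_pow]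
      push_cast
      ring
    rw [d3] at d2
    push_cast at d2
    have d4 := Real.log_two_gt_d9
    have d5 : 0 ≤ Real.log K := Real.log_natCast_nonneg K
    nlinarith
  calc (I : ℝ) * (K : ℝ) ^ (1 - δ / 4) ≤ (K : ℝ) ^ (δ / 8) * (K : ℝ) ^ (1 - δ / 4) := by gcongr
    _ = (K : ℝ) ^ (1 - δ / 8) := by
        rw [← Real.rpow_add hK0]; congr 1; ring

end

end Pool.Agent.E8helper88
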