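import Pool.Agent.E8helper88.Planch

set_option autoImplicit false

open Finset

namespace Pool.Agent.E8helper88

noncomputable section

/-- sums over residue classes -/
def cl (k X : ℕ) (u : ℕ → ℝ) (A : ℕ) : ℝ := ∑ n ∈ (Ioc 0 X).filter (fun n => n % k = A), u n

/-- shifted correlation -/
def co (X : ℕ) (u v : ℕ → ℝ) (h : ℕ) : ℝ :=
  ∑ n ∈ (Ioc 0 X).filter (fun n => n + h ≤ X), u n * v (n + h)

theorem shift_sum (k X n : ℕ) (hk : 0 < k) (hn : n ∈ Ioc 0 X) (v : ℕ → ℝ) :
    ∑ m ∈ Ioc 0 X, (if n < m ∧ n % k = m % k then v m else 0) =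
      ∑ j ∈ Icc 1 X, (if n + j * k ≤ X then v (n + j * k) else 0) := by
  rw [← sum_filter, ← sum_filter]
  symm
  refine sum_bij (fun j _ => n + j * k) ?_ ?_ ?_ ?_
  · intro j hj
    rw [mem_filter, mem_Icc] at hj
    rw [mem_Ioc] at hn
    rw [mem_filter, mem_Ioc]
    have : 0 < j * k := Nat.mul_pos hj.1.1 hk
    refine ⟨⟨by omega, hj.2⟩, by omega, ?_⟩
    rw [Nat.add_mul_mod_self_right]
  · intro a _ b _ h
    have : a * k = b * k := by omega
    exact Nat.eq_of_mul_eq_mul_right hk this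
  · intro m hm
    rw [mem_filter, mem_Ioc] at hm
    have hdvd : k ∣ m - n := (Nat.modEq_iff_dvd' hm.2.1.le).1 hm.2.2
    obtain ⟨j, hj⟩ := hdvd
    have hjk : n + j * k = m := by
      have : k * j = j * k := mul_comm _ _
      omega
    have hj1 : 1 ≤ j := by
      apply Nat.one_le_iff_ne_zero.2
      rintro rfl
      simp at hjk
      omega
    have hjX : j ≤ X := by
      have h1 : j ≤ j * k := Nat.le_mul_of_pos_right j hk
      omega
    refine ⟨j, ?_, hjk⟩
    rw [mem_filter, mem_Icc]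
    exact ⟨⟨hj1, hjX⟩, by omega⟩
  · intro _ _
    rfl

theorem class_sum (k X : ℕ) (hk : 0 < k) (u v : ℕ → ℝ) :
    ∑ A ∈ range k, cl k X u A * cl k X v A = ∑ n ∈ Ioc 0 X, u n * v n +
      (∑ j ∈ Icc 1 X, co X u v (j * k) + ∑ j ∈ Icc 1 X, co X v u (j * k)) := by
  have h1 : ∑ A ∈ range k, cl k X u A * cl k X v A =
      ∑ n ∈ Ioc 0 X, ∑ m ∈ Ioc 0 X, if n % k = m % k then u n * v m else 0 := by
    have h2 : ∀ A ∈ range k, cl k X u A * cl k X v A = ∑ n ∈ Ioc 0 X, ∑ m ∈ Ioc 0 X,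
        if n % k = A then (if n % k = m % k then u n * v m else 0) else 0 := by
      intro A _
      unfold cl
      rw [sum_mul_sum, sum_filter]
      refine sum_congr rfl fun n _ => ?_
      by_cases h : n % k = A
      · rw [if_pos h, sum_filter]
        refine sum_congr rfl fun m _ => ?_
        rw [if_pos h, h]
        by_cases h' : m % k = A
        · rw [if_pos h', if_pos h'.symm]
        · rw [if_neg h', if_neg (fun h => h' h.symm)]
      · rw [if_neg h]
        symm
        apply sum_eq_zero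
        intro m _
        rw [if_neg h]
    rw [sum_congr rfl h2, sum_comm]
    refine sum_congr rfl fun n _ => ?_
    rw [sum_comm]
    refine sum_congr rfl fun m _ => ?_
    rw [sum_ite_eq, if_pos (mem_range.2 (Nat.mod_lt _ hk))]
  have h3 : ∀ n ∈ Ioc 0 X, ∑ m ∈ Ioc 0 X, (if n % k = m % k then u n * v m else 0) =
      u n * v n + ∑ m ∈ Ioc 0 X, (if n < m ∧ n % k = m % k then u n * v m else 0) +
        ∑ m ∈ Ioc 0 X, (if m < n ∧ m % k = n % k then u n * v m else 0) := by
    intro n hn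
    have h4 : u n * v n = ∑ m ∈ Ioc 0 X, if m = n then u n * v m else 0 := by
      rw [sum_ite_eq', if_pos hn]
    rw [h4, ← sum_add_distrib, ← sum_add_distrib]
    refine sum_congr rfl fun m _ => ?_
    rcases lt_trichotomy n m with h | h | h
    · rw [if_neg (by omega : ¬ m = n)]
      by_cases h5 : n % k = m % k
      · rw [if_pos h5, if_pos ⟨h, h5⟩, if_neg (by omega)]
        ring
      · rw [if_neg h5, if_neg (by tauto), if_neg (by omega)]
        ring
    · subst h
      simp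
    · rw [if_neg (by omega : ¬ m = n)]
      by_cases h5 : n % k = m % k
      · rw [if_pos h5, if_neg (by omega), if_pos ⟨h, h5.symm⟩]
        ring
      · rw [if_neg h5, if_neg (by omega), if_neg (by rintro ⟨_, h6⟩; exact h5 h6.symm)]
        ring
  rw [h1, sum_congr rfl h3, sum_add_distrib, sum_add_distrib, add_assoc]
  have h6 : ∀ (u v : ℕ → ℝ), ∑ n ∈ Ioc 0 X, ∑ m ∈ Ioc 0 X,
      (if n < m ∧ n % k = m % k then u n * v m else 0) = ∑ j ∈ Icc 1 X, co X u v (j * k) := by
    intro u v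
    have h7 : ∀ n ∈ Ioc 0 X, ∑ m ∈ Ioc 0 X, (if n < m ∧ n % k = m % k then u n * v m else 0) =
        ∑ j ∈ Icc 1 X, (if n + j * k ≤ X then u n * v (n + j * k) else 0) := by
      intro n hn
      exact shift_sum k X n hk hn (fun m => u n * v m)
    rw [sum_congr rfl h7, sum_comm]
    refine sum_congr rfl fun j _ => ?_
    unfold co
    rw [sum_filter]
  rw [h6 u v]
  congr 2
  rw [sum_comm, ← h6 v u]
  refine sum_congr rfl fun n _ => sum_congr rfl fun m _ => ?_
  split_ifs
  · ring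
  · rfl

theorem cl_bound (k X : ℕ) (hk : 0 < k) (f : ℕ → ℝ) (B : ℝ)
    (hB : ∀ α : ℝ, ‖∑ n ∈ Ioc 0 X, (f n : ℂ) * ee (n * α)‖ ≤ B) (A : ℕ) (hA : A < k) :
    |cl k X f A| ≤ B := by
  have hk' : (0 : ℝ) < k := by exact_mod_cast hk
  have hkC : (k : ℂ) ≠ 0 := by exact_mod_cast hk.ne'
  have e1 : (k : ℂ) * (cl k X f A : ℂ) = ∑ c ∈ range k, ee (-((A : ℝ) * ((c : ℝ) / k))) *
      ∑ n ∈ Ioc 0 X, (f n : ℂ) * ee (n * ((c : ℝ) / k)) := by
    have h1 : ∀ c ∈ range k, ee (-((A : ℝ) * ((c : ℝ) / k))) *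
      ∑ n ∈ Ioc 0 X, (f n : ℂ) * ee (n * ((c : ℝ) / k)) =
      ∑ n ∈ Ioc 0 X, (f n : ℂ) * ee ((c : ℝ) * ((((n : ℤ) - A : ℤ) : ℝ) / k)) := by
      intro c _
      rw [mul_sum]
      refine sum_congr rfl fun n _ => ?_
      rw [mul_left_comm, ← ee_add]
      congr 2
      push_cast
      ring
    rw [sum_congr rfl h1, sum_comm]
    unfold cl
    rw [Complex.ofReal_sum, mul_sum, sum_filter]
    refine sum_congr rfl fun n _ => ?_
    rw [← mul_sum, orthZ k hk]
    by_cases h2 : n % k = A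
    · rw [if_pos h2, if_pos]
      · ring
      · have h3 := Nat.div_add_mod n k
        refine ⟨(n / k : ℕ), ?_⟩
        have h4 : (n : ℤ) = k * (n / k : ℕ) + (n % k : ℕ) := by exact_mod_cast h3.symm
        rw [h2] at h4
        linarith
    · rw [if_neg h2, if_neg, mul_zero]
      rintro ⟨m, hm⟩
      apply h2
      have h5 : ((n : ℤ) % k) = A := by
        have : (n : ℤ) = A + k * m := by linarith
        rw [this, Int.add_mul_emod_self_left]
        exact Int.emod_eq_of_lt (by positivity) (by exact_mod_cast hA)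
      exact_mod_cast h5
  have h2 : ‖(k : ℂ) * (cl k X f A : ℂ)‖ ≤ k * B := by
    rw [e1]
    refine (norm_sum_le _ _).trans ?_
    have : ∀ c ∈ range k, ‖ee (-((A : ℝ) * ((c : ℝ) / k))) *
      ∑ n ∈ Ioc 0 X, (f n : ℂ) * ee (n * ((c : ℝ) / k))‖ ≤ B := by
      intro c _
      rw [norm_mul, norm_ee, one_mul]
      exact hB _
    refine (sum_le_sum this).trans ?_
    rw [sum_const, card_range, nsmul_eq_mul]
  rw [norm_mul, Complex.norm_natCast, Complex.norm_real, Real.norm_eq_abs] at h2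
  exact le_of_mul_le_mul_left h2 hk'

theorem mod_coprime (k n : ℕ) : Nat.Coprime (n % k) k ↔ Nat.Coprime n k := by
  unfold Nat.Coprime
  rw [← Nat.gcd_rec, Nat.gcd_comm]

theorem sum_red (k X : ℕ) (hk : 0 < k) (f : ℕ → ℝ) :
    ∑ A ∈ (range k).filter (fun A => Nat.Coprime A k), cl k X f A =
      ∑ n ∈ (Ioc 0 X).filter (fun n => Nat.Coprime n k), f n := by
  unfold cl
  have h1 : ∀ A ∈ (range k).filter (fun A => Nat.Coprime A k),
      ∑ n ∈ (Ioc 0 X).filter (fun n => n % k = A), f n =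
      ∑ n ∈ Ioc 0 X, if n % k = A then f n else 0 := fun A _ => by rw [sum_filter]
  rw [sum_congr rfl h1, sum_comm, sum_filter]
  refine sum_congr rfl fun n _ => ?_
  rw [sum_ite_eq]
  simp only [mem_filter, mem_range, mod_coprime, Nat.mod_lt n hk, true_and]

theorem cop_bound (k X : ℕ) (hk : 0 < k) (f : ℕ → ℝ) (B : ℝ)
    (hB : ∀ α : ℝ, ‖∑ n ∈ Ioc 0 X, (f n : ℂ) * ee (n * α)‖ ≤ B) :
    |∑ n ∈ (Ioc 0 X).filter (fun n => Nat.Coprime n k), f n| ≤ k.divisors.card * B := by
  have h1 : ∑ n ∈ (Ioc 0 X).filter (fun n => Nat.Coprime n k), f n =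
      ∑ d ∈ k.divisors, mu d * cl d X f 0 := by
    have h2 : ∀ d ∈ k.divisors, mu d * cl d X f 0 =
        ∑ n ∈ Ioc 0 X, if d ∣ n then mu d * f n else 0 := by
      intro d _
      unfold cl
      rw [mul_sum, sum_filter]
      refine sum_congr rfl fun n _ => ?_
      simp only [Nat.dvd_iff_mod_eq_zero]
    rw [sum_congr rfl h2, sum_comm, sum_filter]
    refine sum_congr rfl fun n _ => ?_
    rw [← sum_filter, ← sum_mul]
    have h3 : k.divisors.filter (fun d => d ∣ n) = (Nat.gcd n k).divisors := by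
      ext d
      simp only [mem_filter, Nat.mem_divisors]
      constructor
      · rintro ⟨⟨h1, _⟩, h2⟩
        exact ⟨Nat.dvd_gcd h2 h1, (Nat.gcd_pos_of_pos_right n hk).ne'⟩
      · rintro ⟨h1, _⟩
        exact ⟨⟨h1.trans (Nat.gcd_dvd_right _ _), hk.ne'⟩, h1.trans (Nat.gcd_dvd_left _ _)⟩
    have h4 : ∑ d ∈ (Nat.gcd n k).divisors, mu d = if Nat.gcd n k = 1 then 1 else 0 := by
      have h := ArithmeticFunction.coe_mul_zeta_apply (f := ArithmeticFunction.moebius)
        (x := Nat.gcd n k)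
      rw [ArithmeticFunction.moebius_mul_coe_zeta, ArithmeticFunction.one_apply] at h
      unfold mu
      rw [← Int.cast_sum, ← h]
      split_ifs <;> simp
    rw [h3, h4]
    unfold Nat.Coprime
    split_ifs <;> simp
  rw [h1]
  refine (abs_sum_le_sum_abs _ _).trans ?_
  have hB0 : 0 ≤ B := (norm_nonneg _).trans (hB 0)
  have h5 : ∀ d ∈ k.divisors, |mu d * cl d X f 0| ≤ B := by
    intro d hd
    have hd0 : 0 < d := Nat.pos_of_mem_divisors hd
    rw [abs_mul]
    calc |mu d| * |cl d X f 0| ≤ 1 * B := by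
          gcongr
          · exact abs_mu_le d
          · exact cl_bound d X hd0 f B hB 0 hd0
      _ = B := one_mul _
  refine (sum_le_sum h5).trans ?_
  rw [sum_const, nsmul_eq_mul]

theorem noncop_mass (k X : ℕ) (hk : 0 < k) (hX : 1 ≤ X) :
    ∑ n ∈ (Ioc 0 X).filter (fun n => ¬ Nat.Coprime n k), ArithmeticFunction.vonMangoldt n ≤
      k.divisors.card * Real.log X := by
  have h1 : ∀ n ∈ (Ioc 0 X).filter (fun n => ¬ Nat.Coprime n k),
      ArithmeticFunction.vonMangoldt n ≤ ∑ d ∈ k.divisors.filter (fun d => 1 < d),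
        if d ∣ n then ArithmeticFunction.vonMangoldt n else 0 := by
    intro n hn
    rw [mem_filter, mem_Ioc] at hn
    have hg : Nat.gcd n k ∈ k.divisors.filter (fun d => 1 < d) := by
      rw [mem_filter, Nat.mem_divisors]
      refine ⟨⟨Nat.gcd_dvd_right _ _, hk.ne'⟩, ?_⟩
      have h1 : 0 < Nat.gcd n k := Nat.gcd_pos_of_pos_right n hk
      have h2 : Nat.gcd n k ≠ 1 := hn.2
      omega
    have h2 := single_le_sum (f := fun d => if d ∣ n then ArithmeticFunction.vonMangoldt n else 0)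
      (s := k.divisors.filter (fun d => 1 < d)) (fun i _ => by
        split_ifs
        · exact ArithmeticFunction.vonMangoldt_nonneg
        · exact le_rfl) hg
    simp only [Nat.gcd_dvd_left, if_true] at h2
    exact h2
  refine (sum_le_sum h1).trans ?_
  rw [sum_comm]
  have hl : 0 ≤ Real.log X := Real.log_natCast_nonneg X
  have h3 : ∀ d ∈ k.divisors.filter (fun d => 1 < d),
      ∑ n ∈ (Ioc 0 X).filter (fun n => ¬ Nat.Coprime n k),
        (if d ∣ n then ArithmeticFunction.vonMangoldt n else 0) ≤ Real.log X := by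
    intro d hd
    rw [mem_filter] at hd
    refine le_trans ?_ (vm_mult X d hd.2 hX)
    rw [← sum_filter]
    refine sum_le_sum_of_subset_of_nonneg ?_ fun _ _ _ => ArithmeticFunction.vonMangoldt_nonneg
    intro n hn
    simp only [mem_filter] at hn ⊢
    exact ⟨hn.1.1, hn.2⟩
  refine (sum_le_sum h3).trans ?_
  rw [sum_const, nsmul_eq_mul]
  gcongr
  exact filter_subset _ _

theorem totient_lower' (k : ℕ) : (k : ℝ) ≤ k.divisors.card * Nat.totient k := by
  have h1 : k ≤ k.divisors.card * Nat.totient k := by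
    calc k = ∑ d ∈ k.divisors, Nat.totient d := (Nat.sum_totient k).symm
      _ ≤ ∑ d ∈ k.divisors, Nat.totient k := by
          refine sum_le_sum fun d hd => ?_
          rcases Nat.eq_zero_or_pos k with h | h
          · subst h; simp at hd
          · exact Nat.le_of_dvd (Nat.totient_pos.2 h)
              (Nat.totient_dvd_of_dvd (Nat.dvd_of_mem_divisors hd))
      _ = _ := by rw [sum_const, smul_eq_mul]
  exact_mod_cast h1

theorem fix_lower (k X : ℕ) (hk : 0 < k) (hX : 1 ≤ X) (f : ℕ → ℝ) (B : ℝ)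
    (hB : ∀ α : ℝ, ‖∑ n ∈ Ioc 0 X, (f n : ℂ) * ee (n * α)‖ ≤ B) (E : ℝ)
    (hE1 : |∑ j ∈ Icc 1 X, co X ArithmeticFunction.vonMangoldt f (j * k)| ≤ E)
    (hE2 : |∑ j ∈ Icc 1 X, co X f ArithmeticFunction.vonMangoldt (j * k)| ≤ E)
    (hE3 : |∑ j ∈ Icc 1 X, co X f f (j * k)| ≤ E) (y : ℝ) :
    ∑ n ∈ Ioc 0 X, (2 * ArithmeticFunction.vonMangoldt n * f n - f n ^ 2) - 6 * E -
      2 * (k.divisors.card * Real.log X * B) -
      2 * ((∑ n ∈ Ioc 0 X, ArithmeticFunction.vonMangoldt n) * (k.divisors.card : ℝ) ^ 2 * B / k) ≤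
    ∑ A ∈ (range k).filter (fun A => Nat.Coprime A k),
      (cl k X ArithmeticFunction.vonMangoldt A - y) ^ 2 := by
  set Λ : ℕ → ℝ := ⇑ArithmeticFunction.vonMangoldt with hΛ
  set S := (range k).filter (fun A => Nat.Coprime A k) with hS
  have hk' : (0 : ℝ) < k := by exact_mod_cast hk
  have hB0 : 0 ≤ B := (norm_nonneg _).trans (hB 0)
  have hcard : S.card = Nat.totient k := by
    rw [hS, Nat.totient]
    congr 1
    ext A
    simp only [mem_filter, mem_range, Nat.coprime_comm]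
  have hφ : (0 : ℝ) < Nat.totient k := by exact_mod_cast Nat.totient_pos.2 hk
  set T := ∑ A ∈ S, cl k X Λ A with hT
  set z := T / Nat.totient k with hz
  -- the mean minimises
  have h1 : ∑ A ∈ S, (cl k X Λ A - z) ^ 2 ≤ ∑ A ∈ S, (cl k X Λ A - y) ^ 2 := by
    have e : ∑ A ∈ S, (cl k X Λ A - y) ^ 2 = ∑ A ∈ S, (cl k X Λ A - z) ^ 2 +
        Nat.totient k * (z - y) ^ 2 := by
      have h2 : ∀ A ∈ S, (cl k X Λ A - y) ^ 2 = (cl k X Λ A - z) ^ 2 +
          (2 * (z - y) * cl k X Λ A + (y ^ 2 - z ^ 2)) := fun A _ => by ring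
      rw [sum_congr rfl h2, sum_add_distrib, sum_add_distrib, ← mul_sum, ← hT, sum_const, hcard,
        nsmul_eq_mul]
      have h3 : T = z * Nat.totient k := by rw [hz]; field_simp
      rw [h3]
      ring
    have h2 : 0 ≤ (Nat.totient k : ℝ) * (z - y) ^ 2 := by positivity
    linarith
  refine le_trans ?_ h1
  -- pointwise inequality
  have h2 : ∑ A ∈ S, (2 * (cl k X Λ A * cl k X f A) - 2 * z * cl k X f A - cl k X f A ^ 2) ≤
      ∑ A ∈ S, (cl k X Λ A - z) ^ 2 := by
    refine sum_le_sum fun A _ => ?_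
    nlinarith [sq_nonneg (cl k X Λ A - z - cl k X f A)]
  refine le_trans ?_ h2
  have e0 : ∑ A ∈ S, (2 * (cl k X Λ A * cl k X f A) - 2 * z * cl k X f A - cl k X f A ^ 2) =
      2 * ∑ A ∈ S, cl k X Λ A * cl k X f A - 2 * z * ∑ A ∈ S, cl k X f A -
        ∑ A ∈ S, cl k X f A ^ 2 := by
    rw [mul_sum, mul_sum, ← sum_sub_distrib, ← sum_sub_distrib]
  rw [e0]
  have hall1 := class_sum k X hk Λ f
  have hall2 := class_sum k X hk f f
  -- split all classes
  have hsplit1 : ∑ A ∈ range k, cl k X Λ A * cl k X f A =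
      ∑ A ∈ S, cl k X Λ A * cl k X f A +
      ∑ A ∈ (range k).filter (fun A => ¬ Nat.Coprime A k), cl k X Λ A * cl k X f A :=
    (sum_filter_add_sum_filter_not _ _ _).symm
  have hsplit2 : ∑ A ∈ S, cl k X f A ^ 2 ≤ ∑ A ∈ range k, cl k X f A * cl k X f A := by
    calc _ ≤ ∑ A ∈ range k, cl k X f A ^ 2 :=
          sum_le_sum_of_subset_of_nonneg (filter_subset _ _) fun _ _ _ => sq_nonneg _
      _ = _ := sum_congr rfl fun _ _ => by ring
  have hclnn : ∀ A, 0 ≤ cl k X Λ A := fun A => by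
    unfold cl
    exact sum_nonneg fun _ _ => ArithmeticFunction.vonMangoldt_nonneg
  have hnon : |∑ A ∈ (range k).filter (fun A => ¬ Nat.Coprime A k), cl k X Λ A * cl k X f A| ≤
      k.divisors.card * Real.log X * B := by
    refine (abs_sum_le_sum_abs _ _).trans ?_
    have h3 : ∀ A ∈ (range k).filter (fun A => ¬ Nat.Coprime A k),
        |cl k X Λ A * cl k X f A| ≤ cl k X Λ A * B := by
      intro A hA
      rw [mem_filter, mem_range] at hA
      rw [abs_mul, abs_of_nonneg (hclnn A)]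
      exact mul_le_mul_of_nonneg_left (cl_bound k X hk f B hB A hA.1) (hclnn A)
    refine (sum_le_sum h3).trans ?_
    rw [← sum_mul]
    refine mul_le_mul_of_nonneg_right ?_ hB0
    refine le_trans (le_of_eq ?_) (noncop_mass k X hk hX)
    unfold cl
    have h4 : ∀ A ∈ (range k).filter (fun A => ¬ Nat.Coprime A k),
        ∑ n ∈ (Ioc 0 X).filter (fun n => n % k = A), Λ n =
        ∑ n ∈ Ioc 0 X, if n % k = A then Λ n else 0 := fun A _ => by rw [sum_filter]
    rw [sum_congr rfl h4, sum_comm, sum_filter]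
    refine sum_congr rfl fun n _ => ?_
    rw [sum_ite_eq]
    simp only [mem_filter, mem_range, mod_coprime, Nat.mod_lt n hk, true_and]
    rfl
  -- mean term
  set ψ := ∑ n ∈ Ioc 0 X, ArithmeticFunction.vonMangoldt n with hψ
  have hψ0 : 0 ≤ ψ := sum_nonneg fun _ _ => ArithmeticFunction.vonMangoldt_nonneg
  have hTψ : T ≤ ψ := by
    rw [hT, hS, sum_red k X hk Λ]
    exact sum_le_sum_of_subset_of_nonneg (filter_subset _ _)
      fun _ _ _ => ArithmeticFunction.vonMangoldt_nonneg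
  have hT0 : 0 ≤ T := sum_nonneg fun A _ => hclnn A
  have hmean : |z * ∑ A ∈ S, cl k X f A| ≤ ψ * (k.divisors.card : ℝ) ^ 2 * B / k := by
    rw [abs_mul, hS, sum_red k X hk f]
    have h3 := cop_bound k X hk f B hB
    have hz0 : 0 ≤ z := div_nonneg hT0 hφ.le
    rw [abs_of_nonneg hz0]
    have h4 : z ≤ ψ * k.divisors.card / k := by
      rw [hz, div_le_div_iff₀ hφ hk']
      calc T * k ≤ ψ * (k.divisors.card * Nat.totient k) := by
            apply mul_le_mul hTψ (totient_lower' k) hk'.le hψ0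
        _ = _ := by ring
    calc z * |∑ n ∈ (Ioc 0 X).filter (fun n => Nat.Coprime n k), f n| ≤
          (ψ * k.divisors.card / k) * (k.divisors.card * B) := by
          apply mul_le_mul h4 h3 (abs_nonneg _) (by positivity)
      _ = _ := by ring
  have hdiag : ∑ n ∈ Ioc 0 X, (2 * Λ n * f n - f n ^ 2) =
      2 * ∑ n ∈ Ioc 0 X, Λ n * f n - ∑ n ∈ Ioc 0 X, f n * f n := by
    rw [mul_sum, ← sum_sub_distrib]
    exact sum_congr rfl fun _ _ => by ring
  rw [hdiag]
  have a1 := abs_le.1 hE1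
  have a2 := abs_le.1 hE2
  have a3 := abs_le.1 hE3
  have a4 := abs_le.1 hnon
  have a5 := abs_le.1 hmean
  have e5 : 2 * z * ∑ A ∈ S, cl k X f A = 2 * (z * ∑ A ∈ S, cl k X f A) := by ring
  rw [e5]
  linarith [a1.1, a1.2, a2.1, a2.2, a3.1, a3.2, a4.1, a4.2, a5.1, a5.2]

end

end Pool.Agent.E8helper88
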