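import Pool.Agent.E8helper88.Mob
import Pool.Agent.H343R2.PhiSum

set_option autoImplicit false

open Finset

namespace Pool.Agent.E8helper88

noncomputable section

theorem hh_eq (r : ℕ) (hr : 0 < r) : hh r.primeFactors = r / Nat.totient r := by
  have hr' : (0 : ℝ) < r := by exact_mod_cast hr
  have hphi : (0 : ℝ) < Nat.totient r := by exact_mod_cast Nat.totient_pos.2 hr
  have h := Nat.totient_eq_mul_prod_factors r
  have h2 : (Nat.totient r : ℝ) = r * ∏ p ∈ r.primeFactors, (1 - (p : ℝ)⁻¹) := by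
    have := congrArg (fun x : ℚ => (x : ℝ)) h
    push_cast at this
    exact this
  have h3 : hh r.primeFactors = (∏ p ∈ r.primeFactors, (1 - (p : ℝ)⁻¹))⁻¹ := by
    unfold hh
    rw [prod_inv_distrib]
    simp only [one_div]
  have h4 : ∏ p ∈ r.primeFactors, (1 - (p : ℝ)⁻¹) = Nat.totient r / r := by
    rw [h2]; field_simp
  rw [h3, h4, inv_div]

/-- The multiplicative majorant used to average `gg²`. -/
def ff : ArithmeticFunction ℝ := ArithmeticFunction.prodPrimeFactors (fun p => 20 / Real.sqrt p)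

theorem gg_sq_le (r : ℕ) (hr : Squarefree r) : gg r.primeFactors ^ 2 ≤ ∑ d ∈ r.divisors, ff d := by
  have hmul : ff.IsMultiplicative := ArithmeticFunction.IsMultiplicative.prodPrimeFactors _
  rw [← ArithmeticFunction.IsMultiplicative.prodPrimeFactors_one_add_of_squarefree hmul hr]
  unfold gg
  rw [← prod_pow]
  refine prod_le_prod (fun p _ => sq_nonneg _) (fun p hp => ?_)
  have hp' : p.Prime := Nat.prime_of_mem_primeFactors hp
  obtain ⟨h1, h2, h3⟩ := sqrt_facts p hp'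
  have e : ff p = 20 * (1 / Real.sqrt p) := by
    unfold ff
    rw [ArithmeticFunction.prodPrimeFactors_apply hp'.ne_zero, hp'.primeFactors, prod_singleton]
    ring
  rw [e]
  set x := 1 / Real.sqrt p with hx
  have hx2 : x ≤ 3 / 4 := by
    have h4 : x ^ 2 ≤ 1 / 2 := by
      rw [h3]
      have : (2 : ℝ) ≤ p := by exact_mod_cast hp'.two_le
      exact one_div_le_one_div_of_le (by norm_num) this
    nlinarith
  have h5 : 0 < 1 - x := by linarith
  rw [inv_pow, inv_le_iff_one_le_mul₀ (by positivity)]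
  have h6 : 0 ≤ x * (20 * ((3 / 4 - x) * (6 / 5 - x))) := by
    apply mul_nonneg h1.le
    apply mul_nonneg (by norm_num)
    apply mul_nonneg <;> linarith
  nlinarith

theorem ff_nonneg (d : ℕ) : 0 ≤ ff d := by
  unfold ff
  rcases eq_or_ne d 0 with h | h
  · rw [h]; simp
  · rw [ArithmeticFunction.prodPrimeFactors_apply h]
    exact prod_nonneg fun _ _ => by positivity

theorem ff_bound : ∃ C : ℝ, 0 < C ∧ ∀ d : ℕ, Squarefree d → ff d ≤ C * (d : ℝ) ^ (-(1 / 4) : ℝ) := by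
  obtain ⟨M, hM⟩ : ∃ M : ℕ, 20 ^ 4 ≤ M := ⟨20 ^ 4, le_rfl⟩
  refine ⟨20 ^ M, by positivity, fun d hd => ?_⟩
  have hd0 : d ≠ 0 := hd.ne_zero
  unfold ff
  rw [ArithmeticFunction.prodPrimeFactors_apply hd0]
  have h1 : ∀ p ∈ d.primeFactors, 20 / Real.sqrt p ≤
      (if p < M then (20 : ℝ) else 1) * (p : ℝ) ^ (-(1 / 4) : ℝ) := by
    intro p hp
    have hp' : p.Prime := Nat.prime_of_mem_primeFactors hp
    have hp0 : (0 : ℝ) < p := by exact_mod_cast hp'.pos
    have hp1 : (1 : ℝ) ≤ p := by exact_mod_cast hp'.one_le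
    have e1 : 1 / Real.sqrt p = (p : ℝ) ^ (-(1 / 4) : ℝ) * (p : ℝ) ^ (-(1 / 4) : ℝ) := by
      rw [← Real.rpow_add hp0, Real.sqrt_eq_rpow, one_div, ← Real.rpow_neg hp0.le]
      norm_num
    have e2 : 20 / Real.sqrt p = 20 * (p : ℝ) ^ (-(1 / 4) : ℝ) * (p : ℝ) ^ (-(1 / 4) : ℝ) := by
      rw [mul_assoc, ← e1]; ring
    rw [e2]
    have h0 : 0 < (p : ℝ) ^ (-(1 / 4) : ℝ) := Real.rpow_pos_of_pos hp0 _
    apply mul_le_mul_of_nonneg_right _ h0.le
    split_ifs with h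
    · have : (p : ℝ) ^ (-(1 / 4) : ℝ) ≤ 1 := Real.rpow_le_one_of_one_le_of_nonpos hp1 (by norm_num)
      linarith
    · push Not at h
      have h2 : (20 : ℝ) ^ 4 ≤ p := by exact_mod_cast hM.trans h
      rw [Real.rpow_neg hp0.le]
      rw [← div_eq_mul_inv, div_le_one (by positivity)]
      have h3 : ((20 : ℝ) ^ 4) ^ ((1 / 4 : ℝ)) ≤ (p : ℝ) ^ ((1 / 4 : ℝ)) :=
        Real.rpow_le_rpow (by positivity) h2 (by norm_num)
      have h4 : ((20 : ℝ) ^ 4) ^ ((1 / 4 : ℝ)) = 20 := by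
        rw [← Real.rpow_natCast, ← Real.rpow_mul (by norm_num)]
        norm_num
      linarith
  refine (prod_le_prod (fun _ _ => by positivity) h1).trans ?_
  rw [prod_mul_distrib, Real.finsetProd_rpow _ _ (fun _ _ => Nat.cast_nonneg _), ← Nat.cast_prod,
    Nat.prod_primeFactors_of_squarefree hd]
  gcongr
  rw [prod_ite, prod_const, prod_const_one, mul_one]
  apply pow_le_pow_right₀ (by norm_num)
  calc (d.primeFactors.filter (fun p => p < M)).card ≤ (range M).card := by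
        apply card_le_card
        intro p hp
        rw [mem_filter] at hp
        exact mem_range.2 hp.2
    _ = M := card_range M

theorem gg_avg : ∃ C : ℝ, 0 < C ∧ ∀ N : ℕ,
    ∑ r ∈ (Ioc 0 N).filter Squarefree, gg r.primeFactors ^ 2 ≤ C * N := by
  obtain ⟨C, hC, hb⟩ := ff_bound
  have hs : Summable (fun n : ℕ => 1 / (n : ℝ) ^ (5 / 4 : ℝ)) :=
    Real.summable_one_div_nat_rpow.2 (by norm_num)
  refine ⟨C * (∑' n : ℕ, 1 / (n : ℝ) ^ (5 / 4 : ℝ)) + 1, by positivity, fun N => ?_⟩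
  have h1 : ∑ r ∈ (Ioc 0 N).filter Squarefree, gg r.primeFactors ^ 2 ≤
      ∑ r ∈ Ioc 0 N, ∑ d ∈ (Ioc 0 N).filter Squarefree, if d ∣ r then ff d else 0 := by
    calc _ ≤ ∑ r ∈ (Ioc 0 N).filter Squarefree, ∑ d ∈ (Ioc 0 N).filter Squarefree,
          (if d ∣ r then ff d else 0) := by
          refine sum_le_sum fun r hr => ?_
          rw [mem_filter, mem_Ioc] at hr
          refine (gg_sq_le r hr.2).trans ?_
          rw [← sum_filter]
          refine sum_le_sum_of_subset_of_nonneg ?_ fun _ _ _ => ff_nonneg _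
          intro d hd
          rw [Nat.mem_divisors] at hd
          rw [mem_filter, mem_filter, mem_Ioc]
          exact ⟨⟨⟨Nat.pos_of_dvd_of_pos hd.1 hr.1.1, (Nat.le_of_dvd hr.1.1 hd.1).trans hr.1.2⟩,
            hr.2.squarefree_of_dvd hd.1⟩, hd.1⟩
      _ ≤ _ := by
          refine sum_le_sum_of_subset_of_nonneg (filter_subset _ _) fun _ _ _ => ?_
          exact sum_nonneg fun _ _ => by split_ifs <;> [exact ff_nonneg _; exact le_rfl]
  rw [sum_comm] at h1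
  have h2 : ∀ d ∈ (Ioc 0 N).filter Squarefree, ∑ r ∈ Ioc 0 N, (if d ∣ r then ff d else 0) ≤
      C * N * (1 / (d : ℝ) ^ (5 / 4 : ℝ)) := by
    intro d hd
    rw [mem_filter, mem_Ioc] at hd
    have hd0 : (0 : ℝ) < d := by exact_mod_cast hd.1.1
    rw [← sum_filter, sum_const, card_mult, nsmul_eq_mul]
    calc ((N / d : ℕ) : ℝ) * ff d ≤ ((N : ℝ) / d) * (C * (d : ℝ) ^ (-(1 / 4) : ℝ)) := by
          apply mul_le_mul Nat.cast_div_le (hb d hd.2) (ff_nonneg d) (by positivity)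
      _ = C * N * ((d : ℝ)⁻¹ * (d : ℝ) ^ (-(1 / 4) : ℝ)) := by ring
      _ = _ := by
          congr 1
          rw [← Real.rpow_neg_one, ← Real.rpow_add hd0, one_div ((d : ℝ) ^ (5 / 4 : ℝ)),
            ← Real.rpow_neg hd0.le (5 / 4)]
          norm_num
  refine h1.trans ((sum_le_sum h2).trans ?_)
  rw [← mul_sum]
  have h3 := hs.sum_le_tsum ((Ioc 0 N).filter Squarefree) (fun i _ => by positivity)
  calc C * N * _ ≤ C * N * ∑' n : ℕ, 1 / (n : ℝ) ^ (5 / 4 : ℝ) := by gcongr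
    _ = C * (∑' n : ℕ, 1 / (n : ℝ) ^ (5 / 4 : ℝ)) * N := by ring
    _ ≤ _ := by
        gcongr
        linarith

/-- The basic weighted sum over squarefree `r ≤ y`. -/
theorem QL : ∃ C0 C1 : ℝ, 0 < C0 ∧ 0 < C1 ∧ ∀ (F : ℕ → ℝ) (y α β : ℝ), 1 ≤ y → 0 ≤ α → 0 ≤ β →
    (∀ r : ℕ, 0 < r → Squarefree r → (r : ℝ) ≤ y →
      F r ^ 2 ≤ α * hh r.primeFactors ^ 2 + β * (gg r.primeFactors ^ 2 * (r / y))) →
    ∑ r ∈ (Ioc 0 ⌊y⌋₊).filter Squarefree, (Nat.totient r : ℝ) * (F r / r) ^ 2 ≤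
      α * (Real.log y + C0) + β * C1 := by
  obtain ⟨C0, hC0, h0⟩ := H343.PhiSum.totient_upper
  obtain ⟨C1, hC1, h1⟩ := gg_avg
  refine ⟨C0, C1, hC0, hC1, fun F y α β hy hα hβ hF => ?_⟩
  have hN : 1 ≤ ⌊y⌋₊ := (Nat.one_le_floor_iff y).2 hy
  have hfl : (⌊y⌋₊ : ℝ) ≤ y := Nat.floor_le (by linarith)
  have hN0 : (0 : ℝ) < ⌊y⌋₊ := by exact_mod_cast hN
  have h2 : ∀ r ∈ (Ioc 0 ⌊y⌋₊).filter Squarefree, (Nat.totient r : ℝ) * (F r / r) ^ 2 ≤
      α * (1 / Nat.totient r) + β / y * gg r.primeFactors ^ 2 := by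
    intro r hr
    rw [mem_filter, mem_Ioc] at hr
    have hr0 : (0 : ℝ) < r := by exact_mod_cast hr.1.1
    have hry : (r : ℝ) ≤ y := (Nat.cast_le.2 hr.1.2).trans hfl
    have hphi : (0 : ℝ) < Nat.totient r := by exact_mod_cast Nat.totient_pos.2 hr.1.1
    have hphi2 : (Nat.totient r : ℝ) ≤ r := by exact_mod_cast Nat.totient_le r
    have h3 := hF r hr.1.1 hr.2 hry
    rw [hh_eq r hr.1.1] at h3
    calc (Nat.totient r : ℝ) * (F r / r) ^ 2 = Nat.totient r / r ^ 2 * F r ^ 2 := by ring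
      _ ≤ Nat.totient r / r ^ 2 * (α * ((r : ℝ) / Nat.totient r) ^ 2 +
          β * (gg r.primeFactors ^ 2 * (r / y))) := by gcongr
      _ = α * (1 / Nat.totient r) + β / y * gg r.primeFactors ^ 2 * (Nat.totient r / r) := by
          field_simp
      _ ≤ α * (1 / Nat.totient r) + β / y * gg r.primeFactors ^ 2 * 1 := by
          gcongr
          rw [div_le_one hr0]
          exact hphi2
      _ = _ := by ring
  refine (sum_le_sum h2).trans ?_
  rw [sum_add_distrib, ← mul_sum, ← mul_sum]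
  have h3 := h0 ⌊y⌋₊ hN
  have h4 := h1 ⌊y⌋₊
  have h5 : Real.log ⌊y⌋₊ ≤ Real.log y := Real.log_le_log hN0 hfl
  have h6 : ∑ r ∈ (Ioc 0 ⌊y⌋₊).filter Squarefree, (1 : ℝ) / Nat.totient r ≤ Real.log y + C0 := by
    have : H343.LL 0 ⌊y⌋₊ = ∑ r ∈ (Ioc 0 ⌊y⌋₊).filter Squarefree, (1 : ℝ) / Nat.totient r := rfl
    rw [← this]
    linarith
  have h7 : β / y * ∑ r ∈ (Ioc 0 ⌊y⌋₊).filter Squarefree, gg r.primeFactors ^ 2 ≤ β * C1 := by
    calc β / y * _ ≤ β / y * (C1 * ⌊y⌋₊) := by gcongr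
      _ ≤ β / y * (C1 * y) := by gcongr
      _ = β * C1 := by field_simp
  have h8 : α * ∑ r ∈ (Ioc 0 ⌊y⌋₊).filter Squarefree, (1 : ℝ) / Nat.totient r ≤
      α * (Real.log y + C0) := by gcongr
  linarith

end

end Pool.Agent.E8helper88
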