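import Pool.Agent.E8helper88.Ram

set_option autoImplicit false

open Finset

namespace Pool.Agent.E8helper88

noncomputable section

/-- The coefficient of `c_r` in the truncated divisor sum. -/
def aR (R r : ℕ) : ℝ := ∑ d ∈ (Ioc 0 R).filter (fun d => r ∣ d), mu d * Real.log ((R : ℝ) / d) / d

/-- The truncated divisor sum `∑_{d ∣ n, d ≤ R} μ(d) log (R/d)`. -/
def AA (R n : ℕ) : ℝ := ∑ d ∈ (Ioc 0 R).filter (fun d => d ∣ n), mu d * Real.log ((R : ℝ) / d)

/-- Its part on the moduli `r ≤ Q`. -/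
def DD (R Q n : ℕ) : ℝ := ∑ r ∈ Ioc 0 Q, aR R r * ram r n

/-- Its part on the moduli `Q < r ≤ R`. -/
def FF (R Q n : ℕ) : ℝ := ∑ r ∈ Ioc Q R, aR R r * ram r n

theorem AA_eq (R n : ℕ) : AA R n = ∑ r ∈ Ioc 0 R, aR R r * ram r n := by
  have e1 : AA R n = ∑ d ∈ Ioc 0 R, mu d * Real.log ((R : ℝ) / d) / d *
      (if d ∣ n then (d : ℝ) else 0) := by
    unfold AA
    rw [sum_filter]
    refine sum_congr rfl fun d hd => ?_
    have hd0 : (0 : ℝ) < d := by exact_mod_cast (mem_Ioc.1 hd).1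
    split_ifs
    · field_simp
    · ring
  have e2 : ∀ d ∈ Ioc 0 R, mu d * Real.log ((R : ℝ) / d) / d * (if d ∣ n then (d : ℝ) else 0) =
      ∑ r ∈ Ioc 0 R, if r ∣ d then mu d * Real.log ((R : ℝ) / d) / d * ram r n else 0 := by
    intro d hd
    rw [mem_Ioc] at hd
    rw [← sum_ram d n hd.1, mul_sum, ← sum_filter]
    refine sum_congr ?_ fun _ _ => rfl
    ext r
    simp only [Nat.mem_divisors, mem_filter, mem_Ioc]
    constructor
    · rintro ⟨h1, _⟩
      exact ⟨⟨Nat.pos_of_dvd_of_pos h1 hd.1, (Nat.le_of_dvd hd.1 h1).trans hd.2⟩, h1⟩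
    · rintro ⟨_, h1⟩
      exact ⟨h1, by omega⟩
  rw [e1, sum_congr rfl e2, sum_comm]
  refine sum_congr rfl fun r _ => ?_
  rw [aR, sum_mul, sum_filter]

theorem AA_split (R Q n : ℕ) (h : Q ≤ R) : AA R n = DD R Q n + FF R Q n := by
  rw [AA_eq, DD, FF]
  exact (sum_Ioc_consecutive _ (Nat.zero_le Q) h).symm

theorem harm_le (n : ℕ) : ∑ m ∈ Ioc 0 n, (1 : ℝ) / m ≤ 1 + Real.log n := by
  have h := harmonic_le_one_add_log n
  have e : ((harmonic n : ℚ) : ℝ) = ∑ m ∈ Ioc 0 n, (1 : ℝ) / m := by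
    rw [harmonic_eq_sum_Icc]
    push_cast
    have : Icc 1 n = Ioc 0 n := by ext; simp [Nat.succ_le_iff]
    rw [this]
    refine sum_congr rfl fun _ _ => by rw [one_div]
  rw [← e]
  exact h

theorem sum_mult (R r : ℕ) (hr : 0 < r) (g : ℕ → ℝ) :
    ∑ d ∈ (Ioc 0 R).filter (fun d => r ∣ d), g d = ∑ m ∈ Ioc 0 (R / r), g (r * m) := by
  symm
  refine sum_bij (fun m _ => r * m) ?_ ?_ ?_ ?_
  · intro m hm
    rw [mem_Ioc] at hm
    rw [mem_filter, mem_Ioc]
    refine ⟨⟨Nat.mul_pos hr hm.1, ?_⟩, dvd_mul_right _ _⟩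
    have := (Nat.le_div_iff_mul_le hr).1 hm.2
    rwa [mul_comm] at this
  · intro a _ b _ h
    exact Nat.eq_of_mul_eq_mul_left hr h
  · intro d hd
    rw [mem_filter, mem_Ioc] at hd
    obtain ⟨⟨h0, h1⟩, ⟨m, rfl⟩⟩ := hd
    refine ⟨m, ?_, rfl⟩
    rw [mem_Ioc]
    refine ⟨Nat.pos_of_ne_zero fun h => by simp [h] at h0, ?_⟩
    rw [Nat.le_div_iff_mul_le hr, mul_comm]
    exact h1
  · intro _ _
    rfl

theorem log_div_bounds (R d : ℕ) (hd : 0 < d) (h : d ≤ R) :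
    0 ≤ Real.log ((R : ℝ) / d) ∧ Real.log ((R : ℝ) / d) ≤ Real.log R := by
  have hd' : (0 : ℝ) < d := by exact_mod_cast hd
  have hd1 : (1 : ℝ) ≤ d := by exact_mod_cast hd
  have h' : (d : ℝ) ≤ R := by exact_mod_cast h
  constructor
  · exact Real.log_nonneg (by rw [le_div_iff₀ hd']; linarith)
  · apply Real.log_le_log (by apply div_pos _ hd'; linarith)
    rw [div_le_iff₀ hd']
    nlinarith

theorem aR_bound (R r : ℕ) (hr : 0 < r) : |aR R r| ≤ (1 + Real.log R) ^ 2 / r := by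
  have hr' : (0 : ℝ) < r := by exact_mod_cast hr
  have hL : 0 ≤ Real.log R := Real.log_natCast_nonneg R
  rcases Nat.lt_or_ge R r with hlt | hge
  · have : aR R r = 0 := by
      unfold aR
      rw [sum_mult R r hr, Nat.div_eq_of_lt hlt]
      simp
    rw [this, abs_zero]
    positivity
  have h1 : |aR R r| ≤ ∑ d ∈ (Ioc 0 R).filter (fun d => r ∣ d), Real.log R / d := by
    unfold aR
    refine (abs_sum_le_sum_abs _ _).trans (sum_le_sum fun d hd => ?_)
    rw [mem_filter, mem_Ioc] at hd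
    obtain ⟨h0, h2⟩ := log_div_bounds R d hd.1.1 hd.1.2
    have hd' : (0 : ℝ) < d := by exact_mod_cast hd.1.1
    rw [abs_div, abs_mul, abs_of_nonneg h0, abs_of_pos hd']
    gcongr
    calc |mu d| * Real.log ((R : ℝ) / d) ≤ 1 * Real.log R := by
          gcongr
          exact abs_mu_le d
      _ = _ := one_mul _
  rw [sum_mult R r hr] at h1
  have h3 : ∑ m ∈ Ioc 0 (R / r), Real.log R / ((r * m : ℕ) : ℝ) =
      Real.log R / r * ∑ m ∈ Ioc 0 (R / r), (1 : ℝ) / m := by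
    rw [mul_sum]
    refine sum_congr rfl fun m _ => ?_
    push_cast
    rw [div_mul_div_comm, mul_one]
  rw [h3] at h1
  have h4 := harm_le (R / r)
  have h5 : Real.log ((R / r : ℕ) : ℝ) ≤ Real.log R := by
    apply Real.log_le_log
    · have : 0 < R / r := Nat.div_pos hge hr
      exact_mod_cast this
    · exact_mod_cast Nat.div_le_self R r
  calc |aR R r| ≤ Real.log R / r * ∑ m ∈ Ioc 0 (R / r), (1 : ℝ) / m := h1
    _ ≤ (1 + Real.log R) / r * (1 + Real.log R) := by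
        gcongr
        · linarith
        · linarith
    _ = _ := by ring

theorem sg_le (r : ℕ) (hr : 0 < r) : sg r ≤ r * (1 + Real.log r) := by
  have hr' : (0 : ℝ) < r := by exact_mod_cast hr
  have h1 : sg r = r * ∑ e ∈ r.divisors, (1 : ℝ) / e := by
    unfold sg
    rw [← Nat.sum_div_divisors, mul_sum]
    refine sum_congr rfl fun e he => ?_
    have hd : e ∣ r := Nat.dvd_of_mem_divisors he
    have he0 : (e : ℝ) ≠ 0 := by
      have := Nat.pos_of_mem_divisors he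
      positivity
    rw [Nat.cast_div hd he0]
    ring
  rw [h1]
  gcongr
  refine le_trans ?_ (harm_le r)
  refine sum_le_sum_of_subset_of_nonneg ?_ fun _ _ _ => by positivity
  intro e he
  rw [Nat.mem_divisors] at he
  rw [mem_Ioc]
  exact ⟨Nat.pos_of_dvd_of_pos he.1 hr, Nat.le_of_dvd hr he.1⟩

theorem aR_sg (R r : ℕ) (hr : 0 < r) (h : r ≤ R) :
    |aR R r| * sg r ≤ (1 + Real.log R) ^ 3 := by
  have hr' : (0 : ℝ) < r := by exact_mod_cast hr
  have hL : 0 ≤ Real.log R := Real.log_natCast_nonneg R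
  have hLr : 0 ≤ Real.log r := Real.log_natCast_nonneg r
  have h5 : Real.log r ≤ Real.log R := Real.log_le_log hr' (by exact_mod_cast h)
  calc |aR R r| * sg r ≤ ((1 + Real.log R) ^ 2 / r) * (r * (1 + Real.log r)) :=
        mul_le_mul (aR_bound R r hr) (sg_le r hr) (sg_nonneg r) (by positivity)
    _ = (1 + Real.log R) ^ 2 * (1 + Real.log r) := by field_simp
    _ ≤ (1 + Real.log R) ^ 2 * (1 + Real.log R) := by gcongr
    _ = _ := by ring

theorem AA_ram (N R r : ℕ) (hr : 0 < r) :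
    |∑ m ∈ Ioc 0 N, AA R m * ram r m - N * Nat.totient r * aR R r| ≤
      sg r * (R * Real.log R) := by
  have e1 : ∑ m ∈ Ioc 0 N, AA R m * ram r m =
      ∑ d ∈ Ioc 0 R, mu d * Real.log ((R : ℝ) / d) *
        ∑ m ∈ (Ioc 0 N).filter (fun m => d ∣ m), ram r m := by
    have : ∀ m, AA R m * ram r m = ∑ d ∈ Ioc 0 R,
        mu d * Real.log ((R : ℝ) / d) * (if d ∣ m then ram r m else 0) := by
      intro m
      rw [AA, sum_mul, sum_filter]
      refine sum_congr rfl fun x _ => ?_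
      split_ifs <;> ring
    simp only [this]
    rw [sum_comm]
    refine sum_congr rfl fun x _ => ?_
    rw [← mul_sum, ← sum_filter]
  have e2 : N * Nat.totient r * aR R r =
      ∑ d ∈ Ioc 0 R, mu d * Real.log ((R : ℝ) / d) *
        ((N : ℝ) / d * (if r ∣ d then (Nat.totient r : ℝ) else 0)) := by
    rw [aR, mul_sum, sum_filter]
    refine sum_congr rfl fun d _ => ?_
    split_ifs
    · ring
    · ring
  rw [e1, e2, ← sum_sub_distrib]
  refine (abs_sum_le_sum_abs _ _).trans ?_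
  have h : ∀ d ∈ Ioc 0 R, |mu d * Real.log ((R : ℝ) / d) *
        ∑ m ∈ (Ioc 0 N).filter (fun m => d ∣ m), ram r m - mu d * Real.log ((R : ℝ) / d) *
        ((N : ℝ) / d * (if r ∣ d then (Nat.totient r : ℝ) else 0))| ≤ Real.log R * sg r := by
    intro d hd
    rw [mem_Ioc] at hd
    obtain ⟨h0, h2⟩ := log_div_bounds R d hd.1 hd.2
    rw [← mul_sub, abs_mul, abs_mul, abs_of_nonneg h0]
    have h3 := ram_sum_dvd N d r hd.1 hr
    calc |mu d| * Real.log ((R : ℝ) / d) * |_| ≤ 1 * Real.log R * sg r := by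
          gcongr
          exact abs_mu_le d
      _ = _ := by ring
  refine (sum_le_sum h).trans ?_
  rw [sum_const, Nat.card_Ioc, nsmul_eq_mul, Nat.sub_zero]
  exact le_of_eq (by ring)

theorem AA_DD (N R Q : ℕ) (hQR : Q ≤ R) :
    |∑ m ∈ Ioc 0 N, AA R m * DD R Q m - N * ∑ r ∈ Ioc 0 Q, Nat.totient r * aR R r ^ 2| ≤
      Q * (1 + Real.log R) ^ 3 * (R * Real.log R) := by
  have e1 : ∑ m ∈ Ioc 0 N, AA R m * DD R Q m =
      ∑ r ∈ Ioc 0 Q, aR R r * ∑ m ∈ Ioc 0 N, AA R m * ram r m := by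
    simp only [DD, mul_sum]
    rw [sum_comm]
    refine sum_congr rfl fun r _ => sum_congr rfl fun m _ => by ring
  have e2 : N * ∑ r ∈ Ioc 0 Q, Nat.totient r * aR R r ^ 2 =
      ∑ r ∈ Ioc 0 Q, aR R r * (N * Nat.totient r * aR R r) := by
    rw [mul_sum]
    refine sum_congr rfl fun r _ => by ring
  rw [e1, e2, ← sum_sub_distrib]
  refine (abs_sum_le_sum_abs _ _).trans ?_
  have hL : 0 ≤ Real.log R := Real.log_natCast_nonneg R
  have h : ∀ r ∈ Ioc 0 Q, |aR R r * ∑ m ∈ Ioc 0 N, AA R m * ram r m -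
      aR R r * (N * Nat.totient r * aR R r)| ≤ (1 + Real.log R) ^ 3 * (R * Real.log R) := by
    intro r hr
    rw [mem_Ioc] at hr
    rw [← mul_sub, abs_mul]
    calc |aR R r| * |_| ≤ |aR R r| * (sg r * (R * Real.log R)) := by
          gcongr
          exact AA_ram N R r hr.1
      _ = (|aR R r| * sg r) * (R * Real.log R) := by ring
      _ ≤ _ := by
          gcongr
          exact aR_sg R r hr.1 (hr.2.trans hQR)
  refine (sum_le_sum h).trans ?_
  rw [sum_const, Nat.card_Ioc, nsmul_eq_mul, Nat.sub_zero]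
  exact le_of_eq (by ring)

theorem DD_DD (N R Q : ℕ) (hQR : Q ≤ R) :
    |∑ m ∈ Ioc 0 N, DD R Q m ^ 2 - N * ∑ r ∈ Ioc 0 Q, Nat.totient r * aR R r ^ 2| ≤
      (Q * (1 + Real.log R) ^ 3) ^ 2 := by
  have e1 : ∑ m ∈ Ioc 0 N, DD R Q m ^ 2 =
      ∑ r ∈ Ioc 0 Q, ∑ s ∈ Ioc 0 Q, aR R r * aR R s * ∑ m ∈ Ioc 0 N, ram r m * ram s m := by
    have : ∀ m, DD R Q m ^ 2 = ∑ r ∈ Ioc 0 Q, ∑ s ∈ Ioc 0 Q,
        aR R r * aR R s * (ram r m * ram s m) := by
      intro m
      rw [sq, DD, sum_mul_sum]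
      refine sum_congr rfl fun r _ => sum_congr rfl fun m _ => by ring
    simp only [this]
    rw [sum_comm]
    refine sum_congr rfl fun r _ => ?_
    rw [sum_comm]
    refine sum_congr rfl fun s _ => ?_
    rw [mul_sum]
  have e2 : N * ∑ r ∈ Ioc 0 Q, Nat.totient r * aR R r ^ 2 =
      ∑ r ∈ Ioc 0 Q, ∑ s ∈ Ioc 0 Q, aR R r * aR R s *
        (if r = s then (N : ℝ) * Nat.totient r else 0) := by
    rw [mul_sum]
    refine sum_congr rfl fun r hr => ?_
    rw [sum_eq_single_of_mem r hr]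
    · rw [if_pos rfl]; ring
    · intro s _ hs
      rw [if_neg (Ne.symm hs)]; ring
  rw [e1, e2, ← sum_sub_distrib]
  refine (abs_sum_le_sum_abs _ _).trans ?_
  have hL : 0 ≤ Real.log R := Real.log_natCast_nonneg R
  have h : ∀ r ∈ Ioc 0 Q, |∑ s ∈ Ioc 0 Q, aR R r * aR R s * ∑ m ∈ Ioc 0 N, ram r m * ram s m -
      ∑ s ∈ Ioc 0 Q, aR R r * aR R s * (if r = s then (N : ℝ) * Nat.totient r else 0)| ≤
      Q * ((1 + Real.log R) ^ 3 * (1 + Real.log R) ^ 3) := by
    intro r hr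
    rw [← sum_sub_distrib]
    refine (abs_sum_le_sum_abs _ _).trans ?_
    rw [mem_Ioc] at hr
    have h2 : ∀ s ∈ Ioc 0 Q, |aR R r * aR R s * ∑ m ∈ Ioc 0 N, ram r m * ram s m -
      aR R r * aR R s * (if r = s then (N : ℝ) * Nat.totient r else 0)| ≤
      (1 + Real.log R) ^ 3 * (1 + Real.log R) ^ 3 := by
      intro s hs
      rw [mem_Ioc] at hs
      rw [← mul_sub, abs_mul, abs_mul]
      calc |aR R r| * |aR R s| * |_| ≤ |aR R r| * |aR R s| * (sg r * sg s) := by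
            gcongr
            exact ram_ram N r s hr.1 hs.1
        _ = (|aR R r| * sg r) * (|aR R s| * sg s) := by ring
        _ ≤ _ := mul_le_mul (aR_sg R r hr.1 (hr.2.trans hQR)) (aR_sg R s hs.1 (hs.2.trans hQR))
              (mul_nonneg (abs_nonneg _) (sg_nonneg _)) (by positivity)
    refine (sum_le_sum h2).trans ?_
    rw [sum_const, Nat.card_Ioc, nsmul_eq_mul, Nat.sub_zero]
  refine (sum_le_sum h).trans ?_
  rw [sum_const, Nat.card_Ioc, nsmul_eq_mul, Nat.sub_zero]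
  exact le_of_eq (by ring)

theorem VM_DD (N R Q : ℕ) (hN : 1 ≤ N) (hQR : Q ≤ R) :
    |∑ m ∈ Ioc 0 N, ArithmeticFunction.vonMangoldt m * DD R Q m -
      (∑ m ∈ Ioc 0 N, ArithmeticFunction.vonMangoldt m) * ∑ r ∈ Ioc 0 Q, mu r * aR R r| ≤
      Q * (1 + Real.log R) ^ 3 * Real.log N := by
  have e1 : ∑ m ∈ Ioc 0 N, ArithmeticFunction.vonMangoldt m * DD R Q m =
      ∑ r ∈ Ioc 0 Q, aR R r * ∑ m ∈ Ioc 0 N, ArithmeticFunction.vonMangoldt m * ram r m := by
    simp only [DD, mul_sum]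
    rw [sum_comm]
    refine sum_congr rfl fun r _ => sum_congr rfl fun m _ => by ring
  have e2 : (∑ m ∈ Ioc 0 N, ArithmeticFunction.vonMangoldt m) * ∑ r ∈ Ioc 0 Q, mu r * aR R r =
      ∑ r ∈ Ioc 0 Q, aR R r * (mu r * ∑ m ∈ Ioc 0 N, ArithmeticFunction.vonMangoldt m) := by
    rw [mul_sum]
    refine sum_congr rfl fun r _ => by ring
  rw [e1, e2, ← sum_sub_distrib]
  refine (abs_sum_le_sum_abs _ _).trans ?_
  have hL : 0 ≤ Real.log R := Real.log_natCast_nonneg R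
  have hLN : 0 ≤ Real.log N := Real.log_natCast_nonneg N
  have h : ∀ r ∈ Ioc 0 Q, |aR R r * ∑ m ∈ Ioc 0 N, ArithmeticFunction.vonMangoldt m * ram r m -
      aR R r * (mu r * ∑ m ∈ Ioc 0 N, ArithmeticFunction.vonMangoldt m)| ≤
      (1 + Real.log R) ^ 3 * Real.log N := by
    intro r hr
    rw [mem_Ioc] at hr
    rw [← mul_sub, abs_mul]
    calc |aR R r| * |_| ≤ |aR R r| * (sg r * Real.log N) := by
          gcongr
          exact vm_ram N r hr.1 hN
      _ = (|aR R r| * sg r) * Real.log N := by ring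
      _ ≤ _ := by
          gcongr
          exact aR_sg R r hr.1 (hr.2.trans hQR)
  refine (sum_le_sum h).trans ?_
  rw [sum_const, Nat.card_Ioc, nsmul_eq_mul, Nat.sub_zero]
  exact le_of_eq (by ring)

theorem complete_square (N ψ : ℝ) (hN : 0 < N) (Q R : ℕ) :
    2 * ψ * ∑ r ∈ Ioc 0 Q, mu r * aR R r - N * ∑ r ∈ Ioc 0 Q, Nat.totient r * aR R r ^ 2 ≤
      ψ ^ 2 / N * ∑ r ∈ (Ioc 0 Q).filter Squarefree, (1 : ℝ) / Nat.totient r := by
  rw [mul_sum, mul_sum, ← sum_sub_distrib, mul_sum, sum_filter]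
  refine sum_le_sum fun r hr => ?_
  rw [mem_Ioc] at hr
  have hphi : (0 : ℝ) < Nat.totient r := by exact_mod_cast Nat.totient_pos.2 hr.1
  have key : 2 * ψ * (mu r * aR R r) - N * (Nat.totient r * aR R r ^ 2) ≤
      mu r ^ 2 * (ψ ^ 2 / N * (1 / Nat.totient r)) := by
    have e : mu r ^ 2 * (ψ ^ 2 / N * (1 / Nat.totient r)) -
        (2 * ψ * (mu r * aR R r) - N * (Nat.totient r * aR R r ^ 2)) =
        (N * Nat.totient r * aR R r - ψ * mu r) ^ 2 / (N * Nat.totient r) := by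
      field_simp
      ring
    have h2 : 0 ≤ (N * Nat.totient r * aR R r - ψ * mu r) ^ 2 / (N * Nat.totient r) := by
      positivity
    linarith
  split_ifs with hsq
  · have hmu : mu r ^ 2 = 1 := by
      unfold mu
      have := ArithmeticFunction.moebius_sq_eq_one_of_squarefree hsq
      exact_mod_cast this
    rw [hmu, one_mul] at key
    exact key
  · have hmu : mu r = 0 := by
      unfold mu
      rw [ArithmeticFunction.moebius_eq_zero_of_not_squarefree hsq]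
      simp
    rw [hmu] at key ⊢
    simpa using key

theorem inner_main (N R Q : ℕ) (hN : 1 ≤ N) (hQR : Q ≤ R) :
    ∑ m ∈ Ioc 0 N, ArithmeticFunction.vonMangoldt m ^ 2 -
      ∑ m ∈ Ioc 0 N, (ArithmeticFunction.vonMangoldt m - AA R m) ^ 2 -
      (∑ m ∈ Ioc 0 N, ArithmeticFunction.vonMangoldt m) ^ 2 / N *
        (∑ r ∈ (Ioc 0 Q).filter Squarefree, (1 : ℝ) / Nat.totient r) -
      (2 * (Q * (1 + Real.log R) ^ 3 * Real.log N) +
        2 * (Q * (1 + Real.log R) ^ 3 * (R * Real.log R)) + (Q * (1 + Real.log R) ^ 3) ^ 2) ≤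
    ∑ m ∈ Ioc 0 N, (2 * ArithmeticFunction.vonMangoldt m * FF R Q m - FF R Q m ^ 2) := by
  have e1 : ∑ m ∈ Ioc 0 N, (2 * ArithmeticFunction.vonMangoldt m * FF R Q m - FF R Q m ^ 2) =
      ∑ m ∈ Ioc 0 N, ArithmeticFunction.vonMangoldt m ^ 2 -
      ∑ m ∈ Ioc 0 N, (ArithmeticFunction.vonMangoldt m - AA R m) ^ 2 -
      2 * ∑ m ∈ Ioc 0 N, ArithmeticFunction.vonMangoldt m * DD R Q m +
      2 * ∑ m ∈ Ioc 0 N, AA R m * DD R Q m - ∑ m ∈ Ioc 0 N, DD R Q m ^ 2 := by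
    rw [mul_sum, mul_sum, ← sum_sub_distrib, ← sum_sub_distrib, ← sum_add_distrib,
      ← sum_sub_distrib]
    refine sum_congr rfl fun m _ => ?_
    have h : FF R Q m = AA R m - DD R Q m := by
      rw [AA_split R Q m hQR]; ring
    rw [h]; ring
  have hN' : (0 : ℝ) < N := by exact_mod_cast hN
  have h1 := (abs_le.1 (VM_DD N R Q hN hQR)).2
  have h2 := (abs_le.1 (AA_DD N R Q hQR)).1
  have h3 := (abs_le.1 (DD_DD N R Q hQR)).2
  have h4 := complete_square N (∑ m ∈ Ioc 0 N, ArithmeticFunction.vonMangoldt m) hN' Q R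
  rw [e1]
  linarith

end

end Pool.Agent.E8helper88
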