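import Pool.Agent.E8helper88.Inner
import Pool.Agent.H409R2.MZ.Axer

set_option autoImplicit false

open Finset

namespace Pool.Agent.E8helper88

noncomputable section

theorem harm_close (t : ℝ) (ht : 1 ≤ t) :
    |t * (∑ j ∈ Ioc 0 ⌊t⌋₊, (1 : ℝ) / j) - t * (Real.log t + Real.eulerMascheroniConstant)| ≤ 2 := by
  have hn1 : 1 ≤ ⌊t⌋₊ := (Nat.one_le_floor_iff t).2 ht
  set n := ⌊t⌋₊ with hn
  have hn0 : (0 : ℝ) < n := by exact_mod_cast hn1
  have hfl : (n : ℝ) ≤ t := Nat.floor_le (by linarith)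
  have hfu : t < n + 1 := Nat.lt_floor_add_one t
  have e : ∑ j ∈ Ioc 0 n, (1 : ℝ) / j = ((harmonic n : ℚ) : ℝ) := by
    rw [harmonic_eq_sum_Icc]
    push_cast
    have : Icc 1 n = Ioc 0 n := by ext; simp [Nat.succ_le_iff]
    rw [this]
    refine sum_congr rfl fun _ _ => by rw [one_div]
  rw [e]
  have h1 := Real.eulerMascheroniSeq_lt_eulerMascheroniConstant n
  have h2 := Real.eulerMascheroniConstant_lt_eulerMascheroniSeq' n
  unfold Real.eulerMascheroniSeq at h1
  unfold Real.eulerMascheroniSeq' at h2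
  rw [if_neg (by omega)] at h2
  have h3 : Real.log (n + 1) - Real.log n ≤ 1 / n := by
    rw [← Real.log_div (by positivity) hn0.ne']
    have := Real.log_le_sub_one_of_pos (show 0 < ((n : ℝ) + 1) / n by positivity)
    have e2 : ((n : ℝ) + 1) / n - 1 = 1 / n := by field_simp; ring
    linarith
  have h4 : Real.log n ≤ Real.log t := Real.log_le_log hn0 hfl
  have h5 : Real.log t ≤ Real.log (n + 1) := Real.log_le_log (by linarith) hfu.le
  have h6 : |((harmonic n : ℚ) : ℝ) - (Real.log t + Real.eulerMascheroniConstant)| ≤ 1 / n := by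
    rw [abs_le]
    constructor <;> linarith
  rw [← mul_sub, abs_mul, abs_of_pos (by linarith : 0 < t)]
  have h7 : t ≤ 2 * n := by
    have : (1 : ℝ) ≤ n := by exact_mod_cast hn1
    linarith
  calc t * |_| ≤ (2 * n) * (1 / n) := by gcongr
    _ = 2 := by field_simp

theorem sum_mu_divisors (n : ℕ) :
    ∑ d ∈ n.divisors, mu d = if n = 1 then 1 else 0 := by
  have h := ArithmeticFunction.coe_mul_zeta_apply (f := ArithmeticFunction.moebius) (x := n)
  rw [ArithmeticFunction.moebius_mul_coe_zeta, ArithmeticFunction.one_apply] at h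
  unfold mu
  rw [← Int.cast_sum, ← h]
  split_ifs <;> simp

theorem mob_harm (N : ℕ) (hN : 1 ≤ N) :
    ∑ d ∈ Ioc 0 N, mu d / d * ∑ j ∈ Ioc 0 (N / d), (1 : ℝ) / j = 1 := by
  have e1 : ∀ d ∈ Ioc 0 N, mu d / d * ∑ j ∈ Ioc 0 (N / d), (1 : ℝ) / j =
      ∑ n ∈ Ioc 0 N, if d ∣ n then mu d * (1 / n) else 0 := by
    intro d hd
    rw [mem_Ioc] at hd
    rw [← sum_filter, sum_mult N d hd.1, mul_sum]
    refine sum_congr rfl fun j _ => ?_
    push_cast
    rw [mul_one_div, mul_one_div, div_div]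
  rw [sum_congr rfl e1, sum_comm, sum_eq_single_of_mem 1 (by rw [mem_Ioc]; omega)]
  · rw [← sum_filter]
    have : (Ioc 0 N).filter (fun d => d ∣ 1) = {1} := by
      ext d
      simp only [mem_filter, mem_Ioc, Nat.dvd_one, mem_singleton]
      constructor
      · exact fun h => h.2
      · rintro rfl
        exact ⟨⟨one_pos, hN⟩, rfl⟩
    rw [this, sum_singleton]
    simp [mu]
  · intro n hn hn1
    rw [mem_Ioc] at hn
    rw [← sum_filter]
    have : (Ioc 0 N).filter (fun d => d ∣ n) = n.divisors := by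
      ext d
      simp only [mem_filter, mem_Ioc, Nat.mem_divisors]
      constructor
      · exact fun h => ⟨h.2, by omega⟩
      · exact fun h => ⟨⟨Nat.pos_of_dvd_of_pos h.1 hn.1,
          (Nat.le_of_dvd hn.1 h.1).trans hn.2⟩, h.1⟩
    rw [this, ← sum_mul, sum_mu_divisors n, if_neg hn1, zero_mul]

/-- `∑_{s ≤ z, p ∤ s ∀ p ∈ P} μ(s)/s log(z/s)`. -/
def mP (P : Finset ℕ) (z : ℝ) : ℝ :=
  ∑ s ∈ (Ioc 0 ⌊z⌋₊).filter (fun s => ∀ p ∈ P, ¬ p ∣ s), mu s / s * Real.log (z / s)

theorem mP_empty_lim (ε : ℝ) (hε : 0 < ε) : ∃ T0 : ℝ, 1 ≤ T0 ∧ ∀ T : ℝ, T0 ≤ T →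
    |mP ∅ T - 1| ≤ ε := by
  set γ := Real.eulerMascheroniConstant with hγ
  have hγ0 : 0 < γ := by
    have := Real.one_half_lt_eulerMascheroniConstant
    linarith
  have htail : H409R2.MZ.Axer.TailSmall (fun t => t * (∑ j ∈ Ioc 0 ⌊t⌋₊, (1 : ℝ) / j) -
      t * (Real.log t + γ)) := by
    intro η hη
    refine ⟨max 1 (2 / η), le_max_left _ _, fun T hT => ?_⟩
    set Y := max 1 (2 / η) with hY
    have hY1 : 1 ≤ Y := le_max_left _ _
    have hT0 : 0 < T := by linarith
    have h : ∀ d ∈ Ioc 0 ⌊T / Y⌋₊, |(fun t : ℝ => t * (∑ j ∈ Ioc 0 ⌊t⌋₊, (1 : ℝ) / j) -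
      t * (Real.log t + γ)) (T / d)| ≤ 2 := by
      intro d hd
      rw [mem_Ioc] at hd
      have hd0 : (0 : ℝ) < d := by exact_mod_cast hd.1
      have hdY : (d : ℝ) ≤ T / Y := (Nat.cast_le.2 hd.2).trans (Nat.floor_le (by positivity))
      apply harm_close
      rw [le_div_iff₀ hd0]
      rw [le_div_iff₀ (by linarith)] at hdY
      nlinarith
    refine (sum_le_sum h).trans ?_
    rw [sum_const, Nat.card_Ioc, nsmul_eq_mul, Nat.sub_zero]
    have h2 : 2 / η ≤ Y := le_max_right _ _
    rw [div_le_iff₀ hη] at h2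
    calc (⌊T / Y⌋₊ : ℝ) * 2 ≤ T / Y * 2 := by
          gcongr
          exact Nat.floor_le (by positivity)
      _ = T * 2 / Y := by ring
      _ ≤ η * T := by
          rw [div_le_iff₀ (by linarith)]
          nlinarith
  obtain ⟨T1, hT11, hT1⟩ := H409R2.MZ.Axer.axer
    (fun t => t * (∑ j ∈ Ioc 0 ⌊t⌋₊, (1 : ℝ) / j)) (fun t => t * (Real.log t + γ))
    (fun x y hx hxy => by
      have h1 : ∑ j ∈ Ioc 0 ⌊x⌋₊, (1 : ℝ) / j ≤ ∑ j ∈ Ioc 0 ⌊y⌋₊, (1 : ℝ) / j :=
        sum_le_sum_of_subset_of_nonneg (Ioc_subset_Ioc_right (Nat.floor_le_floor hxy))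
          fun _ _ _ => by positivity
      have h2 : 0 ≤ ∑ j ∈ Ioc 0 ⌊x⌋₊, (1 : ℝ) / j := sum_nonneg fun _ _ => by positivity
      exact mul_le_mul hxy h1 h2 (by linarith))
    (fun x y hx hxy => by
      have h1 : Real.log x ≤ Real.log y := Real.log_le_log (by linarith) hxy
      have h2 : 0 ≤ Real.log x := Real.log_nonneg hx
      exact mul_le_mul hxy (by linarith) (by linarith) (by linarith))
    (fun x hx => mul_nonneg (by linarith) (sum_nonneg fun _ _ => by positivity))
    (fun x hx => by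
      have h2 : 0 ≤ Real.log x := Real.log_nonneg hx
      exact mul_nonneg (by linarith) (by linarith)) htail (ε / 2) (by positivity)
  obtain ⟨T2, hT21, hT2⟩ := H409R2.MZ.Axer.sum_mu_div (ε / (2 * γ)) (by positivity)
  refine ⟨max T1 T2, le_trans hT11 (le_max_left _ _), fun T hT => ?_⟩
  have hTT1 : T1 ≤ T := (le_max_left _ _).trans hT
  have hTT2 : T2 ≤ T := (le_max_right _ _).trans hT
  have hTpos : 0 < T := by linarith
  have h1 := hT1 T hTT1
  have h2 := hT2 T hTT2
  have hN : 1 ≤ ⌊T⌋₊ := (Nat.one_le_floor_iff T).2 (by linarith)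
  have h3 := mob_harm ⌊T⌋₊ hN
  have hmu : H409R2.MZ.Axer.mu = mu := rfl
  rw [hmu] at h1 h2
  have e1 : ∑ d ∈ Ioc 0 ⌊T⌋₊, mu d * (T / d * (∑ j ∈ Ioc 0 ⌊T / d⌋₊, (1 : ℝ) / j) -
      T / d * (Real.log (T / d) + γ)) = T - T * mP ∅ T -
        γ * ∑ d ∈ Ioc 0 ⌊T⌋₊, mu d * (T / d) := by
    have e2 : T = ∑ d ∈ Ioc 0 ⌊T⌋₊, mu d * (T / d * (∑ j ∈ Ioc 0 ⌊T / d⌋₊, (1 : ℝ) / j)) := by
      conv_lhs => rw [← mul_one T, ← h3]
      rw [mul_sum]
      refine sum_congr rfl fun d _ => ?_
      rw [Nat.floor_div_natCast]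
      ring
    have e3 : T * mP ∅ T = ∑ d ∈ Ioc 0 ⌊T⌋₊, mu d * (T / d * Real.log (T / d)) := by
      unfold mP
      simp only [notMem_empty, false_imp_iff, implies_true, filter_true]
      rw [mul_sum]
      refine sum_congr rfl fun d _ => by ring
    conv_rhs => rw [e3]
    conv_rhs => enter [1, 1]; rw [e2]
    rw [mul_sum, ← sum_sub_distrib, ← sum_sub_distrib]
    refine sum_congr rfl fun d _ => by ring
  rw [e1] at h1
  have h4 : |γ * ∑ d ∈ Ioc 0 ⌊T⌋₊, mu d * (T / d)| ≤ ε / 2 * T := by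
    rw [abs_mul, abs_of_pos hγ0]
    calc γ * |_| ≤ γ * (ε / (2 * γ) * T) := by gcongr
      _ = _ := by field_simp
  have h5 : |T * (mP ∅ T - 1)| ≤ ε * T := by
    rw [abs_le] at h1 h4 ⊢
    constructor <;> nlinarith
  rw [abs_mul, abs_of_pos hTpos] at h5
  exact le_of_mul_le_mul_left (by linarith) hTpos

theorem mP_lt_one (P : Finset ℕ) (z : ℝ) (hz : z < 1) : mP P z = 0 := by
  unfold mP
  rw [Nat.floor_eq_zero.2 hz]
  simp

theorem mP_rec (P : Finset ℕ) (hP : ∀ q ∈ P, q.Prime) (p : ℕ) (hp : p.Prime) (hpP : p ∉ P)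
    (z : ℝ) : mP (insert p P) z = mP P z + 1 / p * mP (insert p P) (z / p) := by
  have hp0 : (0 : ℝ) < p := by exact_mod_cast hp.pos
  have e1 : mP P z = mP (insert p P) z +
      ∑ s ∈ (Ioc 0 ⌊z⌋₊).filter (fun s => p ∣ s),
        (if ∀ q ∈ P, ¬ q ∣ s then mu s / s * Real.log (z / s) else 0) := by
    unfold mP
    rw [sum_filter, sum_filter, sum_filter, ← sum_add_distrib]
    refine sum_congr rfl fun s _ => ?_
    simp only [mem_insert, forall_eq_or_imp]
    by_cases h1 : p ∣ s <;> by_cases h2 : ∀ q ∈ P, ¬ q ∣ s <;> simp [h1, h2]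
  have e2 : ∑ s ∈ (Ioc 0 ⌊z⌋₊).filter (fun s => p ∣ s),
        (if ∀ q ∈ P, ¬ q ∣ s then mu s / s * Real.log (z / s) else 0) =
      - (1 / p * mP (insert p P) (z / p)) := by
    rw [sum_mult ⌊z⌋₊ p hp.pos, mP, ← Nat.floor_div_natCast, sum_filter, mul_sum,
      ← sum_neg_distrib]
    refine sum_congr rfl fun s hs => ?_
    rw [mem_Ioc] at hs
    have hs0 : (0 : ℝ) < s := by exact_mod_cast hs.1
    have h1 : (∀ q ∈ P, ¬ q ∣ p * s) ↔ ∀ q ∈ P, ¬ q ∣ s := by
      refine forall₂_congr fun q hq => ?_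
      rw [(hP q hq).dvd_mul]
      have : ¬ q ∣ p := by
        rw [Nat.prime_dvd_prime_iff_eq (hP q hq) hp]
        rintro rfl
        exact hpP hq
      tauto
    simp only [mem_insert, forall_eq_or_imp, h1]
    by_cases h2 : p ∣ s
    · have : mu (p * s) = 0 := by
        unfold mu
        rw [ArithmeticFunction.moebius_eq_zero_of_not_squarefree]
        · simp
        · intro hsq
          obtain ⟨t, rfl⟩ := h2
          have := hsq p ⟨t, by ring⟩
          exact hp.one_lt.ne' (Nat.isUnit_iff.1 this)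
      simp [h2, this]
    · have hcop : Nat.Coprime p s := (Nat.Prime.coprime_iff_not_dvd hp).2 h2
      have : mu (p * s) = - mu s := by
        unfold mu
        rw [ArithmeticFunction.isMultiplicative_moebius.map_mul_of_coprime hcop,
          ArithmeticFunction.moebius_apply_prime hp]
        push_cast
        ring
      by_cases h3 : ∀ q ∈ P, ¬ q ∣ s
      · rw [if_pos h3, if_pos ⟨h2, h3⟩, this]
        push_cast
        rw [div_div]
        field_simp
      · rw [if_neg h3, if_neg (fun h => h3 h.2)]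
        ring
  rw [e2] at e1
  linarith

/-- `∏_{p ∈ P} (1 - 1/p)⁻¹`. -/
def hh (P : Finset ℕ) : ℝ := ∏ p ∈ P, (1 - 1 / (p : ℝ))⁻¹

/-- `∏_{p ∈ P} (1 - p^(-1/2))⁻¹`. -/
def gg (P : Finset ℕ) : ℝ := ∏ p ∈ P, (1 - 1 / Real.sqrt p)⁻¹

theorem sqrt_facts (p : ℕ) (hp : p.Prime) : 0 < 1 / Real.sqrt p ∧ 1 / Real.sqrt p < 1 ∧
    (1 / Real.sqrt p) ^ 2 = 1 / (p : ℝ) := by
  have hp0 : (0 : ℝ) < p := by exact_mod_cast hp.pos
  have hs : 1 < Real.sqrt p := by
    rw [Real.lt_sqrt (by norm_num)]
    have : (1 : ℝ) < p := by exact_mod_cast hp.one_lt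
    linarith
  refine ⟨by positivity, ?_, ?_⟩
  · rw [div_lt_one (by linarith)]
    exact hs
  · rw [div_pow, one_pow, Real.sq_sqrt hp0.le]

theorem hh_le_gg (P : Finset ℕ) (hP : ∀ q ∈ P, q.Prime) : hh P ≤ gg P := by
  unfold hh gg
  refine prod_le_prod (fun q hq => ?_) (fun q hq => ?_)
  · obtain ⟨h1, h2, h3⟩ := sqrt_facts q (hP q hq)
    rw [← h3, inv_nonneg]
    nlinarith
  · obtain ⟨h1, h2, h3⟩ := sqrt_facts q (hP q hq)
    rw [← h3]
    apply inv_anti₀
    · linarith
    · nlinarith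

theorem hh_pos (P : Finset ℕ) (hP : ∀ q ∈ P, q.Prime) : 0 < hh P := by
  unfold hh
  refine prod_pos (fun q hq => ?_)
  obtain ⟨h1, h2, h3⟩ := sqrt_facts q (hP q hq)
  rw [← h3, inv_pos]
  nlinarith

theorem mP_bound (ε : ℝ) (hε : 0 < ε) : ∃ C : ℝ, 1 ≤ C ∧ ∀ P : Finset ℕ, (∀ q ∈ P, q.Prime) →
    ∀ z : ℝ, 1 ≤ z → |mP P z - hh P| ≤ ε * hh P + C * gg P / Real.sqrt z := by
  obtain ⟨T0, hT0, hT⟩ := mP_empty_lim ε hε
  have hlT0 : 0 ≤ Real.log T0 := Real.log_nonneg hT0
  set C := (1 + T0 * Real.log T0) * Real.sqrt T0 with hC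
  have hsT : 1 ≤ Real.sqrt T0 := Real.one_le_sqrt.2 hT0
  have hC1 : 1 ≤ C := by
    have : 0 ≤ T0 * Real.log T0 := mul_nonneg (by linarith) hlT0
    rw [hC]; nlinarith
  refine ⟨C, hC1, ?_⟩
  intro P
  refine Finset.induction_on P ?_ ?_
  · intro _ z hz
    have hsz : 0 < Real.sqrt z := Real.sqrt_pos.2 (by linarith)
    have e1 : hh ∅ = 1 := by simp [hh]
    have e2 : gg ∅ = 1 := by simp [gg]
    rw [e1, e2, mul_one, mul_one]
    rcases le_total T0 z with h | h
    · have := hT z h
      have h2 : 0 ≤ C / Real.sqrt z := by positivity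
      linarith
    · have h1 : |mP ∅ z| ≤ T0 * Real.log T0 := by
        unfold mP
        simp only [notMem_empty, false_imp_iff, implies_true, filter_true]
        refine (abs_sum_le_sum_abs _ _).trans ?_
        have : ∀ s ∈ Ioc 0 ⌊z⌋₊, |mu s / s * Real.log (z / s)| ≤ Real.log T0 := by
          intro s hs
          rw [mem_Ioc] at hs
          have hs0 : (0 : ℝ) < s := by exact_mod_cast hs.1
          have hs1 : (1 : ℝ) ≤ s := by exact_mod_cast hs.1
          have hsz' : (s : ℝ) ≤ z := (Nat.cast_le.2 hs.2).trans (Nat.floor_le (by linarith))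
          have hl0 : 0 ≤ Real.log (z / s) := Real.log_nonneg (by rw [le_div_iff₀ hs0]; linarith)
          have hl1 : Real.log (z / s) ≤ Real.log T0 := by
            apply Real.log_le_log (by positivity)
            rw [div_le_iff₀ hs0]
            nlinarith
          rw [abs_mul, abs_div, abs_of_pos hs0, abs_of_nonneg hl0]
          calc |mu s| / s * Real.log (z / s) ≤ 1 / 1 * Real.log T0 := by
                gcongr
                exact abs_mu_le s
            _ = _ := by ring
        refine (sum_le_sum this).trans ?_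
        rw [sum_const, Nat.card_Ioc, nsmul_eq_mul, Nat.sub_zero]
        gcongr
        exact (Nat.floor_le (by linarith)).trans h
      have h2 : |mP ∅ z - 1| ≤ 1 + T0 * Real.log T0 := by
        calc |mP ∅ z - 1| ≤ |mP ∅ z| + |(1 : ℝ)| := abs_sub _ _
          _ ≤ _ := by rw [abs_one]; linarith
      have h3 : 1 + T0 * Real.log T0 ≤ C / Real.sqrt z := by
        rw [le_div_iff₀ hsz, hC]
        gcongr
      linarith
  · intro p P hpP ih hP'
    have hp : p.Prime := hP' p (mem_insert_self _ _)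
    have hP : ∀ q ∈ P, q.Prime := fun q hq => hP' q (mem_insert_of_mem hq)
    have ihP := ih hP
    obtain ⟨ha0, ha1, ha2⟩ := sqrt_facts p hp
    set a := 1 / Real.sqrt p with ha
    have hp0 : (0 : ℝ) < p := by exact_mod_cast hp.pos
    have hsp : 0 < Real.sqrt p := Real.sqrt_pos.2 hp0
    set h := hh P with hhh
    set g := gg P with hgg
    have hhpos : 0 < h := hh_pos P hP
    have hhg : h ≤ g := hh_le_gg P hP
    have hg0 : 0 < g := hhpos.trans_le hhg
    have eh : hh (insert p P) = (1 - a ^ 2)⁻¹ * h := by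
      rw [hh, prod_insert hpP, ha2, ← hh]
    have eg : gg (insert p P) = (1 - a)⁻¹ * g := by
      rw [gg, prod_insert hpP, ← gg]
    set h' := hh (insert p P) with hh'
    set g' := gg (insert p P) with hg'
    have h1a : 0 < 1 - a := by linarith
    have h1a2 : 0 < 1 - a ^ 2 := by nlinarith
    have eh2 : h' * (1 - a ^ 2) = h := by rw [eh]; field_simp
    have eg2 : g' * (1 - a) = g := by rw [eg]; field_simp
    have hh'0 : 0 < h' := by rw [eh]; positivity
    have hg'0 : 0 < g' := by rw [eg]; positivity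
    have key : ∀ k : ℕ, ∀ z : ℝ, 1 ≤ z → z < 2 ^ k →
        |mP (insert p P) z - h'| ≤ ε * h' + C * g' / Real.sqrt z := by
      intro k
      induction k with
      | zero => intro z h1 h2; rw [pow_zero] at h2; linarith
      | succ k ihk =>
        intro z hz1 hz2
        have hsz : 0 < Real.sqrt z := Real.sqrt_pos.2 (by linarith)
        have h0 := ihP z hz1
        rcases lt_or_ge z p with hzp | hzp
        · have e : mP (insert p P) z = mP P z := by
            rw [mP_rec P hP p hp hpP z, mP_lt_one _ (z / p) (by rw [div_lt_one hp0]; exact hzp)]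
            ring
          rw [e]
          have h1 : a < 1 / Real.sqrt z := by
            rw [ha]
            apply one_div_lt_one_div_of_lt hsz
            exact Real.sqrt_lt_sqrt (by linarith) hzp
          have h2 : |mP P z - h'| ≤ |mP P z - h| + (h' - h) := by
            have : |mP P z - h'| ≤ |mP P z - h| + |h - h'| := abs_sub_le _ _ _
            have h3 : |h - h'| = h' - h := by
              rw [abs_sub_comm, abs_of_nonneg]
              nlinarith
            linarith
          have h4 : h' - h ≤ C * (g' - g) / Real.sqrt z := by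
            have e1 : h' - h = h' * a ^ 2 := by rw [← eh2]; ring
            have e2 : g' - g = g' * a := by rw [← eg2]; ring
            have h5 : h' ≤ g' := hh_le_gg _ hP'
            rw [e1, e2]
            calc h' * a ^ 2 ≤ g' * a ^ 2 := by gcongr
              _ = 1 * (g' * a) * a := by ring
              _ ≤ C * (g' * a) * (1 / Real.sqrt z) := by gcongr
              _ = _ := by ring
          have h5 : C * (g' - g) / Real.sqrt z = C * g' / Real.sqrt z - C * g / Real.sqrt z := by
            ring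
          have h6 : ε * h ≤ ε * h' := by
            have : h ≤ h' := by nlinarith
            gcongr
          linarith
        · have hp2 : (2 : ℝ) ≤ p := by exact_mod_cast hp.two_le
          have hzp1 : 1 ≤ z / p := by rw [le_div_iff₀ hp0]; linarith
          have hzp2 : z / p < 2 ^ k := by
            rw [div_lt_iff₀ hp0]
            have : (2 : ℝ) ^ (k + 1) = 2 ^ k * 2 := by ring
            have h3 : (0 : ℝ) < 2 ^ k := by positivity
            nlinarith
          have h1 := ihk (z / p) hzp1 hzp2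
          rw [mP_rec P hP p hp hpP z, ← ha2]
          have e : mP P z + a ^ 2 * mP (insert p P) (z / p) - h' =
              (mP P z - h) + a ^ 2 * (mP (insert p P) (z / p) - h') := by
            rw [← eh2]; ring
          rw [e]
          have h2 : Real.sqrt (z / p) = Real.sqrt z * a := by
            rw [Real.sqrt_div' _ hp0.le, ha]; ring
          rw [h2] at h1
          calc |(mP P z - h) + a ^ 2 * (mP (insert p P) (z / p) - h')| ≤
                |mP P z - h| + |a ^ 2 * (mP (insert p P) (z / p) - h')| := abs_add_le _ _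
            _ = |mP P z - h| + a ^ 2 * |mP (insert p P) (z / p) - h'| := by
                rw [abs_mul, abs_of_nonneg (sq_nonneg a)]
            _ ≤ (ε * h + C * g / Real.sqrt z) + a ^ 2 * (ε * h' + C * g' / (Real.sqrt z * a)) := by
                gcongr
            _ = ε * h' + C * g' / Real.sqrt z := by
                rw [← eh2, ← eg2]
                field_simp
                ring
    intro z hz
    obtain ⟨k, hk⟩ := pow_unbounded_of_one_lt z (by norm_num : (1 : ℝ) < 2)
    exact key k z hz hk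

end

end Pool.Agent.E8helper88
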