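import Pool.Agent.E8helper88.NormB
import Pool.Agent.Helper923.PNT

set_option autoImplicit false

open Finset Filter Topology

namespace Pool.Agent.E8helper88

noncomputable section

theorem lam_sq (η : ℝ) (hη : 0 < η) (hη1 : η ≤ 1) : ∃ N0 : ℕ, ∀ N : ℕ, N0 ≤ N →
    (1 - η) * (N * Real.log N) ≤ ∑ n ∈ Ioc 0 N, ArithmeticFunction.vonMangoldt n ^ 2 := by
  set δ := η / 3 with hδ
  have hδ0 : 0 < δ := by positivity
  have hδ1 : δ ≤ 1 / 3 := by rw [hδ]; linarith
  have h1 := Helper923.PNT.theta_div_tendsto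
  have h2 : ∀ᶠ x : ℝ in atTop, 1 - δ < Chebyshev.theta x / x :=
    h1.eventually (lt_mem_nhds (by linarith))
  have h3 : Tendsto (fun x : ℝ => 2 * x ^ (-δ)) atTop (𝓝 0) := by
    have := (tendsto_rpow_neg_atTop hδ0).const_mul 2
    simpa using this
  have h4 : ∀ᶠ x : ℝ in atTop, 2 * x ^ (-δ) < δ := h3.eventually (gt_mem_nhds hδ0)
  have h5 : ∀ᶠ x : ℝ in atTop, (1 - δ < Chebyshev.theta x / x ∧ 2 * x ^ (-δ) < δ) ∧ 1 ≤ x :=
    (h2.and h4).and (eventually_ge_atTop 1)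
  obtain ⟨N0, hN0⟩ := (tendsto_natCast_atTop_atTop.eventually h5).exists_forall_of_atTop
  refine ⟨N0, fun N hN => ?_⟩
  obtain ⟨⟨ha, hb⟩, hx1⟩ := hN0 N hN
  set x : ℝ := (N : ℝ) with hx
  have hx0 : 0 < x := by linarith
  set y := x ^ (1 - δ) with hy
  have hy0 : 0 < y := Real.rpow_pos_of_pos hx0 _
  have hlogy : Real.log y = (1 - δ) * Real.log x := by rw [hy, Real.log_rpow hx0]
  have hlogx : 0 ≤ Real.log x := Real.log_nonneg hx1
  rw [lt_div_iff₀ hx0] at ha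
  have hc : Chebyshev.theta y ≤ δ * x := by
    have h6 := Chebyshev.theta_le_log4_mul_x hy0.le
    have h7 : Real.log 4 ≤ 2 := by
      have : (4 : ℝ) = 2 ^ 2 := by norm_num
      rw [this, Real.log_pow]
      have := Real.log_two_lt_d9
      push_cast
      linarith
    have h8 : y = x * x ^ (-δ) := by
      rw [hy, sub_eq_add_neg, Real.rpow_add hx0, Real.rpow_one]
    calc Chebyshev.theta y ≤ Real.log 4 * y := h6
      _ ≤ 2 * y := by gcongr
      _ = x * (2 * x ^ (-δ)) := by rw [h8]; ring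
      _ ≤ x * δ := by gcongr
      _ = _ := by ring
  have hd : ∑ p ∈ (Ioc 0 N).filter Nat.Prime, Real.log p ^ 2 ≤
      ∑ n ∈ Ioc 0 N, ArithmeticFunction.vonMangoldt n ^ 2 := by
    calc ∑ p ∈ (Ioc 0 N).filter Nat.Prime, Real.log p ^ 2 =
          ∑ p ∈ (Ioc 0 N).filter Nat.Prime, ArithmeticFunction.vonMangoldt p ^ 2 := by
          refine sum_congr rfl fun p hp => ?_
          rw [mem_filter] at hp
          rw [ArithmeticFunction.vonMangoldt_apply_prime hp.2]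
      _ ≤ _ := sum_le_sum_of_subset_of_nonneg (filter_subset _ _) fun _ _ _ => sq_nonneg _
  have he : ∀ p ∈ (Ioc 0 N).filter Nat.Prime, (1 - δ) * Real.log x * Real.log p -
      (1 - δ) * Real.log x * (if (p : ℝ) ≤ y then Real.log p else 0) ≤ Real.log p ^ 2 := by
    intro p hp
    rw [mem_filter] at hp
    have hp0 : (0 : ℝ) < p := by exact_mod_cast hp.2.pos
    have hlp : 0 ≤ Real.log p := Real.log_natCast_nonneg p
    split_ifs with h
    · rw [sub_self]; positivity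
    · push Not at h
      have : (1 - δ) * Real.log x ≤ Real.log p := by
        rw [← hlogy]
        exact Real.log_le_log hy0 h.le
      rw [mul_zero, sub_zero, sq]
      gcongr
  have hf := sum_le_sum he
  rw [sum_sub_distrib, ← mul_sum, ← mul_sum] at hf
  have hg : ∑ p ∈ (Ioc 0 N).filter Nat.Prime, Real.log p = Chebyshev.theta x := by
    unfold Chebyshev.theta
    rw [hx, Nat.floor_natCast]
  have hh : ∑ p ∈ (Ioc 0 N).filter Nat.Prime, (if (p : ℝ) ≤ y then Real.log p else 0) ≤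
      Chebyshev.theta y := by
    unfold Chebyshev.theta
    rw [← sum_filter]
    refine sum_le_sum_of_subset_of_nonneg ?_ fun _ _ _ => Real.log_natCast_nonneg _
    intro p hp
    simp only [mem_filter, mem_Ioc] at hp ⊢
    exact ⟨⟨hp.1.1.1, (Nat.le_floor_iff hy0.le).2 hp.2⟩, hp.1.2⟩
  rw [hg] at hf
  have hk : 0 ≤ (1 - δ) * Real.log x := mul_nonneg (by linarith) hlogx
  have h9 : (1 - δ) * Real.log x * (Chebyshev.theta x - Chebyshev.theta y) ≤
      ∑ n ∈ Ioc 0 N, ArithmeticFunction.vonMangoldt n ^ 2 := by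
    have := mul_le_mul_of_nonneg_left hh hk
    have h10 : (1 - δ) * Real.log x * (Chebyshev.theta x - Chebyshev.theta y) =
      (1 - δ) * Real.log x * Chebyshev.theta x - (1 - δ) * Real.log x * Chebyshev.theta y := by ring
    linarith
  refine le_trans ?_ h9
  have h11 : (1 - 2 * δ) * x ≤ Chebyshev.theta x - Chebyshev.theta y := by linarith
  have h12 := mul_le_mul_of_nonneg_left h11 hk
  refine le_trans ?_ h12
  have h13 : (1 - η) = 1 - 3 * δ := by rw [hδ]; ring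
  rw [h13]
  have h14 : 0 ≤ x * Real.log x := by positivity
  nlinarith [mul_nonneg (mul_nonneg hδ0.le hδ0.le) h14]

theorem psi_upper (η : ℝ) (hη : 0 < η) : ∃ N0 : ℕ, ∀ N : ℕ, N0 ≤ N →
    ∑ n ∈ Ioc 0 N, ArithmeticFunction.vonMangoldt n ≤ (1 + η) * N := by
  have h1 := Helper923.PNT.psi_div_tendsto
  have h2 : ∀ᶠ x : ℝ in atTop, Chebyshev.psi x / x < 1 + η ∧ 1 ≤ x :=
    (h1.eventually (gt_mem_nhds (by linarith))).and (eventually_ge_atTop 1)
  obtain ⟨N0, hN0⟩ := (tendsto_natCast_atTop_atTop.eventually h2).exists_forall_of_atTop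
  refine ⟨N0, fun N hN => ?_⟩
  obtain ⟨ha, hb⟩ := hN0 N hN
  rw [div_lt_iff₀ (by linarith)] at ha
  have : ∑ n ∈ Ioc 0 N, ArithmeticFunction.vonMangoldt n = Chebyshev.psi N := by
    unfold Chebyshev.psi
    rw [Nat.floor_natCast]
  rw [this]
  exact ha.le

theorem main_norm (η : ℝ) (hη : 0 < η) (hη1 : η ≤ 1) : ∃ N0 : ℕ, ∀ N R Q : ℕ, N0 ≤ N → 1 ≤ Q →
    Q ≤ R → R ≤ N → ((N : ℝ) / R * Real.log N) ^ 2 ≤ N →
    (Q : ℝ) * R * (1 + Real.log N) ^ 4 ≤ N → ((Q : ℝ) * (1 + Real.log N) ^ 3) ^ 2 ≤ N →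
    N * (Real.log R - Real.log Q - η * Real.log N) ≤
      ∑ m ∈ Ioc 0 N, (2 * ArithmeticFunction.vonMangoldt m * FF R Q m - FF R Q m ^ 2) := by
  obtain ⟨N1, h1⟩ := lam_sq (η / 16) (by positivity) (by linarith)
  obtain ⟨N2, h2⟩ := psi_upper (η / 16) (by positivity)
  obtain ⟨C, hC, h3⟩ := normB (η / 100) (by positivity) (by linarith)
  obtain ⟨C0, hC0, h4⟩ := H343.PhiSum.totient_upper
  have hlog : Tendsto (fun n : ℕ => Real.log n) atTop atTop :=
    Real.tendsto_log_atTop.comp tendsto_natCast_atTop_atTop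
  obtain ⟨N3, hN3⟩ := (hlog.eventually
    (eventually_ge_atTop ((2 * C + 4 * C0 + 5) / (η / 8)))).exists_forall_of_atTop
  refine ⟨max (max N1 N2) (max N3 1), fun N R Q hN hQ hQR hRN hc1 hc2 hc3 => ?_⟩
  have hNN1 : N1 ≤ N := ((le_max_left _ _).trans (le_max_left _ _)).trans hN
  have hNN2 : N2 ≤ N := ((le_max_right _ _).trans (le_max_left _ _)).trans hN
  have hNN3 : N3 ≤ N := ((le_max_left _ _).trans (le_max_right _ _)).trans hN
  have hNN4 : 1 ≤ N := ((le_max_right _ _).trans (le_max_right _ _)).trans hN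
  have hR : 1 ≤ R := hQ.trans hQR
  have hN0 : (0 : ℝ) < N := by exact_mod_cast hNN4
  have hR0 : (0 : ℝ) < R := by exact_mod_cast hR
  have hR1 : (1 : ℝ) ≤ R := by exact_mod_cast hR
  have hQ0 : (0 : ℝ) < Q := by exact_mod_cast hQ
  have hQ1 : (1 : ℝ) ≤ Q := by exact_mod_cast hQ
  have hRN' : (R : ℝ) ≤ N := by exact_mod_cast hRN
  have hQR' : (Q : ℝ) ≤ R := by exact_mod_cast hQR
  set ℓ := Real.log N with hℓ
  have hℓ0 : 0 ≤ ℓ := Real.log_natCast_nonneg N
  have hlR0 : 0 ≤ Real.log R := Real.log_natCast_nonneg R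
  have hlQ0 : 0 ≤ Real.log Q := Real.log_natCast_nonneg Q
  have hlR : Real.log R ≤ ℓ := Real.log_le_log hR0 hRN'
  have hlQ : Real.log Q ≤ Real.log R := Real.log_le_log hQ0 hQR'
  have hbig := hN3 N hNN3
  rw [div_le_iff₀ (by positivity)] at hbig
  have g1 := h1 N hNN1
  have g2 := h2 N hNN2
  have g3 := h3 N R hR hRN
  have g4 := h4 Q hQ
  have hLL : H343.LL 0 Q = ∑ r ∈ (Ioc 0 Q).filter Squarefree, (1 : ℝ) / Nat.totient r := rfl
  rw [hLL] at g4
  have g5 := inner_main N R Q hNN4 hQR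
  refine le_trans ?_ g5
  set S := ∑ r ∈ (Ioc 0 Q).filter Squarefree, (1 : ℝ) / Nat.totient r with hS
  set ψ := ∑ n ∈ Ioc 0 N, ArithmeticFunction.vonMangoldt n with hψ
  have hψ0 : 0 ≤ ψ := sum_nonneg fun _ _ => ArithmeticFunction.vonMangoldt_nonneg
  have hS0 : 0 ≤ S := sum_nonneg fun _ _ => by positivity
  have hlogdiv : Real.log ((N : ℝ) / R) = ℓ - Real.log R := Real.log_div hN0.ne' hR0.ne'
  rw [hlogdiv] at g3
  -- error in g3
  have e3 : ((N : ℝ) / R * (ℓ - Real.log R)) ^ 2 ≤ N := by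
    refine le_trans ?_ hc1
    have : 0 ≤ ℓ - Real.log R := by linarith
    gcongr
    linarith
  have e4 : ψ ^ 2 / N * S ≤ N * ((1 + 3 * (η / 16)) * (Real.log Q + C0)) := by
    have a1 : ψ ^ 2 ≤ ((1 + η / 16) * N) ^ 2 := by gcongr
    have a2 : ψ ^ 2 / N ≤ (1 + η / 16) ^ 2 * N := by
      rw [div_le_iff₀ hN0]
      calc ψ ^ 2 ≤ ((1 + η / 16) * N) ^ 2 := a1
        _ = _ := by ring
    have a3 : (1 + η / 16) ^ 2 ≤ 1 + 3 * (η / 16) := by nlinarith
    calc ψ ^ 2 / N * S ≤ ((1 + 3 * (η / 16)) * N) * (Real.log Q + C0) := by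
          apply mul_le_mul _ g4 hS0 (by positivity)
          refine a2.trans ?_
          gcongr
      _ = _ := by ring
  have hpow3 : (1 + Real.log R) ^ 3 ≤ (1 + ℓ) ^ 3 := by gcongr
  have hp0 : 0 ≤ (1 + Real.log R) ^ 3 := by positivity
  have e5 : (Q : ℝ) * (1 + Real.log R) ^ 3 * ℓ ≤ N := by
    refine le_trans ?_ hc2
    calc (Q : ℝ) * (1 + Real.log R) ^ 3 * ℓ ≤ Q * (1 + ℓ) ^ 3 * (1 + ℓ) := by
          gcongr
          linarith
      _ = Q * 1 * (1 + ℓ) ^ 4 := by ring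
      _ ≤ Q * R * (1 + ℓ) ^ 4 := by gcongr
  have e6 : (Q : ℝ) * (1 + Real.log R) ^ 3 * (R * Real.log R) ≤ N := by
    refine le_trans ?_ hc2
    calc (Q : ℝ) * (1 + Real.log R) ^ 3 * (R * Real.log R) ≤ Q * (1 + ℓ) ^ 3 * (R * (1 + ℓ)) := by
          gcongr
          linarith
      _ = Q * R * (1 + ℓ) ^ 4 := by ring
  have e7 : ((Q : ℝ) * (1 + Real.log R) ^ 3) ^ 2 ≤ N := by
    refine le_trans ?_ hc3
    gcongr
  -- final assembly
  have f1 : N * (Real.log R - Real.log Q - η * ℓ) ≤ (1 - η / 16) * (N * ℓ) -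
      ((1 + 24 * (η / 100)) * (N * (ℓ - Real.log R)) + C * (N + N)) -
      N * ((1 + 3 * (η / 16)) * (Real.log Q + C0)) - (2 * N + 2 * N + N) := by
    have k1 : (2 * C + 4 * C0 + 5) ≤ η / 8 * ℓ := by linarith
    have k2 : Real.log R - Real.log Q - η * ℓ ≤ (1 - η / 16) * ℓ -
      ((1 + 24 * (η / 100)) * (ℓ - Real.log R) + C * 2) -
      ((1 + 3 * (η / 16)) * (Real.log Q + C0)) - 5 := by
      have k3 : η * Real.log Q ≤ η * ℓ := by
        gcongr
        linarith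
      have k4 : 0 ≤ η * Real.log R := by positivity
      have k5 : η * C0 ≤ 1 * C0 := by gcongr
      nlinarith
    calc N * (Real.log R - Real.log Q - η * ℓ) ≤ N * ((1 - η / 16) * ℓ -
      ((1 + 24 * (η / 100)) * (ℓ - Real.log R) + C * 2) -
      ((1 + 3 * (η / 16)) * (Real.log Q + C0)) - 5) := by gcongr
      _ = _ := by ring
  have f2 : C * (N + ((N : ℝ) / R * (ℓ - Real.log R)) ^ 2) ≤ C * (N + N) := by gcongr
  linarith

end

end Pool.Agent.E8helper88
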