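import Pool.Agent.E8helper88.Refl

set_option autoImplicit false

open Finset

namespace Pool.Agent.E8helper88

noncomputable section

open H343.PhiSum (rd rd_pos rd_dvd rd_sqf rd_squarefree primeFactors_rd)

/-- The majorant for `VV R (a² b)²`. -/
def GG (R a b : ℕ) : ℝ := a.divisors.card * ∑ v ∈ a.divisors, cA lp ((v : ℝ) / R * b) b ^ 2

theorem GG_nonneg (R a b : ℕ) : 0 ≤ GG R a b := by
  unfold GG
  exact mul_nonneg (Nat.cast_nonneg _) (sum_nonneg fun _ _ => sq_nonneg _)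

theorem sum_large (N R A : ℕ) :
    ∑ n ∈ (Ioc 0 N).filter (fun n => A ^ 2 < n / rd n), VV R n ^ 2 ≤
      ∑ a ∈ Ioc A N, ∑ b ∈ Ioc 0 (N / a ^ 2), GG R a b := by
  have h1 : ∀ n ∈ (Ioc 0 N).filter (fun n => A ^ 2 < n / rd n), VV R n ^ 2 ≤
      ∑ a ∈ Ioc A N, ∑ b ∈ Ioc 0 (N / a ^ 2), if a ^ 2 * b = n then GG R a b else 0 := by
    intro n hn
    rw [mem_filter, mem_Ioc] at hn
    obtain ⟨b, a, hab, hsq⟩ := Nat.sq_mul_squarefree n
    have ha : 0 < a := by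
      apply Nat.pos_of_ne_zero
      rintro rfl
      simp at hab
      omega
    have hb : 0 < b := Nat.pos_of_ne_zero hsq.ne_zero
    obtain ⟨v, hva, _, hrd⟩ := rd_sq_mul a b ha hsq
    have hv : 0 < v := Nat.pos_of_dvd_of_pos hva ha
    have ht : n / rd n ≤ a ^ 2 := by
      rw [← hab, hrd]
      apply Nat.div_le_of_le_mul
      nlinarith [Nat.mul_le_mul_right (a ^ 2 * b) hv]
    have hAa : A < a := lt_of_pow_lt_pow_left₀ 2 (Nat.zero_le a) (hn.2.trans_le ht)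
    have haN : a ≤ N := by
      have : a ≤ a ^ 2 * b := by nlinarith [Nat.mul_le_mul ha hb]
      omega
    have hbN : b ≤ N / a ^ 2 := by
      rw [Nat.le_div_iff_mul_le (by positivity)]
      rw [mul_comm, hab]
      exact hn.1.2
    have h2 : VV R n ^ 2 ≤ GG R a b := by
      rw [← hab]
      exact VV_large R a b ha hsq
    refine h2.trans ?_
    have h3 : GG R a b ≤ ∑ b' ∈ Ioc 0 (N / a ^ 2), if a ^ 2 * b' = n then GG R a b' else 0 := by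
      have := single_le_sum (f := fun b' : ℕ => if a ^ 2 * b' = n then GG R a b' else 0)
        (s := Ioc 0 (N / a ^ 2)) (fun i _ => by
          split_ifs
          · exact GG_nonneg R a i
          · exact le_rfl) (mem_Ioc.2 ⟨hb, hbN⟩)
      simp only [hab, if_true] at this
      exact this
    refine h3.trans ?_
    exact single_le_sum (f := fun a' : ℕ => ∑ b' ∈ Ioc 0 (N / a' ^ 2),
      if a' ^ 2 * b' = n then GG R a' b' else 0) (s := Ioc A N) (fun i _ =>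
        sum_nonneg fun j _ => by
          split_ifs
          · exact GG_nonneg R i j
          · exact le_rfl) (mem_Ioc.2 ⟨hAa, haN⟩)
  refine (sum_le_sum h1).trans ?_
  rw [sum_comm]
  refine sum_le_sum fun a _ => ?_
  rw [sum_comm]
  refine sum_le_sum fun b _ => ?_
  rw [sum_ite_eq]
  split_ifs
  · exact le_rfl
  · exact GG_nonneg R a b

theorem cA_part (C : ℝ) (hC : ∀ (Z : ℕ) (y : ℝ), 0 ≤ y → y ≤ Z →
    QQ lp Z y ≤ (1 + 7 * 1) * lp y + C) (hC0 : 0 < C) (N R a v : ℕ) (hR : 0 < R) (ha : 0 < a)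
    (hv : v ≤ a) :
    ∑ b ∈ Ioc 0 (N / a ^ 2), cA lp ((v : ℝ) / R * b) b ^ 2 ≤
      (N * (8 * lp ((N : ℝ) / R) + C) + 4 * ((N : ℝ) / R * lp ((N : ℝ) / R)) ^ 2) / (a : ℝ) ^ 2 := by
  have hR' : (0 : ℝ) < R := by exact_mod_cast hR
  have ha' : (0 : ℝ) < a := by exact_mod_cast ha
  have ha1 : (1 : ℝ) ≤ a := by exact_mod_cast ha
  have hva : (v : ℝ) ≤ a := by exact_mod_cast hv
  set M := (N : ℝ) / R with hM
  have hM0 : 0 ≤ M := by positivity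
  set Y := N / a ^ 2 with hY
  have hYle : (Y : ℝ) ≤ N / (a : ℝ) ^ 2 := by
    rw [hY]
    refine Nat.cast_div_le.trans ?_
    push_cast
    exact le_rfl
  set Z := ⌈M / a⌉₊ with hZ
  have hcY : (v : ℝ) / R * Y ≤ M / a := by
    calc (v : ℝ) / R * Y ≤ a / R * (N / (a : ℝ) ^ 2) := by gcongr
      _ = M / a := by rw [hM]; field_simp
  have hcYZ : (v : ℝ) / R * Y ≤ Z := hcY.trans (Nat.le_ceil _)
  have hvar := varcut lp (fun x y _ h => lp_mono x y h) lp_zero ((v : ℝ) / R) (by positivity) Y Z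
    hcYZ
  have hMa : M / a ≤ M := div_le_self hM0 ha1
  have hL0 : 0 ≤ lp M := lp_nonneg M
  have hQ : ∀ n ∈ Ioc 0 Y, QQ lp Z ((v : ℝ) / R * n) ≤ 8 * lp M + C := by
    intro n hn
    rw [mem_Ioc] at hn
    have hnY : (n : ℝ) ≤ Y := by exact_mod_cast hn.2
    have h1 : (v : ℝ) / R * n ≤ (v : ℝ) / R * Y := by gcongr
    have h2 := hC Z ((v : ℝ) / R * n) (by positivity) (h1.trans hcYZ)
    have h3 : lp ((v : ℝ) / R * n) ≤ lp M := lp_mono _ _ ((h1.trans hcY).trans hMa)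
    linarith
  have h1 : ∑ n ∈ Ioc 0 Y, QQ lp Z ((v : ℝ) / R * n) ≤ N / (a : ℝ) ^ 2 * (8 * lp M + C) := by
    refine (sum_le_sum hQ).trans ?_
    rw [sum_const, Nat.card_Ioc, nsmul_eq_mul, Nat.sub_zero]
    gcongr
  have h2 : (Z : ℝ) ^ 2 * lp ((v : ℝ) / R * Y) ^ 2 ≤ 4 * (M * lp M) ^ 2 / (a : ℝ) ^ 2 := by
    have hl1 : lp ((v : ℝ) / R * Y) ≤ lp (M / a) := lp_mono _ _ hcY
    have hl2 : lp (M / a) ≤ lp M := lp_mono _ _ hMa
    rcases le_or_gt (M / a) 1 with h | h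
    · have h0 : lp ((v : ℝ) / R * Y) = 0 := lp_zero _ (hcY.trans h)
      rw [h0]
      have : 0 ≤ 4 * (M * lp M) ^ 2 / (a : ℝ) ^ 2 := by positivity
      simpa using this
    · have hZ2 : (Z : ℝ) ≤ 2 * (M / a) := by
        have := Nat.ceil_lt_add_one (show 0 ≤ M / a by positivity)
        linarith
      have hl3 : lp ((v : ℝ) / R * Y) ≤ lp M := hl1.trans hl2
      calc (Z : ℝ) ^ 2 * lp ((v : ℝ) / R * Y) ^ 2 ≤ (2 * (M / a)) ^ 2 * lp M ^ 2 := by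
            gcongr
            exact lp_nonneg _
        _ = _ := by ring
  refine hvar.trans ((add_le_add h1 h2).trans (le_of_eq ?_))
  ring

theorem part_large (ε : ℝ) (hε : 0 < ε) : ∃ (A : ℕ) (C : ℝ), 0 < C ∧ ∀ N R : ℕ, 1 ≤ R → R ≤ N →
    ∑ n ∈ (Ioc 0 N).filter (fun n => A ^ 2 < n / rd n), VV R n ^ 2 ≤
      ε * (N * (8 * lp ((N : ℝ) / R) + C) + 4 * ((N : ℝ) / R * lp ((N : ℝ) / R)) ^ 2) := by
  obtain ⟨C, hC0, hC⟩ := Q1 1 one_pos le_rfl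
  obtain ⟨A, hA⟩ := tau_tail ε hε
  refine ⟨A, C, hC0, fun N R hR hRN => ?_⟩
  refine (sum_large N R A).trans ?_
  set B := N * (8 * lp ((N : ℝ) / R) + C) + 4 * ((N : ℝ) / R * lp ((N : ℝ) / R)) ^ 2 with hB
  have hL0 : 0 ≤ lp ((N : ℝ) / R) := lp_nonneg _
  have hB0 : 0 ≤ B := by positivity
  have h1 : ∀ a ∈ Ioc A N, ∑ b ∈ Ioc 0 (N / a ^ 2), GG R a b ≤
      (a.divisors.card : ℝ) ^ 2 / (a : ℝ) ^ 2 * B := by
    intro a ha
    rw [mem_Ioc] at ha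
    have ha0 : 0 < a := by omega
    unfold GG
    rw [← mul_sum, sum_comm]
    have h2 : ∀ v ∈ a.divisors, ∑ b ∈ Ioc 0 (N / a ^ 2), cA lp ((v : ℝ) / R * b) b ^ 2 ≤
        B / (a : ℝ) ^ 2 := fun v hv =>
      cA_part C hC hC0 N R a v hR ha0 (Nat.le_of_dvd ha0 (Nat.dvd_of_mem_divisors hv))
    have h3 := sum_le_sum h2
    rw [sum_const, nsmul_eq_mul] at h3
    calc _ ≤ (a.divisors.card : ℝ) * (a.divisors.card * (B / (a : ℝ) ^ 2)) := by gcongr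
      _ = _ := by ring
  refine (sum_le_sum h1).trans ?_
  rw [← sum_mul]
  exact mul_le_mul_of_nonneg_right (hA N) hB0

theorem part_small (ε : ℝ) (hε : 0 < ε) (hε1 : ε ≤ 1) (T : ℕ) : ∃ C : ℝ, 0 < C ∧ ∀ N R : ℕ,
    1 ≤ R → R ≤ N →
    ∑ n ∈ (Ioc 0 N).filter (fun n => n / rd n ≤ T), VV R n ^ 2 ≤
      (1 + 16 * ε) * (N * lp ((N : ℝ) / R)) + C * (N + ((N : ℝ) / R * lp ((N : ℝ) / R)) ^ 2) := by
  obtain ⟨C1, hC1, hQ1⟩ := Q1 ε hε hε1
  set w := (1 + 1 / ε) * (8 * (T + 1)) with hw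
  have hw0 : 0 < w := by positivity
  set δ := Real.sqrt (ε / w) with hδ
  have hδ0 : 0 < δ := Real.sqrt_pos.2 (by positivity)
  have hδ2 : δ ^ 2 = ε / w := Real.sq_sqrt (by positivity)
  have hall : ∀ t : ℕ, ∃ C : ℝ, 0 < C ∧ (1 ≤ t → ∀ (Z : ℕ) (y : ℝ), 0 ≤ y → y ≤ Z →
      QQ (lt t) Z y ≤ 8 * δ ^ 2 * lp y + C) := by
    intro t
    rcases Nat.lt_or_ge t 1 with h | h
    · exact ⟨1, one_pos, fun h' => by omega⟩
    · obtain ⟨C, hC, hh⟩ := Q2 (t : ℝ) (by exact_mod_cast h) δ hδ0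
      exact ⟨C, hC, fun _ => hh⟩
  choose Ct hCt0 hCt using hall
  set C2 := ∑ t ∈ Ioc 0 T, Ct t with hC2
  have hC20 : 0 ≤ C2 := sum_nonneg fun t _ => (hCt0 t).le
  refine ⟨2 * C1 + 8 + (1 + 1 / ε) * (T * (C2 + 4)), by positivity, fun N R hR hRN => ?_⟩
  have hR' : (0 : ℝ) < R := by exact_mod_cast hR
  have hRN' : (R : ℝ) ≤ N := by exact_mod_cast hRN
  set M := (N : ℝ) / R with hM
  have hM1 : 1 ≤ M := by rw [hM, le_div_iff₀ hR']; linarith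
  set L := lp M with hL
  have hL0 : 0 ≤ L := lp_nonneg M
  set Z := ⌈M⌉₊ with hZ
  have hZ2 : (Z : ℝ) ≤ 2 * M := by
    have := Nat.ceil_lt_add_one (show 0 ≤ M by linarith)
    linarith
  have hcN : 1 / (R : ℝ) * N = M := by rw [hM]; ring
  have hcNZ : 1 / (R : ℝ) * N ≤ Z := by rw [hcN]; exact Nat.le_ceil _
  have hcn : ∀ n ∈ Ioc 0 N, 1 / (R : ℝ) * n ≤ M := by
    intro n hn
    rw [mem_Ioc] at hn
    have : (n : ℝ) ≤ N := by exact_mod_cast hn.2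
    rw [← hcN]
    gcongr
  -- main part
  have hv1 := varcut lp (fun x y _ h => lp_mono x y h) lp_zero (1 / (R : ℝ)) (by positivity) N Z
    hcNZ
  rw [hcN] at hv1
  have hq1 : ∑ n ∈ Ioc 0 N, QQ lp Z (1 / R * n) ≤ N * ((1 + 7 * ε) * L + C1) := by
    have : ∀ n ∈ Ioc 0 N, QQ lp Z (1 / R * n) ≤ (1 + 7 * ε) * L + C1 := by
      intro n hn
      have h1 := hcn n hn
      have h2 := hQ1 Z (1 / R * n) (by positivity) (h1.trans (Nat.le_ceil _))
      have h3 : lp (1 / (R : ℝ) * n) ≤ L := lp_mono _ _ h1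
      have h4 : (1 + 7 * ε) * lp (1 / (R : ℝ) * n) ≤ (1 + 7 * ε) * L := by gcongr
      linarith
    refine (sum_le_sum this).trans ?_
    rw [sum_const, Nat.card_Ioc, nsmul_eq_mul, Nat.sub_zero]
  have hz1 : (Z : ℝ) ^ 2 * L ^ 2 ≤ 4 * (M * L) ^ 2 := by
    calc (Z : ℝ) ^ 2 * L ^ 2 ≤ (2 * M) ^ 2 * L ^ 2 := by gcongr
      _ = _ := by ring
  have hmain : ∑ n ∈ Ioc 0 N, cA lp (1 / R * n) n ^ 2 ≤
      N * ((1 + 7 * ε) * L + C1) + 4 * (M * L) ^ 2 := by linarith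
  -- secondary parts
  have hsec : ∀ t ∈ Ioc 0 T, ∑ n ∈ Ioc 0 N, cA (lt t) (1 / R * n) n ^ 2 ≤
      N * (8 * δ ^ 2 * L + C2) + 4 * (M * L) ^ 2 := by
    intro t ht
    have ht1 : 1 ≤ t := (mem_Ioc.1 ht).1
    have ht1' : (1 : ℝ) ≤ t := by exact_mod_cast ht1
    have hv2 := varcut (lt t) (lt_mono t ht1') (lt_zero t ht1') (1 / (R : ℝ)) (by positivity) N Z
      hcNZ
    rw [hcN] at hv2
    have hCt2 : Ct t ≤ C2 := single_le_sum (fun i _ => (hCt0 i).le) ht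
    have hq2 : ∑ n ∈ Ioc 0 N, QQ (lt t) Z (1 / R * n) ≤ N * (8 * δ ^ 2 * L + C2) := by
      have : ∀ n ∈ Ioc 0 N, QQ (lt t) Z (1 / R * n) ≤ 8 * δ ^ 2 * L + C2 := by
        intro n hn
        have h1 := hcn n hn
        have h2 := hCt t ht1 Z (1 / R * n) (by positivity) (h1.trans (Nat.le_ceil _))
        have h3 : lp (1 / (R : ℝ) * n) ≤ L := lp_mono _ _ h1
        have h4 : 8 * δ ^ 2 * lp (1 / (R : ℝ) * n) ≤ 8 * δ ^ 2 * L := by gcongr
        linarith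
      refine (sum_le_sum this).trans ?_
      rw [sum_const, Nat.card_Ioc, nsmul_eq_mul, Nat.sub_zero]
    have hlt1 : lt t M ≤ L := by
      unfold lt
      have := lp_nonneg (M / t)
      linarith
    have hlt0 : 0 ≤ lt t M := by
      have := lt_mono t ht1' 0 M le_rfl (by linarith)
      rwa [lt_zero t ht1' 0 (by norm_num)] at this
    have hz2 : (Z : ℝ) ^ 2 * lt t M ^ 2 ≤ 4 * (M * L) ^ 2 := by
      calc (Z : ℝ) ^ 2 * lt t M ^ 2 ≤ (2 * M) ^ 2 * L ^ 2 := by gcongr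
        _ = _ := by ring
    linarith
  have htot : ∑ n ∈ (Ioc 0 N).filter (fun n => n / rd n ≤ T), VV R n ^ 2 ≤
      (1 + ε) * ∑ n ∈ Ioc 0 N, cA lp (1 / R * n) n ^ 2 +
      (1 + 1 / ε) * ∑ t ∈ Ioc 0 T, ∑ n ∈ Ioc 0 N, cA (lt t) (1 / R * n) n ^ 2 := by
    rw [sum_comm (s := Ioc 0 T), mul_sum, mul_sum, ← sum_add_distrib]
    calc _ ≤ ∑ n ∈ (Ioc 0 N).filter (fun n => n / rd n ≤ T),
          ((1 + ε) * cA lp (1 / R * n) n ^ 2 +
            (1 + 1 / ε) * ∑ t ∈ Ioc 0 T, cA (lt t) (1 / R * n) n ^ 2) := by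
          refine sum_le_sum fun n hn => ?_
          rw [mem_filter, mem_Ioc] at hn
          exact VV_small R n T hR hn.1.1 hn.2 ε hε
      _ ≤ _ := by
          refine sum_le_sum_of_subset_of_nonneg (filter_subset _ _) fun n _ _ => ?_
          have : 0 ≤ ∑ t ∈ Ioc 0 T, cA (lt t) (1 / R * n) n ^ 2 :=
            sum_nonneg fun _ _ => sq_nonneg _
          positivity
  have hs2 := sum_le_sum hsec
  rw [sum_const, Nat.card_Ioc, nsmul_eq_mul, Nat.sub_zero] at hs2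
  have hN0 : (0 : ℝ) ≤ N := Nat.cast_nonneg _
  have hP0 : 0 ≤ (M * L) ^ 2 := sq_nonneg _
  have hT0 : (0 : ℝ) ≤ T := Nat.cast_nonneg _
  -- the constant in front of `N L`
  have hk : (1 + 1 / ε) * (T * (N * (8 * δ ^ 2 * L))) ≤ ε * (N * L) := by
    rw [hδ2]
    have h1 : (1 + 1 / ε) * (T * (N * (8 * (ε / w) * L))) =
        (((1 + 1 / ε) * (8 * T)) / w) * (ε * (N * L)) := by ring
    rw [h1]
    have h2 : ((1 + 1 / ε) * (8 * T)) / w ≤ 1 := by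
      rw [div_le_one hw0, hw]
      gcongr
      linarith
    have h3 : 0 ≤ ε * (N * L) := by positivity
    calc _ ≤ 1 * (ε * (N * L)) := by gcongr
      _ = _ := one_mul _
  have hNL : 0 ≤ N * L := by positivity
  have h1 : (1 + ε) * ∑ n ∈ Ioc 0 N, cA lp (1 / R * n) n ^ 2 ≤
      (1 + 15 * ε) * (N * L) + 2 * C1 * N + 8 * (M * L) ^ 2 := by
    calc _ ≤ (1 + ε) * (N * ((1 + 7 * ε) * L + C1) + 4 * (M * L) ^ 2) := by gcongr
      _ = ((1 + ε) * (1 + 7 * ε)) * (N * L) + (1 + ε) * C1 * N + (1 + ε) * 4 * (M * L) ^ 2 := by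
          ring
      _ ≤ (1 + 15 * ε) * (N * L) + 2 * C1 * N + 8 * (M * L) ^ 2 := by
          gcongr
          · nlinarith
          · linarith
          · linarith
  have h2 : (1 + 1 / ε) * ∑ t ∈ Ioc 0 T, ∑ n ∈ Ioc 0 N, cA (lt t) (1 / R * n) n ^ 2 ≤
      ε * (N * L) + (1 + 1 / ε) * (T * C2) * N + (1 + 1 / ε) * (T * 4) * (M * L) ^ 2 := by
    calc _ ≤ (1 + 1 / ε) * (T * (N * (8 * δ ^ 2 * L + C2) + 4 * (M * L) ^ 2)) := by gcongr
      _ = (1 + 1 / ε) * (T * (N * (8 * δ ^ 2 * L))) + (1 + 1 / ε) * (T * C2) * N +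
          (1 + 1 / ε) * (T * 4) * (M * L) ^ 2 := by ring
      _ ≤ _ := by gcongr
  have h3 : (2 * C1 + 8 + (1 + 1 / ε) * (T * (C2 + 4))) * (N + (M * L) ^ 2) =
      2 * C1 * N + 8 * (M * L) ^ 2 + (1 + 1 / ε) * (T * C2) * N +
        (1 + 1 / ε) * (T * 4) * (M * L) ^ 2 + (2 * C1 * (M * L) ^ 2 + 8 * N +
        (1 + 1 / ε) * (T * C2) * (M * L) ^ 2 + (1 + 1 / ε) * (T * 4) * N) := by ring
  have h4 : 0 ≤ 2 * C1 * (M * L) ^ 2 + 8 * N +
        (1 + 1 / ε) * (T * C2) * (M * L) ^ 2 + (1 + 1 / ε) * (T * 4) * N := by positivity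
  have h5 : (1 + 16 * ε) * (N * L) = (1 + 15 * ε) * (N * L) + ε * (N * L) := by ring
  rw [h3, h5]
  linarith

theorem normB (ε : ℝ) (hε : 0 < ε) (hε1 : ε ≤ 1) : ∃ C : ℝ, 0 < C ∧ ∀ N R : ℕ, 1 ≤ R → R ≤ N →
    ∑ n ∈ Ioc 0 N, (ArithmeticFunction.vonMangoldt n - AA R n) ^ 2 ≤
      (1 + 24 * ε) * (N * Real.log ((N : ℝ) / R)) +
        C * (N + ((N : ℝ) / R * Real.log ((N : ℝ) / R)) ^ 2) := by
  obtain ⟨A, C1, hC1, h1⟩ := part_large ε hε
  obtain ⟨C2, hC2, h2⟩ := part_small ε hε hε1 (A ^ 2)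
  refine ⟨4 + C1 + C2 + 4, by positivity, fun N R hR hRN => ?_⟩
  have hR' : (0 : ℝ) < R := by exact_mod_cast hR
  have hRN' : (R : ℝ) ≤ N := by exact_mod_cast hRN
  have hN0 : (0 : ℝ) ≤ N := Nat.cast_nonneg _
  have hM1 : 1 ≤ (N : ℝ) / R := by rw [le_div_iff₀ hR']; linarith
  have ha := h1 N R hR hRN
  have hb := h2 N R hR hRN
  rw [lp_log hM1] at ha hb
  set L := Real.log ((N : ℝ) / R) with hL
  have hL0 : 0 ≤ L := Real.log_nonneg hM1
  set P := ((N : ℝ) / R * L) ^ 2 with hP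
  have hP0 : 0 ≤ P := sq_nonneg _
  have hsplit : ∑ n ∈ Ioc 0 N, VV R n ^ 2 =
      ∑ n ∈ (Ioc 0 N).filter (fun n => n / rd n ≤ A ^ 2), VV R n ^ 2 +
      ∑ n ∈ (Ioc 0 N).filter (fun n => A ^ 2 < n / rd n), VV R n ^ 2 := by
    rw [← sum_filter_add_sum_filter_not (Ioc 0 N) (fun n => n / rd n ≤ A ^ 2)]
    simp only [not_le]
  have hlogR : (Real.log R) ^ 2 ≤ 4 * N := by
    have hlR : 0 ≤ Real.log R := Real.log_natCast_nonneg R
    have e : Real.log R = 2 * Real.log (Real.sqrt R) := by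
      rw [Real.log_sqrt hR'.le]; ring
    have hs : 0 < Real.sqrt R := Real.sqrt_pos.2 hR'
    have h3 : Real.log (Real.sqrt R) ≤ Real.sqrt R := (Real.log_le_sub_one_of_pos hs).trans (by linarith)
    have h4 : Real.log R ≤ 2 * Real.sqrt R := by rw [e]; linarith
    calc (Real.log R) ^ 2 ≤ (2 * Real.sqrt R) ^ 2 := by gcongr
      _ = 4 * (R : ℝ) := by rw [mul_pow, Real.sq_sqrt hR'.le]; norm_num
      _ ≤ 4 * (N : ℝ) := by linarith
  have hpt : ∀ n ∈ Ioc 0 N, (ArithmeticFunction.vonMangoldt n - AA R n) ^ 2 ≤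
      VV R n ^ 2 + (if n = 1 then 4 * (N : ℝ) else 0) := by
    intro n hn
    rw [mem_Ioc] at hn
    by_cases h : n = 1
    · subst h
      rw [if_pos rfl, AA_cA R 1 one_pos]
      have e : ArithmeticFunction.vonMangoldt 1 - cA lp R 1 = - Real.log R := by
        unfold cA
        rw [Nat.divisors_one, sum_singleton]
        have h1R : (1 : ℝ) ≤ R := by exact_mod_cast hR
        simp [mu, lp_log h1R]
      rw [e, neg_sq]
      have := sq_nonneg (VV R 1)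
      linarith
    · rw [if_neg h, vm_sub_AA R n hR (by omega), neg_sq]
      linarith
  have hsum := sum_le_sum hpt
  rw [sum_add_distrib, sum_ite_eq'] at hsum
  have hN1 : 1 ∈ Ioc 0 N := mem_Ioc.2 ⟨one_pos, hR.trans hRN⟩
  rw [if_pos hN1, hsplit] at hsum
  have e1 : ε * (N * (8 * L + C1) + 4 * P) = 8 * ε * (N * L) + ε * C1 * N + 4 * ε * P := by ring
  rw [e1] at ha
  have h5 : ε * C1 * N ≤ 1 * C1 * N := by gcongr
  have h6 : 4 * ε * P ≤ 4 * 1 * P := by gcongr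
  have h7 : 0 ≤ C1 * P := by positivity
  have h8 : (0:ℝ) ≤ 4 * N := by positivity
  nlinarith

end

end Pool.Agent.E8helper88
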