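import Pool.Agent.E8helper88.Scale

set_option autoImplicit false

open Finset

namespace Pool.Agent.E8helper88

noncomputable section

theorem params (δ : ℝ) (hδ : 0 < δ) (hδ1 : δ ≤ 1 / 16) : ∃ x0 : ℕ, ∀ K x : ℕ, x0 ≤ x → 1 ≤ K →
    K ≤ x → (x : ℝ) ^ (1 + 16 * δ) ≤ 16 * (K : ℝ) ^ 2 → ∃ R Q : ℕ, 1 ≤ Q ∧ Q ≤ R ∧
      (∀ N : ℕ, x ≤ 2 * N → N ≤ x → R ≤ N ∧ ((N : ℝ) / R * Real.log N) ^ 2 ≤ N ∧
        (Q : ℝ) * R * (1 + Real.log N) ^ 4 ≤ N ∧ ((Q : ℝ) * (1 + Real.log N) ^ 3) ^ 2 ≤ N) ∧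
      Real.log K - 2 * δ * Real.log x - Real.log 2 ≤ Real.log R ∧
      Real.log Q ≤ Real.log 2 + (1 + δ) * Real.log x - Real.log K ∧
      (x : ℝ) / Q + R ≤ 2 * (K * (x : ℝ) ^ (-δ)) := by
  obtain ⟨x0, hx0⟩ := growth 6 δ 128 hδ (by norm_num)
  refine ⟨max x0 2, fun K x hx hK hKx hcond => ?_⟩
  have hxx0 : x0 ≤ x := (le_max_left _ _).trans hx
  have hx2 : 2 ≤ x := (le_max_right _ _).trans hx
  have hx1 : (1 : ℝ) ≤ x := by exact_mod_cast (by omega : 1 ≤ x)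
  have hxpos : (0 : ℝ) < x := by linarith
  have hK0 : (0 : ℝ) < K := by exact_mod_cast hK
  have hKx' : (K : ℝ) ≤ x := by exact_mod_cast hKx
  have hgr := hx0 x hxx0
  have hl : 0 ≤ Real.log x := Real.log_nonneg hx1
  set ℓ := 1 + Real.log x with hℓ
  have hℓ1 : 1 ≤ ℓ := by linarith
  have hpw : ∀ j : ℕ, 1 ≤ ℓ ^ j := fun j => one_le_pow₀ hℓ1
  -- powers of x
  have hxδ : 128 ≤ (x : ℝ) ^ δ := by
    have := hpw 6
    linarith
  have rp : ∀ s t : ℝ, (x : ℝ) ^ (s + t) = (x : ℝ) ^ s * (x : ℝ) ^ t := fun s t =>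
    Real.rpow_add hxpos s t
  have mono : ∀ s t : ℝ, s ≤ t → (x : ℝ) ^ s ≤ (x : ℝ) ^ t := fun s t h =>
    Real.rpow_le_rpow_of_exponent_le hx1 h
  have pos : ∀ s : ℝ, 0 < (x : ℝ) ^ s := fun s => Real.rpow_pos_of_pos hxpos s
  -- lower bound for K
  have hKlow : (x : ℝ) ^ (1 / 2 + 8 * δ) ≤ 4 * K := by
    have h1 : ((x : ℝ) ^ (1 / 2 + 8 * δ)) ^ 2 ≤ (4 * (K : ℝ)) ^ 2 := by
      have e : ((x : ℝ) ^ (1 / 2 + 8 * δ)) ^ 2 = (x : ℝ) ^ (1 + 16 * δ) := by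
        rw [sq, ← rp]; congr 1; ring
      rw [e]
      calc _ ≤ 16 * (K : ℝ) ^ 2 := hcond
        _ = _ := by ring
    exact (pow_le_pow_iff_left₀ (pos _).le (by positivity) (by norm_num)).1 h1
  set a := (K : ℝ) * (x : ℝ) ^ (-(2 * δ)) with ha
  set c := (x : ℝ) ^ (1 + δ) / K with hc
  have ha0 : 0 < a := mul_pos hK0 (pos _)
  have hc0 : 0 < c := div_pos (pos _) hK0
  have ha2 : 2 ≤ a := by
    have h1 : (x : ℝ) ^ (1 / 2 + 8 * δ) * (x : ℝ) ^ (-(2 * δ)) ≤ 4 * a := by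
      rw [ha]
      calc _ ≤ 4 * K * (x : ℝ) ^ (-(2 * δ)) := by
            exact mul_le_mul_of_nonneg_right hKlow (pos _).le
        _ = _ := by ring
    rw [← rp] at h1
    have h2 : (x : ℝ) ^ δ ≤ (x : ℝ) ^ (1 / 2 + 8 * δ + -(2 * δ)) := mono _ _ (by linarith)
    linarith
  have hc1 : 1 ≤ c := by
    rw [hc, le_div_iff₀ hK0, one_mul]
    calc (K : ℝ) ≤ x := hKx'
      _ = (x : ℝ) ^ (1 : ℝ) := (Real.rpow_one _).symm
      _ ≤ _ := mono _ _ (by linarith)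
  set R := ⌊a⌋₊ with hR
  set Q := ⌈c⌉₊ with hQ
  have hRa : (R : ℝ) ≤ a := Nat.floor_le ha0.le
  have hRa2 : a / 2 ≤ R := by
    have := Nat.lt_floor_add_one a
    linarith
  have hR0 : (0 : ℝ) < R := by linarith
  have hcQ : c ≤ Q := Nat.le_ceil c
  have hQc : (Q : ℝ) ≤ 2 * c := by
    have := Nat.ceil_lt_add_one hc0.le
    linarith
  have hQ0 : (0 : ℝ) < Q := by linarith
  have hK2 : (x : ℝ) ^ (1 + 16 * δ) ≤ 16 * (K : ℝ) ^ 2 := hcond
  -- Q ≤ R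
  have hQR : (Q : ℝ) ≤ R := by
    have h1 : 4 * c ≤ a := by
      rw [hc, ha, mul_div_assoc', div_le_iff₀ hK0]
      have h2 : 64 * (x : ℝ) ^ (1 + 3 * δ) ≤ (x : ℝ) ^ (1 + 16 * δ) := by
        have e : (x : ℝ) ^ (1 + 16 * δ) = (x : ℝ) ^ (1 + 3 * δ) * (x : ℝ) ^ (13 * δ) := by
          rw [← rp]; congr 1; ring
        rw [e]
        have h3 : (x : ℝ) ^ δ ≤ (x : ℝ) ^ (13 * δ) := mono _ _ (by linarith)
        nlinarith [pos (1 + 3 * δ)]
      have h4 : 4 * (x : ℝ) ^ (1 + 3 * δ) ≤ (K : ℝ) ^ 2 := by linarith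
      have e2 : (x : ℝ) ^ (1 + δ) = (x : ℝ) ^ (1 + 3 * δ) * (x : ℝ) ^ (-(2 * δ)) := by
        rw [← rp]; congr 1; ring
      rw [e2]
      calc 4 * ((x : ℝ) ^ (1 + 3 * δ) * (x : ℝ) ^ (-(2 * δ))) =
            (4 * (x : ℝ) ^ (1 + 3 * δ)) * (x : ℝ) ^ (-(2 * δ)) := by ring
        _ ≤ (K : ℝ) ^ 2 * (x : ℝ) ^ (-(2 * δ)) := mul_le_mul_of_nonneg_right h4 (pos _).le
        _ = _ := by ring
    linarith
  have hQ1 : 1 ≤ Q := by
    have : (0 : ℝ) < Q := hQ0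
    exact_mod_cast this
  refine ⟨R, Q, hQ1, by exact_mod_cast hQR, ?_, ?_, ?_, ?_⟩
  · intro N hN1 hN2
    have hN1' : (x : ℝ) ≤ 2 * N := by exact_mod_cast hN1
    have hN2' : (N : ℝ) ≤ x := by exact_mod_cast hN2
    have hN0 : (0 : ℝ) < N := by linarith
    have hNn : 0 < N := by exact_mod_cast hN0
    have hlN : 0 ≤ Real.log N := Real.log_natCast_nonneg N
    have hlN2 : 1 + Real.log N ≤ ℓ := by
      have := Real.log_le_log hN0 hN2'
      linarith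
    have hlN3 : Real.log N ≤ ℓ := by linarith
    refine ⟨?_, ?_, ?_, ?_⟩
    · have h1 : a ≤ (x : ℝ) / 2 := by
        have h2 : a ≤ (x : ℝ) * (x : ℝ) ^ (-(2 * δ)) := by
          rw [ha]; exact mul_le_mul_of_nonneg_right hKx' (pos _).le
        have h3 : (x : ℝ) ^ (-(2 * δ)) ≤ 1 / 2 := by
          rw [Real.rpow_neg hxpos.le, ← one_div]
          apply one_div_le_one_div_of_le (by norm_num)
          have : (x : ℝ) ^ δ ≤ (x : ℝ) ^ (2 * δ) := mono _ _ (by linarith)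
          linarith
        nlinarith
      have : (R : ℝ) ≤ N := by linarith
      exact_mod_cast this
    · have h1 : (N : ℝ) / R ≤ 8 * (x : ℝ) ^ (1 / 2 - 6 * δ) := by
        rw [div_le_iff₀ hR0]
        have h2 : (x : ℝ) ≤ 4 * (x : ℝ) ^ (1 / 2 - 6 * δ) * a := by
          have e : (x : ℝ) = (x : ℝ) ^ (1 / 2 - 6 * δ) * ((x : ℝ) ^ (1 / 2 + 8 * δ) *
              (x : ℝ) ^ (-(2 * δ))) := by
            rw [← rp, ← rp]
            conv_lhs => rw [← Real.rpow_one (x : ℝ)]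
            congr 1
            ring
          calc (x : ℝ) = (x : ℝ) ^ (1 / 2 - 6 * δ) * ((x : ℝ) ^ (1 / 2 + 8 * δ) *
              (x : ℝ) ^ (-(2 * δ))) := e
            _ ≤ (x : ℝ) ^ (1 / 2 - 6 * δ) * ((4 * K) * (x : ℝ) ^ (-(2 * δ))) := by
                apply mul_le_mul_of_nonneg_left _ (pos _).le
                exact mul_le_mul_of_nonneg_right hKlow (pos _).le
            _ = _ := by rw [ha]; ring
        have h3 : 4 * (x : ℝ) ^ (1 / 2 - 6 * δ) * a ≤ 4 * (x : ℝ) ^ (1 / 2 - 6 * δ) * (2 * R) := by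
          apply mul_le_mul_of_nonneg_left _ (by have := pos (1 / 2 - 6 * δ); positivity)
          linarith
        linarith
      have h4 : 0 ≤ (N : ℝ) / R := by positivity
      calc ((N : ℝ) / R * Real.log N) ^ 2 ≤ (8 * (x : ℝ) ^ (1 / 2 - 6 * δ) * ℓ) ^ 2 := by
            gcongr
        _ = (64 * ℓ ^ 2) * ((x : ℝ) ^ (1 / 2 - 6 * δ) * (x : ℝ) ^ (1 / 2 - 6 * δ)) := by ring
        _ = (64 * ℓ ^ 2) * (x : ℝ) ^ (1 - 12 * δ) := by
            rw [← rp]; congr 2; ring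
        _ ≤ ((x : ℝ) ^ δ / 2) * (x : ℝ) ^ (1 - 12 * δ) := by
            apply mul_le_mul_of_nonneg_right _ (pos _).le
            have : ℓ ^ 2 ≤ ℓ ^ 6 := pow_le_pow_right₀ hℓ1 (by norm_num)
            linarith
        _ = (x : ℝ) ^ (1 - 11 * δ) / 2 := by
            rw [div_mul_eq_mul_div, ← rp]; congr 2; ring
        _ ≤ (x : ℝ) ^ (1 : ℝ) / 2 := by
            have := mono (1 - 11 * δ) 1 (by linarith)
            linarith
        _ ≤ N := by rw [Real.rpow_one]; linarith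
    · calc (Q : ℝ) * R * (1 + Real.log N) ^ 4 ≤ (2 * c) * a * ℓ ^ 4 := by gcongr
        _ = 2 * ℓ ^ 4 * ((x : ℝ) ^ (1 + δ) * (x : ℝ) ^ (-(2 * δ))) := by
            rw [hc, ha]; field_simp
        _ = 2 * ℓ ^ 4 * (x : ℝ) ^ (1 - δ) := by rw [← rp]; congr 2; ring
        _ ≤ ((x : ℝ) ^ δ / 2) * (x : ℝ) ^ (1 - δ) := by
            apply mul_le_mul_of_nonneg_right _ (pos _).le
            have : ℓ ^ 4 ≤ ℓ ^ 6 := pow_le_pow_right₀ hℓ1 (by norm_num)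
            linarith
        _ = (x : ℝ) ^ (1 : ℝ) / 2 := by
            rw [div_mul_eq_mul_div, ← rp]; congr 2; ring
        _ ≤ N := by rw [Real.rpow_one]; linarith
    · have h1 : (Q : ℝ) ≤ 8 * (x : ℝ) ^ (1 / 2 - 7 * δ) := by
        refine hQc.trans ?_
        rw [hc, mul_div_assoc', div_le_iff₀ hK0]
        have e : (x : ℝ) ^ (1 + δ) = (x : ℝ) ^ (1 / 2 - 7 * δ) * (x : ℝ) ^ (1 / 2 + 8 * δ) := by
          rw [← rp]; congr 1; ring
        rw [e]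
        calc 2 * ((x : ℝ) ^ (1 / 2 - 7 * δ) * (x : ℝ) ^ (1 / 2 + 8 * δ)) ≤
              2 * ((x : ℝ) ^ (1 / 2 - 7 * δ) * (4 * K)) := by
              apply mul_le_mul_of_nonneg_left _ (by norm_num)
              exact mul_le_mul_of_nonneg_left hKlow (pos _).le
          _ = _ := by ring
      calc ((Q : ℝ) * (1 + Real.log N) ^ 3) ^ 2 ≤
            (8 * (x : ℝ) ^ (1 / 2 - 7 * δ) * ℓ ^ 3) ^ 2 := by gcongr
        _ = (64 * ℓ ^ 6) * ((x : ℝ) ^ (1 / 2 - 7 * δ) * (x : ℝ) ^ (1 / 2 - 7 * δ)) := by ring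
        _ = (64 * ℓ ^ 6) * (x : ℝ) ^ (1 - 14 * δ) := by
            rw [← rp]; congr 2; ring
        _ ≤ ((x : ℝ) ^ δ / 2) * (x : ℝ) ^ (1 - 14 * δ) := by
            apply mul_le_mul_of_nonneg_right _ (pos _).le
            linarith
        _ = (x : ℝ) ^ (1 - 13 * δ) / 2 := by
            rw [div_mul_eq_mul_div, ← rp]; congr 2; ring
        _ ≤ (x : ℝ) ^ (1 : ℝ) / 2 := by
            have := mono (1 - 13 * δ) 1 (by linarith)
            linarith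
        _ ≤ N := by rw [Real.rpow_one]; linarith
  · have h1 : Real.log (a / 2) ≤ Real.log R := Real.log_le_log (by positivity) hRa2
    rw [Real.log_div ha0.ne' (by norm_num), ha, Real.log_mul hK0.ne' (pos _).ne',
      Real.log_rpow hxpos] at h1
    linarith
  · have h1 : Real.log Q ≤ Real.log (2 * c) := Real.log_le_log hQ0 hQc
    rw [Real.log_mul (by norm_num) hc0.ne', hc, Real.log_div (pos _).ne' hK0.ne',
      Real.log_rpow hxpos] at h1
    linarith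
  · have h1 : (x : ℝ) / Q ≤ K * (x : ℝ) ^ (-δ) := by
      calc (x : ℝ) / Q ≤ x / c := by gcongr
        _ = K * (x : ℝ) ^ (-δ) := by
            have e : (x : ℝ) ^ (1 + δ) * (x : ℝ) ^ (-δ) = x := by
              rw [← rp]
              conv_rhs => rw [← Real.rpow_one (x : ℝ)]
              congr 1
              ring
            rw [hc, div_div_eq_mul_div, div_eq_iff (pos _).ne']
            calc (x : ℝ) * K = ((x : ℝ) ^ (1 + δ) * (x : ℝ) ^ (-δ)) * K := by rw [e]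
              _ = _ := by ring
    have h2 : (R : ℝ) ≤ K * (x : ℝ) ^ (-δ) := by
      refine hRa.trans ?_
      rw [ha]
      exact mul_le_mul_of_nonneg_left (mono _ _ (by linarith)) hK0.le
    linarith

end

end Pool.Agent.E8helper88
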