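import Pool.Agent.E8helper88.Sup

set_option autoImplicit false

open Finset

namespace Pool.Agent.E8helper88

noncomputable section

theorem orthZ (L : ℕ) (hL : 0 < L) (k : ℤ) :
    ∑ c ∈ range L, ee ((c : ℝ) * ((k : ℝ) / L)) = if (L : ℤ) ∣ k then (L : ℂ) else 0 := by
  have hL' : (0 : ℝ) < L := by exact_mod_cast hL
  split_ifs with h
  · obtain ⟨m, rfl⟩ := h
    have : ∀ c ∈ range L, ee ((c : ℝ) * ((((L : ℤ) * m : ℤ) : ℝ) / L)) = 1 := by
      intro c _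
      have e1 : (c : ℝ) * ((((L : ℤ) * m : ℤ) : ℝ) / L) = ((c * m : ℤ) : ℝ) := by
        push_cast
        field_simp
      rw [e1, ee_int]
    rw [sum_congr rfl this]
    simp
  · have hne : ee ((k : ℝ) / L) ≠ 1 := by
      intro h1
      unfold ee at h1
      rw [Complex.exp_eq_one_iff] at h1
      obtain ⟨j, hj⟩ := h1
      have h2 : ((k : ℝ) / L : ℝ) = j := by
        have h3 : (2 * Real.pi * ((k : ℝ) / L) : ℝ) = (2 * Real.pi * j : ℝ) := by
          have h4 : Complex.I * ((2 * Real.pi * ((k : ℝ) / L) : ℝ) : ℂ) =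
              Complex.I * ((2 * Real.pi * j : ℝ) : ℂ) := by
            rw [hj]; push_cast; ring
          have h5 := mul_left_cancel₀ Complex.I_ne_zero h4
          exact_mod_cast h5
        exact mul_left_cancel₀ (by positivity) h3
      rw [div_eq_iff hL'.ne'] at h2
      have h3 : k = j * L := by exact_mod_cast h2
      exact h ⟨j, by rw [h3]; ring⟩
    have h1 : ∀ c ∈ range L, ee ((c : ℝ) * ((k : ℝ) / L)) = ee ((k : ℝ) / L) ^ c := fun c _ =>
      ee_nat_mul c _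
    rw [sum_congr rfl h1, geom_sum_eq hne, ← ee_nat_mul]
    have : (L : ℝ) * ((k : ℝ) / L) = (k : ℤ) := by field_simp
    rw [this, ee_int, sub_self, zero_div]

theorem conj_ee (x : ℝ) : (starRingEnd ℂ) (ee x) = ee (-x) := by
  unfold ee
  rw [← Complex.exp_conj]
  congr 1
  rw [map_mul, Complex.conj_I, Complex.conj_ofReal]
  push_cast
  ring

/-- Parseval on `ℤ/L`. -/
theorem parseval (L : ℕ) (hL : 0 < L) (s : Finset ℕ)
    (hs : ∀ m ∈ s, ∀ n ∈ s, (L : ℤ) ∣ (m : ℤ) - n → m = n) (a : ℕ → ℂ) :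
    ∑ c ∈ range L, ‖∑ n ∈ s, a n * ee ((c : ℝ) * ((n : ℝ) / L))‖ ^ 2 =
      L * ∑ n ∈ s, ‖a n‖ ^ 2 := by
  have h1 : ∀ c : ℕ, ((‖∑ n ∈ s, a n * ee ((c : ℝ) * ((n : ℝ) / L))‖ ^ 2 : ℝ) : ℂ) =
      ∑ n ∈ s, ∑ m ∈ s, a n * (starRingEnd ℂ) (a m) * ee ((c : ℝ) * ((((n : ℤ) - m : ℤ) : ℝ) / L)) := by
    intro c
    rw [← Complex.normSq_eq_norm_sq, Complex.normSq_eq_conj_mul_self, map_sum, mul_comm,
      sum_mul_sum]
    refine sum_congr rfl fun n _ => sum_congr rfl fun m _ => ?_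
    rw [map_mul, conj_ee]
    have : ee ((c : ℝ) * ((((n : ℤ) - m : ℤ) : ℝ) / L)) =
        ee ((c : ℝ) * ((n : ℝ) / L)) * ee (-((c : ℝ) * ((m : ℝ) / L))) := by
      rw [← ee_add]
      congr 1
      push_cast
      ring
    rw [this]
    ring
  have h2 : ((∑ c ∈ range L, ‖∑ n ∈ s, a n * ee ((c : ℝ) * ((n : ℝ) / L))‖ ^ 2 : ℝ) : ℂ) =
      ((L * ∑ n ∈ s, ‖a n‖ ^ 2 : ℝ) : ℂ) := by
    rw [Complex.ofReal_sum, sum_congr rfl (fun c _ => h1 c), sum_comm, Complex.ofReal_mul,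
      Complex.ofReal_natCast, Complex.ofReal_sum, mul_sum]
    refine sum_congr rfl fun n hn => ?_
    rw [sum_comm, sum_eq_single_of_mem n hn]
    · rw [← mul_sum, orthZ L hL, if_pos (by simp)]
      have : a n * (starRingEnd ℂ) (a n) = ((‖a n‖ ^ 2 : ℝ) : ℂ) := by
        rw [mul_comm, ← Complex.normSq_eq_conj_mul_self, Complex.normSq_eq_norm_sq]
      rw [this]
      ring
    · intro m hm hne
      rw [← mul_sum, orthZ L hL, if_neg, mul_zero]
      intro h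
      exact hne (hs n hn m hm h).symm
  exact_mod_cast h2

/-- The correlation of `u` and `v` on `(0, N]`. -/
def DC (N : ℕ) (u v : ℕ → ℂ) (h : ℕ) : ℂ :=
  ∑ n ∈ (Ioc 0 N).filter (fun n => n + h ≤ N), u n * v (n + h)

theorem DC_fourier (N L : ℕ) (hN : 1 ≤ N) (hL : 2 * N ≤ L) (u v : ℕ → ℂ) (h : ℕ) (hh : h ≤ N) :
    (L : ℂ) * DC N u v h = ∑ c ∈ range L, ((∑ n ∈ Ioc 0 N, u n * ee (-((c : ℝ) * ((n : ℝ) / L)))) *
      (∑ m ∈ Ioc 0 N, v m * ee ((c : ℝ) * ((m : ℝ) / L)))) * ee (-((c : ℝ) * ((h : ℝ) / L))) := by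
  have hL0 : 0 < L := by omega
  have h1 : ∀ c ∈ range L, ((∑ n ∈ Ioc 0 N, u n * ee (-((c : ℝ) * ((n : ℝ) / L)))) *
      (∑ m ∈ Ioc 0 N, v m * ee ((c : ℝ) * ((m : ℝ) / L)))) * ee (-((c : ℝ) * ((h : ℝ) / L))) =
      ∑ n ∈ Ioc 0 N, ∑ m ∈ Ioc 0 N, u n * v m *
        ee ((c : ℝ) * ((((m : ℤ) - n - h : ℤ) : ℝ) / L)) := by
    intro c _
    rw [sum_mul_sum, sum_mul]
    refine sum_congr rfl fun n _ => ?_
    rw [sum_mul]
    refine sum_congr rfl fun m _ => ?_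
    have : ee ((c : ℝ) * ((((m : ℤ) - n - h : ℤ) : ℝ) / L)) =
        ee (-((c : ℝ) * ((n : ℝ) / L))) * ee ((c : ℝ) * ((m : ℝ) / L)) *
          ee (-((c : ℝ) * ((h : ℝ) / L))) := by
      rw [← ee_add, ← ee_add]
      congr 1
      push_cast
      ring
    rw [this]
    ring
  rw [sum_congr rfl h1, sum_comm]
  unfold DC
  rw [mul_sum, sum_filter]
  refine sum_congr rfl fun n hn => ?_
  rw [mem_Ioc] at hn
  rw [sum_comm]
  have h2 : ∀ m ∈ Ioc 0 N, ∑ c ∈ range L, u n * v m *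
        ee ((c : ℝ) * ((((m : ℤ) - n - h : ℤ) : ℝ) / L)) =
        if m = n + h then (L : ℂ) * (u n * v (n + h)) else 0 := by
    intro m hm
    rw [mem_Ioc] at hm
    rw [← mul_sum, orthZ L hL0]
    by_cases h3 : m = n + h
    · subst h3
      rw [if_pos (by simp), if_pos rfl]
      ring
    · rw [if_neg h3, if_neg, mul_zero]
      intro h4
      have h5 : (m : ℤ) - n - h = 0 := by
        apply Int.eq_zero_of_abs_lt_dvd h4
        rw [abs_lt]
        constructor <;> omega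
      omega
  rw [sum_congr rfl h2, sum_ite_eq']
  simp only [mem_Ioc]
  by_cases h3 : n + h ≤ N
  · rw [if_pos h3, if_pos ⟨by omega, h3⟩]
  · rw [if_neg h3, if_neg (fun h => h3 h.2)]

theorem norm_flip (N L : ℕ) (u : ℕ → ℂ) (c : ℕ) :
    ‖∑ n ∈ Ioc 0 N, u n * ee (-((c : ℝ) * ((n : ℝ) / L)))‖ =
      ‖∑ n ∈ Ioc 0 N, (starRingEnd ℂ) (u n) * ee ((c : ℝ) * ((n : ℝ) / L))‖ := by
  rw [← Complex.norm_conj, map_sum]
  congr 1
  refine sum_congr rfl fun n _ => ?_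
  rw [map_mul, conj_ee, neg_neg]

theorem planch (N L : ℕ) (hN : 1 ≤ N) (hL : 2 * N ≤ L) (u v : ℕ → ℂ) :
    ∑ h ∈ Ioc 0 N, ‖DC N u v h‖ ^ 2 ≤ 1 / L * ∑ c ∈ range L,
      (‖∑ n ∈ Ioc 0 N, u n * ee (-((c : ℝ) * ((n : ℝ) / L)))‖ *
      ‖∑ m ∈ Ioc 0 N, v m * ee ((c : ℝ) * ((m : ℝ) / L))‖) ^ 2 := by
  have hL0 : 0 < L := by omega
  have hL' : (0 : ℝ) < L := by exact_mod_cast hL0
  set W : ℕ → ℂ := fun c => (∑ n ∈ Ioc 0 N, u n * ee (-((c : ℝ) * ((n : ℝ) / L)))) *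
      (∑ m ∈ Ioc 0 N, v m * ee ((c : ℝ) * ((m : ℝ) / L))) with hW
  have h1 := parseval L hL0 (range L) (by
    intro m hm n hn h
    rw [mem_range] at hm hn
    have h5 : (m : ℤ) - n = 0 := by
      apply Int.eq_zero_of_abs_lt_dvd h
      rw [abs_lt]
      constructor <;> omega
    omega) (fun c => (starRingEnd ℂ) (W c))
  have h2 : ∀ h ∈ Ioc 0 N, ‖DC N u v h‖ ^ 2 ≤ (1 / (L : ℝ) ^ 2) *
      ‖∑ c ∈ range L, (starRingEnd ℂ) (W c) * ee ((h : ℝ) * ((c : ℝ) / L))‖ ^ 2 := by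
    intro h hh
    rw [mem_Ioc] at hh
    have h3 := DC_fourier N L hN hL u v h hh.2
    have h4 : ‖(L : ℂ) * DC N u v h‖ =
        ‖∑ c ∈ range L, (starRingEnd ℂ) (W c) * ee ((h : ℝ) * ((c : ℝ) / L))‖ := by
      rw [h3, ← Complex.norm_conj, map_sum]
      congr 1
      refine sum_congr rfl fun c _ => ?_
      rw [map_mul, conj_ee, neg_neg]
      congr 2
      ring
    rw [← h4, norm_mul, Complex.norm_natCast, mul_pow]
    apply le_of_eq
    field_simp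
  refine (sum_le_sum h2).trans ?_
  rw [← mul_sum]
  have h5 : ∑ h ∈ Ioc 0 N,
      ‖∑ c ∈ range L, (starRingEnd ℂ) (W c) * ee ((h : ℝ) * ((c : ℝ) / L))‖ ^ 2 ≤
      ∑ h ∈ range L,
      ‖∑ c ∈ range L, (starRingEnd ℂ) (W c) * ee ((h : ℝ) * ((c : ℝ) / L))‖ ^ 2 := by
    refine sum_le_sum_of_subset_of_nonneg ?_ fun _ _ _ => by positivity
    intro h hh
    rw [mem_Ioc] at hh
    rw [mem_range]
    omega
  rw [h1] at h5
  calc _ ≤ 1 / (L : ℝ) ^ 2 * (L * ∑ c ∈ range L, ‖(starRingEnd ℂ) (W c)‖ ^ 2) := by gcongr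
    _ = _ := by
        have e : ∀ c ∈ range L, ‖(starRingEnd ℂ) (W c)‖ ^ 2 =
          (‖∑ n ∈ Ioc 0 N, u n * ee (-((c : ℝ) * ((n : ℝ) / L)))‖ *
            ‖∑ m ∈ Ioc 0 N, v m * ee ((c : ℝ) * ((m : ℝ) / L))‖) ^ 2 := by
          intro c _
          rw [Complex.norm_conj, hW]
          dsimp only
          rw [norm_mul]
        rw [sum_congr rfl e]
        field_simp

theorem Ioc_incong (N L : ℕ) (hL : 2 * N ≤ L) : ∀ m ∈ Ioc 0 N, ∀ n ∈ Ioc 0 N,
    (L : ℤ) ∣ (m : ℤ) - n → m = n := by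
  intro m hm n hn h
  rw [mem_Ioc] at hm hn
  have h5 : (m : ℤ) - n = 0 := by
    apply Int.eq_zero_of_abs_lt_dvd h
    rw [abs_lt]
    constructor <;> omega
  omega

/-- Correlations when the second function has a small exponential sum. -/
theorem planch_v (N L : ℕ) (hN : 1 ≤ N) (hL : 2 * N ≤ L) (u v : ℕ → ℂ) (B : ℝ)
    (hB : ∀ α : ℝ, ‖∑ n ∈ Ioc 0 N, v n * ee (n * α)‖ ≤ B) :
    ∑ h ∈ Ioc 0 N, ‖DC N u v h‖ ^ 2 ≤ B ^ 2 * ∑ n ∈ Ioc 0 N, ‖u n‖ ^ 2 := by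
  have hL0 : 0 < L := by omega
  have hL' : (0 : ℝ) < L := by exact_mod_cast hL0
  refine (planch N L hN hL u v).trans ?_
  have h1 : ∀ c ∈ range L, (‖∑ n ∈ Ioc 0 N, u n * ee (-((c : ℝ) * ((n : ℝ) / L)))‖ *
      ‖∑ m ∈ Ioc 0 N, v m * ee ((c : ℝ) * ((m : ℝ) / L))‖) ^ 2 ≤
      B ^ 2 * ‖∑ n ∈ Ioc 0 N, (starRingEnd ℂ) (u n) * ee ((c : ℝ) * ((n : ℝ) / L))‖ ^ 2 := by
    intro c _
    rw [norm_flip, mul_pow, mul_comm]
    have h2 : ‖∑ m ∈ Ioc 0 N, v m * ee ((c : ℝ) * ((m : ℝ) / L))‖ ≤ B := by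
      refine le_trans (le_of_eq ?_) (hB ((c : ℝ) / L))
      congr 1
      refine sum_congr rfl fun m _ => ?_
      congr 2
      ring
    gcongr
  have h2 := parseval L hL0 (Ioc 0 N) (Ioc_incong N L hL) (fun n => (starRingEnd ℂ) (u n))
  calc _ ≤ 1 / (L : ℝ) * ∑ c ∈ range L, B ^ 2 *
        ‖∑ n ∈ Ioc 0 N, (starRingEnd ℂ) (u n) * ee ((c : ℝ) * ((n : ℝ) / L))‖ ^ 2 := by
        gcongr with c hc
        exact h1 c hc
    _ = _ := by
        rw [← mul_sum, h2]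
        simp only [Complex.norm_conj]
        field_simp

/-- Correlations when the first function has a small exponential sum. -/
theorem planch_u (N L : ℕ) (hN : 1 ≤ N) (hL : 2 * N ≤ L) (u v : ℕ → ℂ) (B : ℝ)
    (hB : ∀ α : ℝ, ‖∑ n ∈ Ioc 0 N, u n * ee (n * α)‖ ≤ B) :
    ∑ h ∈ Ioc 0 N, ‖DC N u v h‖ ^ 2 ≤ B ^ 2 * ∑ n ∈ Ioc 0 N, ‖v n‖ ^ 2 := by
  have hL0 : 0 < L := by omega
  have hL' : (0 : ℝ) < L := by exact_mod_cast hL0
  refine (planch N L hN hL u v).trans ?_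
  have h1 : ∀ c ∈ range L, (‖∑ n ∈ Ioc 0 N, u n * ee (-((c : ℝ) * ((n : ℝ) / L)))‖ *
      ‖∑ m ∈ Ioc 0 N, v m * ee ((c : ℝ) * ((m : ℝ) / L))‖) ^ 2 ≤
      B ^ 2 * ‖∑ m ∈ Ioc 0 N, v m * ee ((c : ℝ) * ((m : ℝ) / L))‖ ^ 2 := by
    intro c _
    rw [mul_pow]
    have h2 : ‖∑ n ∈ Ioc 0 N, u n * ee (-((c : ℝ) * ((n : ℝ) / L)))‖ ≤ B := by
      refine le_trans (le_of_eq ?_) (hB (-((c : ℝ) / L)))
      congr 1
      refine sum_congr rfl fun m _ => ?_
      congr 2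
      ring
    gcongr
  have h2 := parseval L hL0 (Ioc 0 N) (Ioc_incong N L hL) v
  calc _ ≤ 1 / (L : ℝ) * ∑ c ∈ range L, B ^ 2 *
        ‖∑ n ∈ Ioc 0 N, v n * ee ((c : ℝ) * ((n : ℝ) / L))‖ ^ 2 := by
        gcongr with c hc
        exact h1 c hc
    _ = _ := by
        rw [← mul_sum, h2]
        field_simp

/-- Majorant of the Fourier coefficients of all the cutoffs `m ≤ X`. -/
def gs (L c : ℕ) : ℝ := if c = 0 then 1 else 1 / (2 * c) + 1 / (2 * ((L : ℝ) - c))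

theorem gs_nonneg (L c : ℕ) (hc : c < L) : 0 ≤ gs L c := by
  unfold gs
  have : (c : ℝ) < L := by exact_mod_cast hc
  split_ifs
  · norm_num
  · have : 0 < (L : ℝ) - c := by linarith
    positivity

theorem gs_sum (L : ℕ) (hL : 0 < L) : ∑ c ∈ range L, gs L c ≤ 2 + Real.log L := by
  obtain ⟨K, rfl⟩ : ∃ K, L = K + 1 := ⟨L - 1, by omega⟩
  rw [sum_range_succ']
  have h0 : gs (K + 1) 0 = 1 := by simp [gs]
  rw [h0]
  have hE : ∑ m ∈ Ioc 0 K, (1 : ℝ) / m = ∑ j ∈ range K, (1 : ℝ) / ((j : ℝ) + 1) := by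
    have : Ioc 0 K = (range K).image (fun n => n + 1) := by
      ext x
      simp only [mem_Ioc, mem_image, mem_range]
      constructor
      · intro h; exact ⟨x - 1, by omega, by omega⟩
      · rintro ⟨a, ha, rfl⟩; omega
    rw [this, sum_image (fun a _ b _ h => by omega)]
    push_cast
    rfl
  have h1 : ∑ c ∈ range K, gs (K + 1) (c + 1) =
      1 / 2 * ∑ j ∈ range K, (1 : ℝ) / ((j : ℝ) + 1) +
      1 / 2 * ∑ j ∈ range K, (1 : ℝ) / ((j : ℝ) + 1) := by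
    conv_rhs => enter [2]; rw [← sum_range_reflect]
    rw [mul_sum, mul_sum, ← sum_add_distrib]
    refine sum_congr rfl fun c hc => ?_
    rw [mem_range] at hc
    unfold gs
    rw [if_neg (by omega)]
    have e : (((K - 1 - c : ℕ) : ℝ)) = (K : ℝ) - 1 - c := by
      rw [Nat.cast_sub (by omega), Nat.cast_sub (by omega)]
      simp
    rw [e]
    push_cast
    have h2 : (K : ℝ) + 1 - (c + 1) = K - 1 - c + 1 := by ring
    rw [h2]
    have h3 : (0 : ℝ) < K - 1 - c + 1 := by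
      have : (c : ℝ) < K := by exact_mod_cast hc
      linarith
    field_simp
  rw [h1, ← hE]
  have h2 := harm_le K
  have h3 : Real.log K ≤ Real.log ((K + 1 : ℕ) : ℝ) := by
    rcases Nat.eq_zero_or_pos K with h | h
    · subst h; simp
    · apply Real.log_le_log (by exact_mod_cast h)
      push_cast
      linarith
  linarith

theorem cut_coeff (L X c : ℕ) (hc : c < L) (hX : X ≤ L) :
    ‖(1 / (L : ℂ)) * Vs X ((c : ℝ) / L)‖ ≤ gs L c := by
  have hL : (0 : ℝ) < L := by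
    have : 0 < L := by omega
    exact_mod_cast this
  have hcL : (c : ℝ) < L := by exact_mod_cast hc
  rw [norm_mul, norm_div, norm_one, Complex.norm_natCast]
  unfold gs
  split_ifs with h
  · have h1 := norm_Vs_le X ((c : ℝ) / L)
    have h2 : (X : ℝ) ≤ L := by exact_mod_cast hX
    rw [one_div_mul_eq_div, div_le_one hL]
    linarith
  · have hc0 : (0 : ℝ) < c := by
      have : 0 < c := Nat.pos_of_ne_zero h
      exact_mod_cast this
    have hd : (0 : ℝ) < L - c := by linarith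
    rcases le_or_gt ((c : ℝ) / L) (1 / 2) with h1 | h1
    · have h2 := norm_Vs_mul X ((c : ℝ) / L) (by rw [abs_of_pos (by positivity)]; exact h1)
      rw [abs_of_pos (by positivity)] at h2
      have h3 : 1 / (L : ℝ) * ‖Vs X ((c : ℝ) / L)‖ ≤ 1 / (2 * c) := by
        rw [le_div_iff₀ (by positivity)]
        calc 1 / (L : ℝ) * ‖Vs X ((c : ℝ) / L)‖ * (2 * c) =
              2 * (‖Vs X ((c : ℝ) / L)‖ * (c / L)) := by field_simp
          _ ≤ 2 * (1 / 2) := by gcongr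
          _ = 1 := by norm_num
      have h4 : 0 ≤ 1 / (2 * ((L : ℝ) - c)) := by positivity
      linarith
    · have hper : Vs X ((c : ℝ) / L) = Vs X ((c : ℝ) / L - 1) := by
        unfold Vs
        refine sum_congr rfl fun n _ => ?_
        have : (n : ℝ) * ((c : ℝ) / L) = n * ((c : ℝ) / L - 1) + (n : ℕ) := by ring
        rw [this, ee_add, ee_nat, mul_one]
      have habs : |(c : ℝ) / L - 1| = (L - c) / L := by
        rw [abs_sub_comm, abs_of_pos]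
        · field_simp
        · rw [sub_pos, div_lt_one hL]; exact hcL
      have h2 := norm_Vs_mul X ((c : ℝ) / L - 1) (by
        rw [habs, sub_div, div_self hL.ne']; linarith)
      rw [habs] at h2
      rw [hper]
      have h3 : 1 / (L : ℝ) * ‖Vs X ((c : ℝ) / L - 1)‖ ≤ 1 / (2 * ((L : ℝ) - c)) := by
        rw [le_div_iff₀ (by positivity)]
        calc 1 / (L : ℝ) * ‖Vs X ((c : ℝ) / L - 1)‖ * (2 * ((L : ℝ) - c)) =
              2 * (‖Vs X ((c : ℝ) / L - 1)‖ * ((L - c) / L)) := by field_simp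
          _ ≤ 2 * (1 / 2) := by gcongr
          _ = 1 := by norm_num
      have h4 : 0 ≤ 1 / (2 * (c : ℝ)) := by positivity
      linarith

theorem cut_expand (L X m : ℕ) (hX : X < L) (hm : 0 < m) (hmL : m ≤ L) :
    ∑ c ∈ range L, ((1 / (L : ℂ)) * Vs X ((c : ℝ) / L)) * ee (-((m : ℝ) * ((c : ℝ) / L))) =
      if m ≤ X then 1 else 0 := by
  have hL0 : 0 < L := by omega
  have hL' : (L : ℂ) ≠ 0 := by exact_mod_cast hL0.ne'
  have h1 : ∀ c ∈ range L, ((1 / (L : ℂ)) * Vs X ((c : ℝ) / L)) * ee (-((m : ℝ) * ((c : ℝ) / L))) =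
      ∑ j ∈ Ioc 0 X, (1 / (L : ℂ)) * ee ((c : ℝ) * ((((j : ℤ) - m : ℤ) : ℝ) / L)) := by
    intro c _
    unfold Vs
    rw [mul_sum, sum_mul]
    refine sum_congr rfl fun j _ => ?_
    rw [mul_assoc, ← ee_add]
    congr 2
    push_cast
    ring
  rw [sum_congr rfl h1, sum_comm]
  have h2 : ∀ j ∈ Ioc 0 X, ∑ c ∈ range L, (1 / (L : ℂ)) *
      ee ((c : ℝ) * ((((j : ℤ) - m : ℤ) : ℝ) / L)) = if j = m then 1 else 0 := by
    intro j hj
    rw [mem_Ioc] at hj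
    rw [← mul_sum, orthZ L hL0]
    by_cases h3 : j = m
    · subst h3
      rw [if_pos (by simp), if_pos rfl]
      field_simp
    · rw [if_neg h3, if_neg, mul_zero]
      intro h4
      have h5 : (j : ℤ) - m = 0 := by
        apply Int.eq_zero_of_abs_lt_dvd h4
        rw [abs_lt]
        constructor <;> omega
      omega
  rw [sum_congr rfl h2, sum_ite_eq']
  simp only [mem_Ioc]
  by_cases h3 : m ≤ X
  · rw [if_pos h3, if_pos ⟨hm, h3⟩]
  · rw [if_neg h3, if_neg (fun h => h3 h.2)]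

/-- The maximal correlation bound. -/
theorem maximal (N L : ℕ) (hN : 1 ≤ N) (hL : 2 * N ≤ L) (u v : ℕ → ℂ) (G : ℝ)
    (hG : ∀ β : ℝ, ∑ h ∈ Ioc 0 N, ‖DC N u (fun n => v n * ee (-((n : ℝ) * β))) h‖ ^ 2 ≤ G) :
    ∃ W : ℕ → ℝ, (∀ h, 0 ≤ W h) ∧
      (∀ X ≤ N, ∀ h ≤ N, ‖∑ n ∈ (Ioc 0 N).filter (fun n => n + h ≤ X), u n * v (n + h)‖ ≤ W h) ∧
      ∑ h ∈ Ioc 0 N, W h ^ 2 ≤ (2 + Real.log L) ^ 2 * G := by
  have hL0 : 0 < L := by omega
  set D : ℕ → ℕ → ℂ := fun c h => DC N u (fun n => v n * ee (-((n : ℝ) * ((c : ℝ) / L)))) h with hD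
  have hgs : ∀ c ∈ range L, 0 ≤ gs L c := fun c hc => gs_nonneg L c (mem_range.1 hc)
  refine ⟨fun h => ∑ c ∈ range L, gs L c * ‖D c h‖, ?_, ?_, ?_⟩
  · intro h
    exact sum_nonneg fun c hc => mul_nonneg (hgs c hc) (norm_nonneg _)
  · intro X hX h hh
    have e : ∑ n ∈ (Ioc 0 N).filter (fun n => n + h ≤ X), u n * v (n + h) =
        ∑ c ∈ range L, ((1 / (L : ℂ)) * Vs X ((c : ℝ) / L)) * D c h := by
      have h1 : ∑ n ∈ (Ioc 0 N).filter (fun n => n + h ≤ X), u n * v (n + h) =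
          ∑ n ∈ (Ioc 0 N).filter (fun n => n + h ≤ N),
            (if n + h ≤ X then (1 : ℂ) else 0) * (u n * v (n + h)) := by
        rw [sum_filter, sum_filter]
        refine sum_congr rfl fun n _ => ?_
        by_cases h2 : n + h ≤ X
        · rw [if_pos h2, if_pos (h2.trans hX), if_pos h2, one_mul]
        · rw [if_neg h2]
          split_ifs
          ring
          rfl
      rw [h1]
      have h3 : ∀ n ∈ (Ioc 0 N).filter (fun n => n + h ≤ N),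
          (if n + h ≤ X then (1 : ℂ) else 0) * (u n * v (n + h)) =
          ∑ c ∈ range L, ((1 / (L : ℂ)) * Vs X ((c : ℝ) / L)) *
            (u n * (v (n + h) * ee (-((((n + h : ℕ) : ℕ) : ℝ) * ((c : ℝ) / L))))) := by
        intro n hn
        rw [mem_filter, mem_Ioc] at hn
        rw [← cut_expand L X (n + h) (by omega) (by omega) (by omega), sum_mul]
        refine sum_congr rfl fun c _ => ?_
        ring
      rw [sum_congr rfl h3, sum_comm]
      refine sum_congr rfl fun c _ => ?_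
      rw [hD]
      dsimp only
      unfold DC
      rw [mul_sum]
    rw [e]
    refine (norm_sum_le _ _).trans (sum_le_sum fun c hc => ?_)
    rw [mem_range] at hc
    rw [norm_mul]
    exact mul_le_mul_of_nonneg_right (cut_coeff L X c hc (by omega)) (norm_nonneg _)
  · set Γ := ∑ c ∈ range L, gs L c with hΓ
    have hΓ0 : 0 ≤ Γ := sum_nonneg hgs
    have hΓ1 : Γ ≤ 2 + Real.log L := gs_sum L hL0
    have hG0 : 0 ≤ G := le_trans (sum_nonneg fun _ _ => by positivity) (hG 0)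
    have h1 : ∀ h ∈ Ioc 0 N, (∑ c ∈ range L, gs L c * ‖D c h‖) ^ 2 ≤
        Γ * ∑ c ∈ range L, gs L c * ‖D c h‖ ^ 2 := by
      intro h _
      have := sum_mul_sq_le_sq_mul_sq (range L) (fun c => Real.sqrt (gs L c))
        (fun c => Real.sqrt (gs L c) * ‖D c h‖)
      have e1 : ∑ c ∈ range L, Real.sqrt (gs L c) * (Real.sqrt (gs L c) * ‖D c h‖) =
          ∑ c ∈ range L, gs L c * ‖D c h‖ := by
        refine sum_congr rfl fun c hc => ?_
        rw [← mul_assoc, Real.mul_self_sqrt (hgs c hc)]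
      have e2 : ∑ c ∈ range L, Real.sqrt (gs L c) ^ 2 = Γ := by
        refine sum_congr rfl fun c hc => ?_
        rw [Real.sq_sqrt (hgs c hc)]
      have e3 : ∑ c ∈ range L, (Real.sqrt (gs L c) * ‖D c h‖) ^ 2 =
          ∑ c ∈ range L, gs L c * ‖D c h‖ ^ 2 := by
        refine sum_congr rfl fun c hc => ?_
        rw [mul_pow, Real.sq_sqrt (hgs c hc)]
      rw [e1, e2, e3] at this
      exact this
    refine (sum_le_sum h1).trans ?_
    rw [← mul_sum, sum_comm]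
    have h2 : ∑ c ∈ range L, ∑ h ∈ Ioc 0 N, gs L c * ‖D c h‖ ^ 2 ≤ Γ * G := by
      rw [hΓ, sum_mul]
      refine sum_le_sum fun c hc => ?_
      rw [← mul_sum]
      exact mul_le_mul_of_nonneg_left (hG ((c : ℝ) / L)) (hgs c hc)
    calc Γ * ∑ c ∈ range L, ∑ h ∈ Ioc 0 N, gs L c * ‖D c h‖ ^ 2 ≤ Γ * (Γ * G) := by gcongr
      _ = Γ ^ 2 * G := by ring
      _ ≤ _ := by gcongr

end

end Pool.Agent.E8helper88
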