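import Pool.Agent.E8helper88.Inner

set_option autoImplicit false

open Finset

namespace Pool.Agent.E8helper88

noncomputable section

/-- Sums of a monotone function over multiples of `l`. -/
theorem mono_mult (G : ℕ → ℝ) (hm : ∀ a b, a ≤ b → G a ≤ G b) (h0 : 0 ≤ G 0) (l : ℕ) (hl : 0 < l)
    (Y : ℕ) : |∑ n ∈ (Ioc 0 Y).filter (fun n => l ∣ n), G n - 1 / l * ∑ n ∈ Ioc 0 Y, G n| ≤ G Y := by
  have hl' : (0 : ℝ) < l := by exact_mod_cast hl
  have hG : ∀ n, 0 ≤ G n := fun n => h0.trans (hm 0 n (Nat.zero_le n))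
  have key : ∀ Y : ℕ, -(((Y % l : ℕ) : ℝ) * G Y) ≤
      l * ∑ n ∈ (Ioc 0 Y).filter (fun n => l ∣ n), G n - ∑ n ∈ Ioc 0 Y, G n ∧
      l * ∑ n ∈ (Ioc 0 Y).filter (fun n => l ∣ n), G n - ∑ n ∈ Ioc 0 Y, G n ≤
        ((l : ℝ) - 1 - ((Y % l : ℕ) : ℝ)) * G Y := by
    intro Y
    induction Y with
    | zero =>
      simp only [Nat.zero_mod, Nat.cast_zero, zero_mul, neg_zero, Ioc_self, filter_empty,
        sum_empty, mul_zero, sub_self, sub_zero, le_refl, true_and]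
      apply mul_nonneg _ h0
      have : (1 : ℝ) ≤ l := by exact_mod_cast hl
      linarith
    | succ Y ih =>
      obtain ⟨ih1, ih2⟩ := ih
      have hins : Ioc 0 (Y + 1) = insert (Y + 1) (Ioc 0 Y) := by
        ext x; simp only [mem_Ioc, mem_insert]; omega
      have hnot : (Y + 1) ∉ Ioc 0 Y := by simp
      have hGm := hm Y (Y + 1) (Nat.le_succ Y)
      have hG1 := hG (Y + 1)
      have hG0 := hG Y
      have hmod : Y % l < l := Nat.mod_lt _ hl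
      have hr : ((Y % l : ℕ) : ℝ) + 1 ≤ l := by exact_mod_cast hmod
      have hr0 : (0 : ℝ) ≤ ((Y % l : ℕ) : ℝ) := Nat.cast_nonneg _
      by_cases hd : l ∣ Y + 1
      · have e1 : (Y + 1) % l = 0 := Nat.mod_eq_zero_of_dvd hd
        have e2 : ((Y % l : ℕ) : ℝ) = l - 1 := by
          have h3 : Y % l = l - 1 := by
            rcases Nat.lt_or_ge (Y % l + 1) l with h | h
            · exfalso
              have : (Y + 1) % l = Y % l + 1 := by
                rw [Nat.add_mod]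
                rw [Nat.mod_eq_of_lt (show 1 < l by omega), Nat.mod_eq_of_lt h]
              omega
            · omega
          rw [h3, Nat.cast_sub hl]
          simp
        rw [hins, filter_insert, if_pos hd, sum_insert (by simp), sum_insert hnot, e1]
        rw [e2] at ih1 ih2
        simp only [Nat.cast_zero, zero_mul, neg_zero, sub_zero]
        constructor
        · nlinarith
        · nlinarith
      · have e1 : (Y + 1) % l = Y % l + 1 := by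
          have h1l : l ≠ 1 := by
            rintro rfl
            exact hd (one_dvd _)
          rcases Nat.lt_or_ge (Y % l + 1) l with h | h
          · rw [Nat.add_mod, Nat.mod_eq_of_lt (show 1 < l by omega), Nat.mod_eq_of_lt h]
          · exfalso
            apply hd
            have h3 : Y % l + 1 = l := by omega
            have h4 := Nat.div_add_mod Y l
            refine ⟨Y / l + 1, ?_⟩
            rw [mul_add, mul_one]
            omega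
        rw [hins, filter_insert, if_neg hd, sum_insert hnot, e1]
        have hmod2 : ((Y % l : ℕ) : ℝ) + 1 + 1 ≤ l ∨ ((Y % l : ℕ) : ℝ) + 1 ≤ l := Or.inr hr
        push_cast
        constructor
        · nlinarith
        · nlinarith
  obtain ⟨h1, h2⟩ := key Y
  have hmod : Y % l < l := Nat.mod_lt _ hl
  have hr : ((Y % l : ℕ) : ℝ) + 1 ≤ l := by exact_mod_cast hmod
  have hr0 : (0 : ℝ) ≤ ((Y % l : ℕ) : ℝ) := Nat.cast_nonneg _
  have hG0 := hG Y
  have e : ∑ n ∈ (Ioc 0 Y).filter (fun n => l ∣ n), G n - 1 / l * ∑ n ∈ Ioc 0 Y, G n =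
      (l * ∑ n ∈ (Ioc 0 Y).filter (fun n => l ∣ n), G n - ∑ n ∈ Ioc 0 Y, G n) / l := by
    field_simp
  rw [e, abs_div, abs_of_pos hl', div_le_iff₀ hl', abs_le]
  constructor
  · nlinarith
  · nlinarith

/-- `∑_{d ∣ n} μ(d) ℓ(y/d)`. -/
def cA (ℓ : ℝ → ℝ) (y : ℝ) (n : ℕ) : ℝ := ∑ d ∈ n.divisors, mu d * ℓ (y / d)

/-- `∑_{r ∣ d ≤ Z} μ(d) ℓ(y/d)/d`. -/
def uu (ℓ : ℝ → ℝ) (Z : ℕ) (y : ℝ) (r : ℕ) : ℝ :=
  ∑ d ∈ (Ioc 0 Z).filter (fun d => r ∣ d), mu d * ℓ (y / d) / d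

/-- The quadratic form. -/
def QQ (ℓ : ℝ → ℝ) (Z : ℕ) (y : ℝ) : ℝ := ∑ r ∈ Ioc 0 Z, (Nat.totient r : ℝ) * uu ℓ Z y r ^ 2

theorem cA_eq (ℓ : ℝ → ℝ) (h0 : ∀ x, x ≤ 1 → ℓ x = 0) (y : ℝ) (n Z : ℕ) (hn : 0 < n)
    (hy : y ≤ Z) : cA ℓ y n = ∑ d ∈ (Ioc 0 Z).filter (fun d => d ∣ n), mu d * ℓ (y / d) := by
  unfold cA
  have e1 : ∑ d ∈ n.divisors, mu d * ℓ (y / d) =
      ∑ d ∈ n.divisors.filter (fun d => d ≤ Z), mu d * ℓ (y / d) := by
    symm
    apply sum_filter_of_ne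
    intro d hd hne
    by_contra h
    push Not at h
    apply hne
    have hd0 : (0 : ℝ) < d := by
      have := Nat.pos_of_mem_divisors hd
      exact_mod_cast this
    rw [h0, mul_zero]
    rw [div_le_one hd0]
    have : (Z : ℝ) < d := by exact_mod_cast h
    linarith
  rw [e1]
  refine sum_congr ?_ fun _ _ => rfl
  ext d
  simp only [mem_filter, Nat.mem_divisors, mem_Ioc]
  constructor
  · rintro ⟨⟨h1, _⟩, h2⟩
    exact ⟨⟨Nat.pos_of_dvd_of_pos h1 hn, h2⟩, h1⟩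
  · rintro ⟨⟨_, h2⟩, h1⟩
    exact ⟨⟨h1, hn.ne'⟩, h2⟩

theorem QQ_expand (ℓ : ℝ → ℝ) (Z : ℕ) (y : ℝ) :
    QQ ℓ Z y = ∑ d ∈ Ioc 0 Z, ∑ e ∈ Ioc 0 Z,
      mu d * mu e * (1 / (Nat.lcm d e : ℕ) * (ℓ (y / d) * ℓ (y / e))) := by
  unfold QQ uu
  have e1 : ∀ r ∈ Ioc 0 Z, (Nat.totient r : ℝ) *
      (∑ d ∈ (Ioc 0 Z).filter (fun d => r ∣ d), mu d * ℓ (y / d) / d) ^ 2 =
      ∑ d ∈ Ioc 0 Z, ∑ e ∈ Ioc 0 Z, (if r ∣ Nat.gcd d e then (Nat.totient r : ℝ) else 0) *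
        ((mu d * ℓ (y / d) / d) * (mu e * ℓ (y / e) / e)) := by
    intro r _
    rw [sq, sum_mul_sum, sum_filter, mul_sum]
    refine sum_congr rfl fun d _ => ?_
    split_ifs with h1
    · rw [sum_filter, mul_sum]
      refine sum_congr rfl fun e _ => ?_
      by_cases h2 : r ∣ e
      · rw [if_pos h2, if_pos (Nat.dvd_gcd h1 h2)]
      · rw [if_neg h2, if_neg (fun h => h2 (h.trans (Nat.gcd_dvd_right _ _)))]
        ring
    · rw [mul_zero]
      symm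
      apply sum_eq_zero
      intro e _
      rw [if_neg (fun h => h1 (h.trans (Nat.gcd_dvd_left _ _)))]
      ring
  rw [sum_congr rfl e1, sum_comm]
  refine sum_congr rfl fun d hd => ?_
  rw [sum_comm]
  refine sum_congr rfl fun e he => ?_
  rw [mem_Ioc] at hd he
  rw [← sum_mul, ← sum_filter]
  have h1 : (Ioc 0 Z).filter (fun r => r ∣ Nat.gcd d e) = (Nat.gcd d e).divisors := by
    ext r
    have hg : 0 < Nat.gcd d e := Nat.gcd_pos_of_pos_left _ hd.1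
    simp only [mem_filter, mem_Ioc, Nat.mem_divisors]
    constructor
    · exact fun h => ⟨h.2, hg.ne'⟩
    · exact fun h => ⟨⟨Nat.pos_of_dvd_of_pos h.1 hg, (Nat.le_of_dvd hg h.1).trans
        ((Nat.gcd_le_left _ hd.1).trans hd.2)⟩, h.1⟩
  rw [h1, ← Nat.cast_sum, Nat.sum_totient]
  have hd0 : (0 : ℝ) < d := by exact_mod_cast hd.1
  have he0 : (0 : ℝ) < e := by exact_mod_cast he.1
  have hl0 : (0 : ℝ) < (Nat.lcm d e : ℕ) := by exact_mod_cast Nat.lcm_pos hd.1 he.1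
  have h2 : ((Nat.gcd d e : ℕ) : ℝ) * (Nat.lcm d e : ℕ) = d * e := by
    exact_mod_cast Nat.gcd_mul_lcm d e
  have h3 : ((Nat.gcd d e : ℕ) : ℝ) / (d * e) = 1 / (Nat.lcm d e : ℕ) := by
    rw [div_eq_div_iff (by positivity) hl0.ne', h2]
    ring
  calc ((Nat.gcd d e : ℕ) : ℝ) * (mu d * ℓ (y / d) / d * (mu e * ℓ (y / e) / e)) =
        mu d * mu e * (((Nat.gcd d e : ℕ) : ℝ) / (d * e) * (ℓ (y / d) * ℓ (y / e))) := by
        field_simp
    _ = _ := by rw [h3]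

theorem QQ_nonneg (ℓ : ℝ → ℝ) (Z : ℕ) (y : ℝ) : 0 ≤ QQ ℓ Z y := by
  unfold QQ
  exact sum_nonneg fun _ _ => by positivity

theorem varcut (ℓ : ℝ → ℝ) (hm : ∀ x y, 0 ≤ x → x ≤ y → ℓ x ≤ ℓ y) (h0 : ∀ x, x ≤ 1 → ℓ x = 0)
    (c : ℝ) (hc : 0 ≤ c) (Y Z : ℕ) (hZ : c * Y ≤ Z) :
    ∑ n ∈ Ioc 0 Y, cA ℓ (c * n) n ^ 2 ≤
      ∑ n ∈ Ioc 0 Y, QQ ℓ Z (c * n) + (Z : ℝ) ^ 2 * ℓ (c * Y) ^ 2 := by
  have hℓ0 : ∀ x, 0 ≤ x → 0 ≤ ℓ x := fun x hx => by
    have := hm 0 x le_rfl hx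
    rwa [h0 0 (by norm_num)] at this
  have e1 : ∑ n ∈ Ioc 0 Y, cA ℓ (c * n) n ^ 2 = ∑ d ∈ Ioc 0 Z, ∑ e ∈ Ioc 0 Z, mu d * mu e *
      ∑ n ∈ (Ioc 0 Y).filter (fun n => Nat.lcm d e ∣ n), ℓ (c * n / d) * ℓ (c * n / e) := by
    have h1 : ∀ n ∈ Ioc 0 Y, cA ℓ (c * n) n ^ 2 = ∑ d ∈ Ioc 0 Z, ∑ e ∈ Ioc 0 Z, mu d * mu e *
        (if Nat.lcm d e ∣ n then ℓ (c * n / d) * ℓ (c * n / e) else 0) := by
      intro n hn
      rw [mem_Ioc] at hn
      have hy : c * n ≤ Z := by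
        refine le_trans ?_ hZ
        have : (n : ℝ) ≤ Y := by exact_mod_cast hn.2
        gcongr
      rw [cA_eq ℓ h0 _ n Z hn.1 hy, sq, sum_mul_sum, sum_filter]
      refine sum_congr rfl fun d _ => ?_
      split_ifs with h1
      · rw [sum_filter]
        refine sum_congr rfl fun e _ => ?_
        by_cases h2 : e ∣ n
        · rw [if_pos h2, if_pos (Nat.lcm_dvd h1 h2)]
          ring
        · rw [if_neg h2, if_neg (fun h => h2 ((Nat.dvd_lcm_right _ _).trans h))]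
          ring
      · symm
        apply sum_eq_zero
        intro e _
        rw [if_neg (fun h => h1 ((Nat.dvd_lcm_left _ _).trans h))]
        ring
    rw [sum_congr rfl h1, sum_comm]
    refine sum_congr rfl fun d _ => ?_
    rw [sum_comm]
    refine sum_congr rfl fun e _ => ?_
    rw [← mul_sum, ← sum_filter]
  have e2 : ∑ n ∈ Ioc 0 Y, QQ ℓ Z (c * n) = ∑ d ∈ Ioc 0 Z, ∑ e ∈ Ioc 0 Z, mu d * mu e *
      (1 / (Nat.lcm d e : ℕ) * ∑ n ∈ Ioc 0 Y, ℓ (c * n / d) * ℓ (c * n / e)) := by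
    simp only [QQ_expand]
    rw [sum_comm]
    refine sum_congr rfl fun d _ => ?_
    rw [sum_comm]
    refine sum_congr rfl fun e _ => ?_
    rw [mul_sum, mul_sum]
  have e3 : (Z : ℝ) ^ 2 * ℓ (c * Y) ^ 2 = ∑ d ∈ Ioc 0 Z, ∑ e ∈ Ioc 0 Z, ℓ (c * Y) ^ 2 := by
    simp only [sum_const, Nat.card_Ioc, nsmul_eq_mul, Nat.sub_zero]
    ring
  rw [e1, e2, e3, ← sum_add_distrib]
  refine sum_le_sum fun d hd => ?_
  rw [← sum_add_distrib]
  refine sum_le_sum fun e he => ?_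
  rw [mem_Ioc] at hd he
  have hd0 : (0 : ℝ) < d := by exact_mod_cast hd.1
  have he0 : (0 : ℝ) < e := by exact_mod_cast he.1
  have hd1 : (1 : ℝ) ≤ d := by exact_mod_cast hd.1
  have he1 : (1 : ℝ) ≤ e := by exact_mod_cast he.1
  have hG : ∀ a b : ℕ, a ≤ b → ℓ (c * a / d) * ℓ (c * a / e) ≤ ℓ (c * b / d) * ℓ (c * b / e) := by
    intro a b hab
    have hab' : (a : ℝ) ≤ b := by exact_mod_cast hab
    apply mul_le_mul
    · apply hm _ _ (by positivity)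
      gcongr
    · apply hm _ _ (by positivity)
      gcongr
    · exact hℓ0 _ (by positivity)
    · exact hℓ0 _ (by positivity)
  have h1 := mono_mult (fun n => ℓ (c * n / d) * ℓ (c * n / e)) hG
    (mul_nonneg (hℓ0 _ (by positivity)) (hℓ0 _ (by positivity))) (Nat.lcm d e)
    (Nat.lcm_pos hd.1 he.1) Y
  have h2 : ℓ (c * Y / d) * ℓ (c * Y / e) ≤ ℓ (c * Y) ^ 2 := by
    rw [sq]
    apply mul_le_mul
    · apply hm _ _ (by positivity)
      apply div_le_self (by positivity) hd1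
    · apply hm _ _ (by positivity)
      apply div_le_self (by positivity) he1
    · exact hℓ0 _ (by positivity)
    · exact hℓ0 _ (by positivity)
  have h3 : |mu d * mu e| ≤ 1 := by
    rw [abs_mul]
    exact mul_le_one₀ (abs_mu_le d) (abs_nonneg _) (abs_mu_le e)
  have h4 : mu d * mu e *
      ∑ n ∈ (Ioc 0 Y).filter (fun n => Nat.lcm d e ∣ n), ℓ (c * n / d) * ℓ (c * n / e) -
      mu d * mu e * (1 / (Nat.lcm d e : ℕ) * ∑ n ∈ Ioc 0 Y, ℓ (c * n / d) * ℓ (c * n / e)) ≤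
      ℓ (c * Y) ^ 2 := by
    rw [← mul_sub]
    refine (le_abs_self _).trans ?_
    rw [abs_mul]
    calc |mu d * mu e| * |_| ≤ 1 * (ℓ (c * Y / d) * ℓ (c * Y / e)) :=
          mul_le_mul h3 h1 (abs_nonneg _) zero_le_one
      _ ≤ _ := by linarith
  linarith

end

end Pool.Agent.E8helper88
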