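import Pool.Agent.E8helper88.Gavg
import Pool.Agent.E8helper88.VarCut

set_option autoImplicit false

open Finset

namespace Pool.Agent.E8helper88

noncomputable section

theorem posLog_zero_of_le {x : ℝ} (hx0 : 0 ≤ x) (h : x ≤ 1) : Real.posLog x = 0 := by
  rw [Real.posLog_eq_zero_iff, abs_of_nonneg hx0]
  exact h

/-- `log⁺` on the positive axis, extended by `0`. -/
def lp (x : ℝ) : ℝ := Real.posLog (max x 0)

theorem lp_of_nonneg {x : ℝ} (h : 0 ≤ x) : lp x = Real.posLog x := by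
  unfold lp; rw [max_eq_left h]

theorem lp_zero (x : ℝ) (h : x ≤ 1) : lp x = 0 := by
  unfold lp
  exact posLog_zero_of_le (le_max_right _ _) (max_le h zero_le_one)

theorem lp_log {x : ℝ} (h : 1 ≤ x) : lp x = Real.log x := by
  rw [lp_of_nonneg (by linarith), Real.posLog_eq_log (by rw [abs_of_nonneg (by linarith)]; exact h)]

theorem lp_nonneg (x : ℝ) : 0 ≤ lp x := Real.posLog_nonneg

theorem lp_mono (x y : ℝ) (h : x ≤ y) : lp x ≤ lp y := by
  unfold lp
  exact Real.monotoneOn_posLog (Set.mem_Ici.2 (le_max_right _ _)) (Set.mem_Ici.2 (le_max_right _ _))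
    (max_le_max_right 0 h)

/-- `log⁺ x - log⁺ (x/t)`. -/
def lt (t : ℝ) (x : ℝ) : ℝ := lp x - lp (x / t)

theorem lt_zero (t : ℝ) (ht : 1 ≤ t) (x : ℝ) (h : x ≤ 1) : lt t x = 0 := by
  unfold lt
  rw [lp_zero x h, lp_zero (x / t), sub_zero]
  rw [div_le_one (by linarith)]
  linarith

theorem lt_mono (t : ℝ) (ht : 1 ≤ t) (x y : ℝ) (hx : 0 ≤ x) (h : x ≤ y) : lt t x ≤ lt t y := by
  have ht0 : 0 < t := by linarith
  unfold lt
  rcases le_total x 1 with h1 | h1
  · rw [lp_zero x h1, lp_zero (x / t) (by rw [div_le_one ht0]; linarith), sub_zero]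
    have : lp (y / t) ≤ lp y := lp_mono _ _ (div_le_self (by linarith) ht)
    linarith
  · have hy1 : 1 ≤ y := by linarith
    rw [lp_log h1, lp_log hy1]
    rcases le_total (x / t) 1 with h2 | h2
    · rw [lp_zero _ h2]
      rcases le_total (y / t) 1 with h3 | h3
      · rw [lp_zero _ h3]
        have := Real.log_le_log (by linarith) h
        linarith
      · rw [lp_log h3, Real.log_div (by linarith) ht0.ne']
        have : Real.log x ≤ Real.log t := Real.log_le_log (by linarith) (by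
          rw [div_le_one ht0] at h2; exact h2)
        linarith
    · have h3 : 1 ≤ y / t := h2.trans (by gcongr)
      rw [lp_log h2, lp_log h3, Real.log_div (by linarith) ht0.ne',
        Real.log_div (by linarith) ht0.ne']
      linarith

theorem uu_lt (t : ℝ) (Z : ℕ) (y : ℝ) (r : ℕ) :
    uu (lt t) Z y r = uu lp Z y r - uu lp Z (y / t) r := by
  unfold uu lt
  rw [← sum_sub_distrib]
  refine sum_congr rfl fun d _ => ?_
  rw [div_right_comm y d t]
  ring

theorem uu_lp (Z : ℕ) (y : ℝ) (hy0 : 0 ≤ y) (hy : y ≤ Z) (r : ℕ) (hr : Squarefree r) :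
    uu lp Z y r = mu r / r * mP r.primeFactors (y / r) := by
  have hr0 : 0 < r := Nat.pos_of_ne_zero hr.ne_zero
  have hr' : (0 : ℝ) < r := by exact_mod_cast hr0
  unfold uu mP
  rw [sum_mult Z r hr0]
  have hfl : ⌊y / r⌋₊ ≤ Z / r := by
    rw [Nat.floor_div_natCast]
    apply Nat.div_le_div_right
    exact (Nat.floor_le_floor hy).trans (by rw [Nat.floor_natCast])
  have h1 : ∑ m ∈ Ioc 0 (Z / r), mu (r * m) * lp (y / ((r * m : ℕ) : ℝ)) / ((r * m : ℕ) : ℝ) =
      ∑ m ∈ Ioc 0 ⌊y / r⌋₊, mu (r * m) * lp (y / ((r * m : ℕ) : ℝ)) / ((r * m : ℕ) : ℝ) := by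
    symm
    apply sum_subset (Ioc_subset_Ioc_right hfl)
    intro m hm hm2
    rw [mem_Ioc] at hm hm2
    have hm3 : ⌊y / r⌋₊ < m := by omega
    have hm0 : (0 : ℝ) < m := by exact_mod_cast hm.1
    have h2 : y / r < m := (Nat.floor_lt (by positivity)).1 hm3
    rw [lp_zero, mul_zero, zero_div]
    push_cast
    rw [div_le_one (by positivity)]
    rw [div_lt_iff₀ hr'] at h2
    linarith
  rw [h1, sum_filter, mul_sum]
  refine sum_congr rfl fun m hm => ?_
  rw [mem_Ioc] at hm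
  have hm0 : (0 : ℝ) < m := by exact_mod_cast hm.1
  have hmy : (m : ℝ) ≤ y / r := (Nat.le_floor_iff (by positivity)).1 hm.2
  have hiff : (∀ p ∈ r.primeFactors, ¬ p ∣ m) ↔ Nat.Coprime r m := by
    constructor
    · intro h
      exact Nat.coprime_of_dvd fun k hk hkr => h k (Nat.mem_primeFactors.2 ⟨hk, hkr, hr.ne_zero⟩)
    · intro h p hp hpm
      have h1 := Nat.dvd_gcd (Nat.dvd_of_mem_primeFactors hp) hpm
      rw [Nat.Coprime.gcd_eq_one h] at h1
      exact (Nat.prime_of_mem_primeFactors hp).one_lt.ne' (Nat.dvd_one.1 h1)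
  by_cases hc : Nat.Coprime r m
  · rw [if_pos (hiff.2 hc)]
    have hmul : mu (r * m) = mu r * mu m := by
      unfold mu
      rw [ArithmeticFunction.isMultiplicative_moebius.map_mul_of_coprime hc]
      push_cast
      ring
    have hlog : lp (y / ((r * m : ℕ) : ℝ)) = Real.log (y / r / m) := by
      push_cast
      rw [← div_div, lp_log]
      rw [le_div_iff₀ hm0]
      linarith
    rw [hmul, hlog]
    push_cast
    field_simp
  · rw [if_neg (fun h => hc (hiff.1 h))]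
    have : mu (r * m) = 0 := by
      unfold mu
      rw [ArithmeticFunction.moebius_eq_zero_of_not_squarefree]
      · simp
      · intro hsq
        exact hc (Nat.squarefree_mul_iff.1 hsq).1
    rw [this]; ring

theorem uu_not_sqf (ℓ : ℝ → ℝ) (Z : ℕ) (y : ℝ) (r : ℕ) (hr : ¬ Squarefree r) :
    uu ℓ Z y r = 0 := by
  unfold uu
  apply sum_eq_zero
  intro d hd
  rw [mem_filter] at hd
  have : mu d = 0 := by
    unfold mu
    rw [ArithmeticFunction.moebius_eq_zero_of_not_squarefree]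
    · simp
    · intro hsq
      exact hr (hsq.squarefree_of_dvd hd.2)
  rw [this]; ring

theorem mu_sq (r : ℕ) (hr : Squarefree r) : mu r ^ 2 = 1 := by
  unfold mu
  have := ArithmeticFunction.moebius_sq_eq_one_of_squarefree hr
  exact_mod_cast this

/-- The quadratic form in terms of the function `F` with `u_r = μ(r) F(r)/r`. -/
theorem QQ_eq (ℓ : ℝ → ℝ) (Z : ℕ) (y : ℝ) (hy0 : 0 ≤ y) (hy : y ≤ Z) (F : ℕ → ℝ)
    (hF : ∀ r, Squarefree r → uu ℓ Z y r = mu r / r * F r)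
    (hF0 : ∀ r : ℕ, y < r → F r = 0) :
    QQ ℓ Z y = ∑ r ∈ (Ioc 0 ⌊y⌋₊).filter Squarefree, (Nat.totient r : ℝ) * (F r / r) ^ 2 := by
  unfold QQ
  rw [sum_filter]
  symm
  have hfl : ⌊y⌋₊ ≤ Z := (Nat.floor_le_floor hy).trans (by rw [Nat.floor_natCast])
  have h1 : ∑ r ∈ Ioc 0 ⌊y⌋₊, (if Squarefree r then (Nat.totient r : ℝ) * (F r / r) ^ 2 else 0) =
      ∑ r ∈ Ioc 0 Z, (if Squarefree r then (Nat.totient r : ℝ) * (F r / r) ^ 2 else 0) := by
    apply sum_subset (Ioc_subset_Ioc_right hfl)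
    intro r hr hr2
    rw [mem_Ioc] at hr hr2
    have h3 : ⌊y⌋₊ < r := by omega
    rw [hF0 r ((Nat.floor_lt hy0).1 h3)]
    simp
  rw [h1]
  refine sum_congr rfl fun r _ => ?_
  split_ifs with h
  · rw [hF r h]
    have := mu_sq r h
    rw [mul_pow, div_pow (mu r), this, div_pow]
    ring
  · rw [uu_not_sqf ℓ Z y r h]; ring

theorem gg_ge_one (P : Finset ℕ) (hP : ∀ q ∈ P, q.Prime) : 1 ≤ gg P := by
  unfold gg
  have h1 : ∏ p ∈ P, (1 : ℝ) ≤ ∏ p ∈ P, (1 - 1 / Real.sqrt p)⁻¹ := by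
    refine prod_le_prod (fun _ _ => zero_le_one) (fun q hq => ?_)
    obtain ⟨h1, h2, h3⟩ := sqrt_facts q (hP q hq)
    rw [one_le_inv₀ (by linarith)]
    linarith
  simpa using h1

theorem Q1 (ε : ℝ) (hε : 0 < ε) (hε1 : ε ≤ 1) : ∃ C : ℝ, 0 < C ∧ ∀ (Z : ℕ) (y : ℝ), 0 ≤ y → y ≤ Z →
    QQ lp Z y ≤ (1 + 7 * ε) * lp y + C := by
  obtain ⟨C, hC1, hC⟩ := mP_bound ε hε
  obtain ⟨C0, C1, hC0, hC1', hQL⟩ := QL
  set α := (1 + ε) ^ 3 with hα
  set β := (1 + 1 / ε) * C ^ 2 with hβ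
  have hα0 : 0 ≤ α := by positivity
  have hβ0 : 0 ≤ β := by positivity
  refine ⟨α * C0 + β * C1 + 1, by positivity, fun Z y hy0 hy => ?_⟩
  have hQ := QQ_eq lp Z y hy0 hy (fun r => mP r.primeFactors (y / r))
    (fun r hr => uu_lp Z y hy0 hy r hr) (fun r hr => mP_lt_one _ _ (by
      rw [div_lt_one (by linarith)]; exact hr))
  have hl : 0 ≤ lp y := lp_nonneg y
  rcases lt_or_ge y 1 with hy1 | hy1
  · rw [hQ, Nat.floor_eq_zero.2 hy1]
    simp only [Ioc_self, filter_empty, sum_empty]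
    positivity
  rw [hQ]
  refine (hQL _ y α β hy1 hα0 hβ0 ?_).trans ?_
  · intro r hr hsq hry
    have hr0 : (0 : ℝ) < r := by exact_mod_cast hr
    have hz : 1 ≤ y / r := by rw [le_div_iff₀ hr0]; linarith
    have h1 := hC r.primeFactors (fun q hq => Nat.prime_of_mem_primeFactors hq) (y / r) hz
    set h := hh r.primeFactors
    set g := gg r.primeFactors
    set z := y / r with hzdef
    have hz0 : 0 < z := by linarith
    have hh0 : 0 < h := hh_pos _ (fun q hq => Nat.prime_of_mem_primeFactors hq)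
    have hs : 0 < Real.sqrt z := Real.sqrt_pos.2 hz0
    have h2 : |mP r.primeFactors z| ≤ (1 + ε) * h + C * g / Real.sqrt z := by
      calc |mP r.primeFactors z| = |(mP r.primeFactors z - h) + h| := by ring_nf
        _ ≤ |mP r.primeFactors z - h| + |h| := abs_add_le _ _
        _ ≤ _ := by rw [abs_of_pos hh0]; linarith
    have h3 : mP r.primeFactors z ^ 2 ≤ ((1 + ε) * h + C * g / Real.sqrt z) ^ 2 := by
      rw [← sq_abs]
      gcongr
    have h4 : ((1 + ε) * h + C * g / Real.sqrt z) ^ 2 ≤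
        (1 + ε) * ((1 + ε) * h) ^ 2 + (1 + 1 / ε) * (C * g / Real.sqrt z) ^ 2 := by
      set a := (1 + ε) * h
      set b := C * g / Real.sqrt z
      have : (1 + ε) * a ^ 2 + (1 + 1 / ε) * b ^ 2 - (a + b) ^ 2 = (ε * a - b) ^ 2 / ε := by
        field_simp
        ring
      have h5 : 0 ≤ (ε * a - b) ^ 2 / ε := by positivity
      linarith
    have h5 : (1 + 1 / ε) * (C * g / Real.sqrt z) ^ 2 = β * (g ^ 2 * (r / y)) := by
      rw [div_pow, Real.sq_sqrt hz0.le, hβ, hzdef]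
      field_simp
    calc mP r.primeFactors z ^ 2 ≤ _ := h3
      _ ≤ _ := h4
      _ = α * h ^ 2 + β * (g ^ 2 * (r / y)) := by rw [h5, hα]; ring
  · rw [lp_log hy1]
    have hlog : 0 ≤ Real.log y := Real.log_nonneg hy1
    have hα2 : α ≤ 1 + 7 * ε := by
      rw [hα]
      have h1 : ε ^ 2 ≤ ε := by nlinarith
      have h2 : ε ^ 3 ≤ ε := by nlinarith
      nlinarith
    nlinarith

theorem aux_Q2 {m m' h g C ε t z : ℝ} (hg : 1 ≤ g) (hC : 1 ≤ C) (ht : 1 ≤ t)
    (hz : 0 < z) (h1 : |m - h| ≤ ε * h + C * g / Real.sqrt z)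
    (h2 : |m' - h| ≤ ε * h + C * g / Real.sqrt (z / t)) :
    (m - m') ^ 2 ≤ 8 * ε ^ 2 * h ^ 2 + 8 * C ^ 2 * t * (g ^ 2 * (1 / z)) := by
  have ht0 : 0 < t := by linarith
  have est : Real.sqrt (z / t) = Real.sqrt z / Real.sqrt t := Real.sqrt_div hz.le t
  have hst : 1 ≤ Real.sqrt t := Real.one_le_sqrt.2 ht
  have hs : 0 < Real.sqrt z := Real.sqrt_pos.2 hz
  have hCg : 0 < C * g := by positivity
  have h5 : C * g / Real.sqrt z ≤ C * g * Real.sqrt t / Real.sqrt z :=
    div_le_div_of_nonneg_right (by nlinarith) hs.le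
  have h6 : C * g / Real.sqrt (z / t) = C * g * Real.sqrt t / Real.sqrt z := by
    rw [est]; field_simp
  rw [h6] at h2
  have h9 : (C * g * Real.sqrt t / Real.sqrt z) ^ 2 = C ^ 2 * t * (g ^ 2 * (1 / z)) := by
    rw [div_pow, mul_pow, mul_pow, Real.sq_sqrt ht0.le, Real.sq_sqrt hz.le]
    ring
  set b := C * g * Real.sqrt t / Real.sqrt z with hb
  have h4 : |m - m'| ≤ |m - h| + |h - m'| := abs_sub_le _ _ _
  rw [abs_sub_comm h] at h4
  have h3 : |m - m'| ≤ 2 * (ε * h) + 2 * b := by linarith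
  have h7 : (m - m') ^ 2 ≤ (2 * (ε * h) + 2 * b) ^ 2 := by
    rw [← sq_abs (m - m')]
    exact pow_le_pow_left₀ (abs_nonneg _) h3 2
  have h8 : (2 * (ε * h) + 2 * b) ^ 2 ≤ 8 * (ε * h) ^ 2 + 8 * b ^ 2 := by
    nlinarith [sq_nonneg ((ε * h) - b)]
  rw [h9] at h8
  nlinarith

theorem aux_triv (P : Finset ℕ) (z t : ℝ) (hz : 1 ≤ z) (hzt : z < t) :
    |mP P z| ≤ t * Real.log t := by
  have hz0 : 0 < z := by linarith
  have hlt : 0 ≤ Real.log t := Real.log_nonneg (by linarith)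
  unfold mP
  refine (abs_sum_le_sum_abs _ _).trans ?_
  have : ∀ s ∈ (Ioc 0 ⌊z⌋₊).filter (fun s => ∀ p ∈ P, ¬ p ∣ s),
      |mu s / s * Real.log (z / s)| ≤ Real.log t := by
    intro s hs
    rw [mem_filter, mem_Ioc] at hs
    have hs0 : (0 : ℝ) < s := by exact_mod_cast hs.1.1
    have hs1 : (1 : ℝ) ≤ s := by exact_mod_cast hs.1.1
    have hsz' : (s : ℝ) ≤ z := (Nat.cast_le.2 hs.1.2).trans (Nat.floor_le (by linarith))
    have hl0 : 0 ≤ Real.log (z / s) := Real.log_nonneg (by rw [le_div_iff₀ hs0]; linarith)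
    have hl1 : Real.log (z / s) ≤ Real.log t := by
      apply Real.log_le_log (by positivity)
      rw [div_le_iff₀ hs0]
      nlinarith
    rw [abs_mul, abs_div, abs_of_pos hs0, abs_of_nonneg hl0]
    calc |mu s| / s * Real.log (z / s) ≤ 1 / 1 * Real.log t := by
          gcongr
          exact abs_mu_le s
      _ = _ := by ring
  refine (sum_le_sum this).trans ?_
  rw [sum_const, nsmul_eq_mul]
  have hcard : (((Ioc 0 ⌊z⌋₊).filter (fun s => ∀ p ∈ P, ¬ p ∣ s)).card : ℝ) ≤ t := by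
    calc (((Ioc 0 ⌊z⌋₊).filter (fun s => ∀ p ∈ P, ¬ p ∣ s)).card : ℝ) ≤
          ((Ioc 0 ⌊z⌋₊).card : ℝ) := by exact_mod_cast card_filter_le _ _
      _ = (⌊z⌋₊ : ℝ) := by rw [Nat.card_Ioc]; simp
      _ ≤ z := Nat.floor_le hz0.le
      _ ≤ t := hzt.le
  gcongr

theorem Q2 (t : ℝ) (ht : 1 ≤ t) (ε : ℝ) (hε : 0 < ε) : ∃ C : ℝ, 0 < C ∧ ∀ (Z : ℕ) (y : ℝ),
    0 ≤ y → y ≤ Z → QQ (lt t) Z y ≤ 8 * ε ^ 2 * lp y + C := by
  obtain ⟨C, hC1, hC⟩ := mP_bound ε hε
  obtain ⟨C0, C1, hC0, hC1', hQL⟩ := QL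
  have ht0 : 0 < t := by linarith
  have hlt : 0 ≤ Real.log t := Real.log_nonneg ht
  set α := 8 * ε ^ 2 with hα
  set T := t * Real.log t with hT
  have hT0 : 0 ≤ T := by positivity
  set β := 8 * C ^ 2 * t + T ^ 2 * t with hβ
  have hα0 : 0 ≤ α := by positivity
  have hβ0 : 0 ≤ β := by positivity
  refine ⟨α * C0 + β * C1 + 1, by positivity, fun Z y hy0 hy => ?_⟩
  have hyt : y / t ≤ y := div_le_self hy0 ht
  have hQ := QQ_eq (lt t) Z y hy0 hy
    (fun r => mP r.primeFactors (y / r) - mP r.primeFactors (y / t / r))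
    (fun r hr => by
      rw [uu_lt, uu_lp Z y hy0 hy r hr, uu_lp Z (y / t) (by positivity) (hyt.trans hy) r hr]
      ring)
    (fun r hr => by
      have hr0 : (0 : ℝ) < r := by linarith
      rw [mP_lt_one _ _ (by rw [div_lt_one hr0]; exact hr),
        mP_lt_one _ _ (by rw [div_lt_one hr0]; linarith), sub_zero])
  have hl : 0 ≤ lp y := lp_nonneg y
  rcases lt_or_ge y 1 with hy1 | hy1
  · rw [hQ, Nat.floor_eq_zero.2 hy1]
    simp only [Ioc_self, filter_empty, sum_empty]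
    positivity
  rw [hQ]
  refine (hQL _ y α β hy1 hα0 hβ0 ?_).trans ?_
  · intro r hr hsq hry
    have hr0 : (0 : ℝ) < r := by exact_mod_cast hr
    have hz : 1 ≤ y / r := by rw [le_div_iff₀ hr0]; linarith
    have hPr : ∀ q ∈ r.primeFactors, q.Prime := fun q hq => Nat.prime_of_mem_primeFactors hq
    have h1 := hC r.primeFactors hPr (y / r) hz
    have e1 : y / t / r = y / r / t := by rw [div_right_comm]
    rw [e1]
    have hh0 : 0 < hh r.primeFactors := hh_pos _ hPr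
    have hg1 : 1 ≤ gg r.primeFactors := gg_ge_one _ hPr
    have ery : (r : ℝ) / y = 1 / (y / r) := by field_simp
    rw [ery]
    have hbeta : ∀ x : ℝ, β * x = 8 * C ^ 2 * t * x + T ^ 2 * t * x := fun x => by
      rw [hβ]; ring
    rw [hbeta]
    rcases lt_or_ge (y / r) t with hzt | hzt
    · rw [mP_lt_one _ (y / r / t) (by rw [div_lt_one ht0]; exact hzt), sub_zero]
      have h2 := aux_triv r.primeFactors (y / r) t hz hzt
      have h3 : mP r.primeFactors (y / r) ^ 2 ≤ T ^ 2 := by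
        rw [← sq_abs (mP r.primeFactors (y / r))]
        exact pow_le_pow_left₀ (abs_nonneg _) h2 2
      have hz0 : 0 < y / r := by linarith
      have h5 : 1 ≤ t * (gg r.primeFactors ^ 2 * (1 / (y / r))) := by
        have h6 : 1 ≤ t / (y / r) := by rw [le_div_iff₀ hz0]; linarith
        have h7 : 1 ≤ gg r.primeFactors ^ 2 := by nlinarith
        calc (1 : ℝ) = 1 * 1 := by ring
          _ ≤ (t / (y / r)) * gg r.primeFactors ^ 2 := by
              apply mul_le_mul h6 h7 zero_le_one (by linarith)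
          _ = _ := by ring
      have h4 : T ^ 2 ≤ T ^ 2 * t * (gg r.primeFactors ^ 2 * (1 / (y / r))) := by
        have := mul_le_mul_of_nonneg_left h5 (sq_nonneg T)
        linarith
      have h5 : 0 ≤ α * hh r.primeFactors ^ 2 := mul_nonneg hα0 (sq_nonneg _)
      have h6 : 0 ≤ 8 * C ^ 2 * t * (gg r.primeFactors ^ 2 * (1 / (y / r))) := by positivity
      linarith
    · have hzt1 : 1 ≤ y / r / t := by rw [le_div_iff₀ ht0]; linarith
      have h2 := hC r.primeFactors hPr (y / r / t) hzt1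
      have h3 := aux_Q2 hg1 hC1 ht (by linarith : 0 < y / r) h1 h2
      have h10 : 0 ≤ T ^ 2 * t * (gg r.primeFactors ^ 2 * (1 / (y / r))) := by positivity
      linarith
  · rw [lp_log hy1]
    have hlog : 0 ≤ Real.log y := Real.log_nonneg hy1
    nlinarith

end

end Pool.Agent.E8helper88
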