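import Mathlib

set_option autoImplicit false

open Finset

namespace Pool.Agent.E8helper88

noncomputable section

/-- The Moebius function with real values. -/
def mu (n : ℕ) : ℝ := ((ArithmeticFunction.moebius n : ℤ) : ℝ)

/-- Ramanujan's sum `c_r(n)`. -/
def ram (r n : ℕ) : ℝ :=
  ∑ x ∈ r.divisorsAntidiagonal, mu x.1 * (if x.2 ∣ n then (x.2 : ℝ) else 0)

/-- The sum of divisors, with real values. -/
def sg (r : ℕ) : ℝ := ∑ e ∈ r.divisors, (e : ℝ)

theorem sg_nonneg (r : ℕ) : 0 ≤ sg r := sum_nonneg fun _ _ => Nat.cast_nonneg _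

theorem abs_mu_le (n : ℕ) : |mu n| ≤ 1 := by
  unfold mu
  have h := ArithmeticFunction.abs_moebius_le_one (n := n)
  have h2 : ((|ArithmeticFunction.moebius n| : ℤ) : ℝ) ≤ ((1 : ℤ) : ℝ) := Int.cast_le.2 h
  rw [Int.cast_abs] at h2
  simpa using h2

theorem inversion (f g : ℕ → ℝ) (h : ∀ n, 0 < n → ∑ i ∈ n.divisors, f i = g n) (n : ℕ)
    (hn : 0 < n) : ∑ x ∈ n.divisorsAntidiagonal, mu x.1 * g x.2 = f n :=
  (ArithmeticFunction.sum_eq_iff_sum_mul_moebius_eq (R := ℝ) (f := f) (g := g)).1 h n hn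

theorem sum_ram (d n : ℕ) (hd : 0 < d) :
    ∑ r ∈ d.divisors, ram r n = if d ∣ n then (d : ℝ) else 0 :=
  (ArithmeticFunction.sum_eq_iff_sum_mul_moebius_eq (R := ℝ) (f := fun r => ram r n)
    (g := fun e => if e ∣ n then (e : ℝ) else 0)).2 (fun _ _ => rfl) d hd

theorem sum_anti_snd (r : ℕ) : ∑ x ∈ r.divisorsAntidiagonal, (x.2 : ℝ) = sg r := by
  have := Nat.sum_divisorsAntidiagonal' (n := r) (f := fun _ b => (b : ℝ))
  exact this

theorem gcd_inversion (r d : ℕ) (hr : 0 < r) :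
    ∑ x ∈ r.divisorsAntidiagonal, mu x.1 * (Nat.gcd d x.2 : ℝ) =
      if r ∣ d then (Nat.totient r : ℝ) else 0 := by
  refine inversion (fun i => if i ∣ d then (Nat.totient i : ℝ) else 0)
    (fun e => (Nat.gcd d e : ℝ)) ?_ r hr
  intro e he
  rw [← sum_filter]
  have h1 : e.divisors.filter (fun i => i ∣ d) = (Nat.gcd d e).divisors := by
    ext i
    simp only [mem_filter, Nat.mem_divisors]
    constructor
    · rintro ⟨⟨h1, h2⟩, h3⟩
      exact ⟨Nat.dvd_gcd h3 h1, Nat.gcd_ne_zero_right h2⟩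
    · rintro ⟨h1, h2⟩
      exact ⟨⟨h1.trans (Nat.gcd_dvd_right _ _), he.ne'⟩, h1.trans (Nat.gcd_dvd_left _ _)⟩
  rw [h1, ← Nat.cast_sum, Nat.sum_totient]

theorem ind_inversion (r s : ℕ) (hr : 0 < r) :
    ∑ x ∈ r.divisorsAntidiagonal, mu x.1 * (if s ∣ x.2 then (1 : ℝ) else 0) =
      if r = s then 1 else 0 := by
  refine inversion (fun i => if i = s then (1 : ℝ) else 0)
    (fun e => if s ∣ e then (1 : ℝ) else 0) ?_ r hr
  intro e he
  rw [sum_ite_eq']
  simp [he.ne']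

theorem card_mult (N l : ℕ) : ((Ioc 0 N).filter (fun m => l ∣ m)).card = N / l :=
  Nat.Ioc_filter_dvd_card_eq_div N l

theorem abs_floor_sub (N l : ℕ) (hl : 0 < l) : |((N / l : ℕ) : ℝ) - (N : ℝ) / l| ≤ 1 := by
  have hl' : (0 : ℝ) < l := by exact_mod_cast hl
  have h1 : ((N / l : ℕ) : ℝ) ≤ (N : ℝ) / l := Nat.cast_div_le
  have h2 : (N : ℝ) / l < ((N / l : ℕ) : ℝ) + 1 := by
    rw [div_lt_iff₀ hl']
    have h := Nat.lt_div_mul_add (a := N) hl
    have : N < (N / l + 1) * l := by nlinarith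
    exact_mod_cast this
  rw [abs_le]
  constructor <;> linarith

theorem ram_sum_dvd (N d r : ℕ) (hd : 0 < d) (hr : 0 < r) :
    |∑ m ∈ (Ioc 0 N).filter (fun m => d ∣ m), ram r m -
      (N : ℝ) / d * (if r ∣ d then (Nat.totient r : ℝ) else 0)| ≤ sg r := by
  have hd' : (0 : ℝ) < d := by exact_mod_cast hd
  have e1 : ∑ m ∈ (Ioc 0 N).filter (fun m => d ∣ m), ram r m =
      ∑ x ∈ r.divisorsAntidiagonal, mu x.1 * (x.2 * ((N / Nat.lcm d x.2 : ℕ) : ℝ)) := by
    unfold ram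
    rw [sum_comm]
    refine sum_congr rfl fun x _ => ?_
    rw [← mul_sum, ← sum_filter, filter_filter, sum_const, nsmul_eq_mul]
    have : (Ioc 0 N).filter (fun m => d ∣ m ∧ x.2 ∣ m) =
        (Ioc 0 N).filter (fun m => Nat.lcm d x.2 ∣ m) := by
      refine filter_congr fun m _ => ?_
      rw [Nat.lcm_dvd_iff]
    rw [this, card_mult]
    ring
  rw [e1, ← gcd_inversion r d hr, mul_sum, ← sum_sub_distrib, ← sum_anti_snd]
  refine (abs_sum_le_sum_abs _ _).trans (sum_le_sum fun x hx => ?_)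
  have hx2 : 0 < x.2 := Nat.pos_of_mem_divisors (Nat.snd_mem_divisors_of_mem_antidiagonal hx)
  have hx2' : (0 : ℝ) < x.2 := by exact_mod_cast hx2
  have hl : 0 < Nat.lcm d x.2 := Nat.lcm_pos hd hx2
  have hl' : (0 : ℝ) < (Nat.lcm d x.2 : ℕ) := by exact_mod_cast hl
  have e2 : (N : ℝ) / d * (mu x.1 * (Nat.gcd d x.2 : ℝ)) =
      mu x.1 * (x.2 * ((N : ℝ) / (Nat.lcm d x.2 : ℕ))) := by
    have h := Nat.gcd_mul_lcm d x.2
    have h' : ((Nat.gcd d x.2 : ℕ) : ℝ) * (Nat.lcm d x.2 : ℕ) = d * x.2 := by exact_mod_cast h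
    have h2 : ((Nat.gcd d x.2 : ℕ) : ℝ) / d = x.2 / (Nat.lcm d x.2 : ℕ) := by
      rw [div_eq_div_iff hd'.ne' hl'.ne', h']
      ring
    calc (N : ℝ) / d * (mu x.1 * (Nat.gcd d x.2 : ℝ)) =
          mu x.1 * N * (((Nat.gcd d x.2 : ℕ) : ℝ) / d) := by ring
      _ = _ := by rw [h2]; ring
  rw [e2, ← mul_sub, ← mul_sub, abs_mul, abs_mul, abs_of_pos hx2']
  calc |mu x.1| * ((x.2 : ℝ) * |((N / Nat.lcm d x.2 : ℕ) : ℝ) - (N : ℝ) / (Nat.lcm d x.2 : ℕ)|)
      ≤ 1 * ((x.2 : ℝ) * 1) := by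
        gcongr
        · exact abs_mu_le _
        · exact abs_floor_sub N _ hl
    _ = x.2 := by ring

theorem ram_ram (N r s : ℕ) (hr : 0 < r) (hs : 0 < s) :
    |∑ m ∈ Ioc 0 N, ram r m * ram s m - (if r = s then (N : ℝ) * Nat.totient r else 0)| ≤
      sg r * sg s := by
  have e1 : ∑ m ∈ Ioc 0 N, ram r m * ram s m =
      ∑ x ∈ r.divisorsAntidiagonal, mu x.1 * (x.2 *
        ∑ m ∈ (Ioc 0 N).filter (fun m => x.2 ∣ m), ram s m) := by
    have : ∀ m, ram r m * ram s m = ∑ x ∈ r.divisorsAntidiagonal,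
        mu x.1 * (if x.2 ∣ m then (x.2 : ℝ) * ram s m else 0) := by
      intro m
      conv_lhs => rw [ram, sum_mul]
      refine sum_congr rfl fun x _ => ?_
      split_ifs <;> ring
    simp only [this]
    rw [sum_comm]
    refine sum_congr rfl fun x _ => ?_
    rw [← mul_sum, ← sum_filter, ← mul_sum]
  have e2 : (if r = s then (N : ℝ) * Nat.totient r else 0) =
      ∑ x ∈ r.divisorsAntidiagonal, mu x.1 * (x.2 *
        ((N : ℝ) / x.2 * (if s ∣ x.2 then (Nat.totient s : ℝ) else 0))) := by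
    have h := ind_inversion r s hr
    have : (if r = s then (N : ℝ) * Nat.totient r else 0) =
        (N : ℝ) * Nat.totient s * (if r = s then 1 else 0) := by
      split_ifs with h
      · rw [h]; ring
      · ring
    rw [this, ← h, mul_sum]
    refine sum_congr rfl fun x hx => ?_
    have hx2 : 0 < x.2 := Nat.pos_of_mem_divisors (Nat.snd_mem_divisors_of_mem_antidiagonal hx)
    have hx2' : (0 : ℝ) < x.2 := by exact_mod_cast hx2
    split_ifs
    · field_simp
    · ring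
  rw [e1, e2, ← sum_sub_distrib]
  refine (abs_sum_le_sum_abs _ _).trans ?_
  rw [← sum_anti_snd r, sum_mul]
  refine sum_le_sum fun x hx => ?_
  have hx2 : 0 < x.2 := Nat.pos_of_mem_divisors (Nat.snd_mem_divisors_of_mem_antidiagonal hx)
  have hx2' : (0 : ℝ) < x.2 := by exact_mod_cast hx2
  rw [← mul_sub, ← mul_sub, abs_mul, abs_mul, abs_of_pos hx2']
  have h := ram_sum_dvd N x.2 s hx2 hs
  calc |mu x.1| * ((x.2 : ℝ) * |_|) ≤ 1 * ((x.2 : ℝ) * sg s) := by
        gcongr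
        exact abs_mu_le _
    _ = x.2 * sg s := by ring

/-- `∑_{m ≤ N, p ∣ m} Λ(m) ≤ log N`. -/
theorem vm_prime_mult (N p : ℕ) (hp : p.Prime) (hN : 1 ≤ N) :
    ∑ m ∈ (Ioc 0 N).filter (fun m => p ∣ m), ArithmeticFunction.vonMangoldt m ≤ Real.log N := by
  have h1 : ∑ m ∈ (Ioc 0 N).filter (fun m => p ∣ m), ArithmeticFunction.vonMangoldt m ≤
      ∑ m ∈ (Icc 1 (Nat.log p N)).image (fun j => p ^ j), ArithmeticFunction.vonMangoldt m := by
    have h2 : ∑ m ∈ (Ioc 0 N).filter (fun m => p ∣ m), ArithmeticFunction.vonMangoldt m =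
        ∑ m ∈ ((Ioc 0 N).filter (fun m => p ∣ m)).filter
          (fun m => ArithmeticFunction.vonMangoldt m ≠ 0), ArithmeticFunction.vonMangoldt m := by
      rw [sum_filter_ne_zero]
    rw [h2]
    refine sum_le_sum_of_subset_of_nonneg ?_ fun m _ _ => ArithmeticFunction.vonMangoldt_nonneg
    intro m hm
    simp only [mem_filter, mem_Ioc, ne_eq] at hm
    obtain ⟨⟨⟨hm0, hmN⟩, hpm⟩, hv⟩ := hm
    rw [ArithmeticFunction.vonMangoldt_eq_zero_iff, not_not] at hv
    obtain ⟨q, j, hq, hj, rfl⟩ := (isPrimePow_nat_iff _).1 hv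
    have hpq : p = q := (Nat.prime_dvd_prime_iff_eq hp hq).1 (hp.dvd_of_dvd_pow hpm)
    subst hpq
    simp only [mem_image, mem_Icc]
    exact ⟨j, ⟨hj, (Nat.le_log_iff_pow_le hp.one_lt (by omega)).2 hmN⟩, rfl⟩
  refine h1.trans ?_
  rw [sum_image (fun a _ b _ h => Nat.pow_right_injective hp.two_le h)]
  have h3 : ∑ j ∈ Icc 1 (Nat.log p N), ArithmeticFunction.vonMangoldt (p ^ j) =
      (Nat.log p N : ℝ) * Real.log p := by
    rw [sum_congr rfl (g := fun _ => Real.log p)]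
    · simp
    · intro j hj
      rw [mem_Icc] at hj
      rw [ArithmeticFunction.vonMangoldt_apply_pow (by omega),
        ArithmeticFunction.vonMangoldt_apply_prime hp]
  rw [h3, ← Real.log_pow]
  refine Real.log_le_log (by have := hp.pos; positivity) ?_
  exact_mod_cast Nat.pow_log_le_self p (by omega)

theorem vm_mult (N e : ℕ) (he : 1 < e) (hN : 1 ≤ N) :
    ∑ m ∈ (Ioc 0 N).filter (fun m => e ∣ m), ArithmeticFunction.vonMangoldt m ≤ Real.log N := by
  refine le_trans ?_ (vm_prime_mult N e.minFac (Nat.minFac_prime he.ne') hN)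
  refine sum_le_sum_of_subset_of_nonneg ?_ fun m _ _ => ArithmeticFunction.vonMangoldt_nonneg
  intro m hm
  rw [mem_filter] at hm ⊢
  exact ⟨hm.1, (Nat.minFac_dvd e).trans hm.2⟩

theorem vm_ram (N r : ℕ) (hr : 0 < r) (hN : 1 ≤ N) :
    |∑ m ∈ Ioc 0 N, ArithmeticFunction.vonMangoldt m * ram r m -
      mu r * ∑ m ∈ Ioc 0 N, ArithmeticFunction.vonMangoldt m| ≤ sg r * Real.log N := by
  have e1 : ∑ m ∈ Ioc 0 N, ArithmeticFunction.vonMangoldt m * ram r m =
      ∑ x ∈ r.divisorsAntidiagonal, mu x.1 * (x.2 *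
        ∑ m ∈ (Ioc 0 N).filter (fun m => x.2 ∣ m), ArithmeticFunction.vonMangoldt m) := by
    have : ∀ m, ArithmeticFunction.vonMangoldt m * ram r m = ∑ x ∈ r.divisorsAntidiagonal,
        mu x.1 * (if x.2 ∣ m then (x.2 : ℝ) * ArithmeticFunction.vonMangoldt m else 0) := by
      intro m
      conv_lhs => rw [ram, mul_sum]
      refine sum_congr rfl fun x _ => ?_
      split_ifs <;> ring
    simp only [this]
    rw [sum_comm]
    refine sum_congr rfl fun x _ => ?_
    rw [← mul_sum, ← sum_filter, ← mul_sum]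
  have e2 : mu r * ∑ m ∈ Ioc 0 N, ArithmeticFunction.vonMangoldt m =
      ∑ x ∈ r.divisorsAntidiagonal, mu x.1 * (x.2 *
        (if x.2 = 1 then ∑ m ∈ Ioc 0 N, ArithmeticFunction.vonMangoldt m else 0)) := by
    rw [sum_eq_single (r, 1)]
    · simp
    · intro x hx hne
      have : x.2 ≠ 1 := by
        intro h
        apply hne
        rw [Nat.mem_divisorsAntidiagonal] at hx
        ext
        · rw [← hx.1, h]; simp
        · exact h
      rw [if_neg this]; ring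
    · intro h
      exfalso; apply h
      rw [Nat.mem_divisorsAntidiagonal]
      exact ⟨by simp, hr.ne'⟩
  rw [e1, e2, ← sum_sub_distrib]
  refine (abs_sum_le_sum_abs _ _).trans ?_
  rw [← sum_anti_snd r, sum_mul]
  refine sum_le_sum fun x hx => ?_
  have hx2 : 0 < x.2 := Nat.pos_of_mem_divisors (Nat.snd_mem_divisors_of_mem_antidiagonal hx)
  have hx2' : (0 : ℝ) < x.2 := by exact_mod_cast hx2
  have hlog : 0 ≤ Real.log N := Real.log_natCast_nonneg N
  rw [← mul_sub, ← mul_sub, abs_mul, abs_mul, abs_of_pos hx2']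
  have h : |∑ m ∈ (Ioc 0 N).filter (fun m => x.2 ∣ m), ArithmeticFunction.vonMangoldt m -
      (if x.2 = 1 then ∑ m ∈ Ioc 0 N, ArithmeticFunction.vonMangoldt m else 0)| ≤
      Real.log N := by
    by_cases h1 : x.2 = 1
    · rw [if_pos h1, h1]
      simp only [one_dvd, filter_true, sub_self, abs_zero]
      exact hlog
    · rw [if_neg h1, sub_zero, abs_of_nonneg
        (sum_nonneg fun _ _ => ArithmeticFunction.vonMangoldt_nonneg)]
      exact vm_mult N x.2 (by omega) hN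
  calc |mu x.1| * ((x.2 : ℝ) * |_|) ≤ 1 * ((x.2 : ℝ) * Real.log N) := by
        gcongr
        exact abs_mu_le _
    _ = x.2 * Real.log N := by ring

end

end Pool.Agent.E8helper88
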