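import Pool.Agent.E8helper88.QForm
import Pool.Agent.H353R2.Z2

set_option autoImplicit false

open Finset

namespace Pool.Agent.E8helper88

noncomputable section

open H343.PhiSum (rd rd_pos rd_dvd rd_sqf rd_squarefree primeFactors_rd)

theorem AA_cA (R n : ℕ) (hn : 0 < n) : AA R n = cA lp R n := by
  rw [cA_eq lp lp_zero (R : ℝ) n R hn le_rfl]
  unfold AA
  refine sum_congr rfl fun d hd => ?_
  rw [mem_filter, mem_Ioc] at hd
  have hd0 : (0 : ℝ) < d := by exact_mod_cast hd.1.1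
  have hdR : (d : ℝ) ≤ R := by exact_mod_cast hd.1.2
  rw [lp_log (by rw [le_div_iff₀ hd0]; linarith)]

theorem log_sub_lp (x : ℝ) (hx : 0 < x) : Real.log x - lp x = - lp (x⁻¹) := by
  rw [lp_of_nonneg hx.le, lp_of_nonneg (inv_nonneg.2 hx.le), ← Real.posLog_sub_posLog_inv]
  ring

/-- `∑_{d ∣ n} μ(d) log⁺(d/R)`. -/
def VV (R n : ℕ) : ℝ := ∑ d ∈ n.divisors, mu d * lp ((d : ℝ) / R)

theorem vm_sub_AA (R n : ℕ) (hR : 0 < R) (hn : 1 < n) :
    ArithmeticFunction.vonMangoldt n - AA R n = - VV R n := by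
  have hR' : (0 : ℝ) < R := by exact_mod_cast hR
  have h1 : ArithmeticFunction.vonMangoldt n = ∑ d ∈ n.divisors, mu d * Real.log ((R : ℝ) / d) := by
    have h2 : ∀ d ∈ n.divisors, mu d * Real.log ((R : ℝ) / d) =
        mu d * Real.log R - mu d * Real.log d := by
      intro d hd
      have hd0 : (d : ℝ) ≠ 0 := by
        have := Nat.pos_of_mem_divisors hd
        positivity
      rw [Real.log_div hR'.ne' hd0]; ring
    rw [sum_congr rfl h2, sum_sub_distrib, ← sum_mul, sum_mu_divisors n, if_neg hn.ne', zero_mul]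
    have h3 := ArithmeticFunction.sum_moebius_mul_log_eq (n := n)
    simp only [ArithmeticFunction.log_apply] at h3
    unfold mu
    rw [h3]; ring
  rw [h1, AA_cA R n (by omega)]
  unfold cA VV
  rw [← sum_sub_distrib, ← sum_neg_distrib]
  refine sum_congr rfl fun d hd => ?_
  have hd0 : (0 : ℝ) < d := by
    have := Nat.pos_of_mem_divisors hd
    exact_mod_cast this
  rw [← mul_sub, log_sub_lp _ (by positivity), inv_div]
  ring

theorem sum_rad (n : ℕ) (hn : 0 < n) (F : ℕ → ℝ) :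
    ∑ d ∈ n.divisors, mu d * F d = ∑ d ∈ (rd n).divisors, mu d * F d := by
  symm
  apply sum_subset
  · intro d hd
    rw [Nat.mem_divisors] at hd ⊢
    exact ⟨hd.1.trans (rd_dvd n), hn.ne'⟩
  · intro d hd hd2
    rw [Nat.mem_divisors] at hd hd2
    have : mu d = 0 := by
      unfold mu
      rw [ArithmeticFunction.moebius_eq_zero_of_not_squarefree]
      · simp
      · intro hsq
        apply hd2
        refine ⟨?_, (rd_pos n).ne'⟩
        rw [← Nat.prod_primeFactors_of_squarefree hsq]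
        exact prod_dvd_prod_of_subset _ _ _ (Nat.primeFactors_mono hd.1 hn.ne')
    rw [this, zero_mul]

theorem mu_mul (a b : ℕ) (h : Nat.Coprime a b) : mu (a * b) = mu a * mu b := by
  unfold mu
  rw [ArithmeticFunction.isMultiplicative_moebius.map_mul_of_coprime h]
  push_cast
  ring

theorem flip (b : ℕ) (hb : Squarefree b) (F : ℕ → ℝ) :
    ∑ d ∈ b.divisors, mu d * F d = mu b * ∑ d ∈ b.divisors, mu d * F (b / d) := by
  rw [← Nat.sum_div_divisors, mul_sum]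
  refine sum_congr rfl fun d hd => ?_
  have hdvd : d ∣ b := Nat.dvd_of_mem_divisors hd
  obtain ⟨e, rfl⟩ := hdvd
  have hd0 : 0 < d := Nat.pos_of_mem_divisors hd
  rw [Nat.mul_div_cancel_left e hd0]
  have hc : Nat.Coprime d e := (Nat.squarefree_mul_iff.1 hb).1
  have hd2 : Squarefree d := (Nat.squarefree_mul_iff.1 hb).2.1
  rw [mu_mul d e hc]
  have := mu_sq d hd2
  calc mu e * F e = mu d ^ 2 * (mu e * F e) := by rw [this, one_mul]
    _ = _ := by ring

theorem cop_sum (m n : ℕ) (h : Nat.Coprime m n) (f : ℕ → ℝ) :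
    ∑ d ∈ (m * n).divisors, f d = ∑ v ∈ m.divisors, ∑ d ∈ n.divisors, f (v * d) := by
  rw [Nat.divisors_mul, Finset.mul_def, sum_image h.mul_injOn_divisors, sum_product]

theorem cA_rad (ℓ : ℝ → ℝ) (y : ℝ) (n : ℕ) (hn : 0 < n) : cA ℓ y (rd n) = cA ℓ y n := by
  unfold cA
  exact (sum_rad n hn (fun d => ℓ (y / d))).symm

theorem VV_rad (R n : ℕ) (hn : 0 < n) :
    VV R n = mu (rd n) * cA lp ((rd n : ℝ) / R) n := by
  unfold VV
  rw [sum_rad n hn (fun d => lp ((d : ℝ) / R)), flip (rd n) (rd_squarefree n), ← cA_rad _ _ n hn]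
  congr 1
  unfold cA
  refine sum_congr rfl fun d hd => ?_
  have hd0 : (d : ℝ) ≠ 0 := by
    have := Nat.pos_of_mem_divisors hd
    positivity
  rw [Nat.cast_div (Nat.dvd_of_mem_divisors hd) hd0]
  congr 2
  ring

theorem VV_sq_rad (R n : ℕ) (hn : 0 < n) : VV R n ^ 2 = cA lp ((rd n : ℝ) / R) n ^ 2 := by
  rw [VV_rad R n hn, mul_pow, mu_sq _ (rd_squarefree n), one_mul]

/-- For small `n / rad n`. -/
theorem VV_small (R n T : ℕ) (hR : 0 < R) (hn : 0 < n) (hT : n / rd n ≤ T) (ε : ℝ) (hε : 0 < ε) :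
    VV R n ^ 2 ≤ (1 + ε) * cA lp (1 / R * n) n ^ 2 +
      (1 + 1 / ε) * ∑ t ∈ Ioc 0 T, cA (lt t) (1 / R * n) n ^ 2 := by
  have hR' : (0 : ℝ) < R := by exact_mod_cast hR
  set t := n / rd n with ht
  have hmul : n = t * rd n := by
    rw [ht, Nat.div_mul_cancel (rd_dvd n)]
  have ht0 : 0 < t := by
    apply Nat.pos_of_ne_zero
    intro h
    rw [h, zero_mul] at hmul
    omega
  have ht' : (0 : ℝ) < t := by exact_mod_cast ht0
  have hrd : (0 : ℝ) < rd n := by exact_mod_cast rd_pos n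
  have hcast : (n : ℝ) = t * rd n := by exact_mod_cast hmul
  rw [VV_sq_rad R n hn]
  have e1 : (rd n : ℝ) / R = (1 / R * n) / t := by
    rw [hcast]; field_simp
  have e2 : cA lp ((rd n : ℝ) / R) n = cA lp (1 / R * n) n - cA (lt t) (1 / R * n) n := by
    rw [e1]
    unfold cA
    rw [← sum_sub_distrib]
    refine sum_congr rfl fun d _ => ?_
    unfold lt
    rw [div_right_comm (1 / (R : ℝ) * n) (t : ℝ) (d : ℝ)]
    ring
  rw [e2]
  have h1 : cA (lt t) (1 / R * n) n ^ 2 ≤ ∑ t ∈ Ioc 0 T, cA (lt t) (1 / R * n) n ^ 2 :=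
    single_le_sum (f := fun t : ℕ => cA (lt t) (1 / R * n) n ^ 2) (fun _ _ => sq_nonneg _)
      (mem_Ioc.2 ⟨ht0, hT⟩)
  set a := cA lp (1 / R * n) n
  set b := cA (lt t) (1 / R * n) n
  have h2 : (1 + ε) * a ^ 2 + (1 + 1 / ε) * b ^ 2 - (a - b) ^ 2 = (ε * a + b) ^ 2 / ε := by
    field_simp
    ring
  have h3 : 0 ≤ (ε * a + b) ^ 2 / ε := by positivity
  have h4 : (1 + 1 / ε) * b ^ 2 ≤ (1 + 1 / ε) * ∑ t ∈ Ioc 0 T, cA (lt t) (1 / R * n) n ^ 2 := by
    gcongr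
  linarith

theorem rd_sq_mul (a b : ℕ) (ha : 0 < a) (hb : Squarefree b) : ∃ v : ℕ, v ∣ a ∧
    Nat.Coprime v b ∧ rd (a ^ 2 * b) = v * b := by
  have hb0 : b ≠ 0 := hb.ne_zero
  refine ⟨∏ p ∈ a.primeFactors \ b.primeFactors, p, ?_, ?_, ?_⟩
  · exact (prod_dvd_prod_of_subset _ _ _ sdiff_subset).trans (Nat.prod_primeFactors_dvd a)
  · apply Nat.Coprime.prod_left
    intro p hp
    rw [mem_sdiff] at hp
    have hpp := Nat.prime_of_mem_primeFactors hp.1
    rw [hpp.coprime_iff_not_dvd]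
    intro h
    exact hp.2 (Nat.mem_primeFactors.2 ⟨hpp, h, hb0⟩)
  · unfold rd
    rw [Nat.primeFactors_mul (by positivity) hb0, Nat.primeFactors_pow a (by norm_num),
      ← sdiff_union_self_eq_union, prod_union sdiff_disjoint]
    congr 1
    exact Nat.prod_primeFactors_of_squarefree hb

/-- For large `a`. -/
theorem VV_large (R a b : ℕ) (ha : 0 < a) (hb : Squarefree b) :
    VV R (a ^ 2 * b) ^ 2 ≤ a.divisors.card * ∑ v ∈ a.divisors, cA lp ((v : ℝ) / R * b) b ^ 2 := by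
  have hb0 : b ≠ 0 := hb.ne_zero
  obtain ⟨v0, hva, hcop, hrd⟩ := rd_sq_mul a b ha hb
  have e1 : VV R (a ^ 2 * b) = ∑ v ∈ v0.divisors, mu v * (mu b * cA lp ((v : ℝ) / R * b) b) := by
    unfold VV
    rw [sum_rad _ (by positivity) (fun d => lp ((d : ℝ) / R)), hrd, cop_sum v0 b hcop]
    refine sum_congr rfl fun v hv => ?_
    have h1 : ∀ d ∈ b.divisors, mu (v * d) * lp (((v * d : ℕ) : ℝ) / R) =
        mu v * (mu d * lp (((v * d : ℕ) : ℝ) / R)) := by
      intro d hd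
      have hc : Nat.Coprime v d := Nat.Coprime.coprime_dvd_left (Nat.dvd_of_mem_divisors hv)
        (Nat.Coprime.coprime_dvd_right (Nat.dvd_of_mem_divisors hd) hcop)
      rw [mu_mul v d hc]
      ring
    rw [sum_congr rfl h1, ← mul_sum, flip b hb (fun d => lp (((v * d : ℕ) : ℝ) / R))]
    congr 2
    unfold cA
    refine sum_congr rfl fun d hd => ?_
    have hd0 : (d : ℝ) ≠ 0 := by
      have := Nat.pos_of_mem_divisors hd
      positivity
    rw [Nat.cast_mul, Nat.cast_div (Nat.dvd_of_mem_divisors hd) hd0]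
    congr 2
    ring
  rw [e1]
  refine sq_sum_le_card_mul_sum_sq.trans ?_
  have h2 : ∀ v ∈ v0.divisors, (mu v * (mu b * cA lp ((v : ℝ) / R * b) b)) ^ 2 ≤
      cA lp ((v : ℝ) / R * b) b ^ 2 := by
    intro v _
    have h3 : mu v ^ 2 ≤ 1 := by
      rw [← sq_abs]
      exact pow_le_one₀ (abs_nonneg _) (abs_mu_le v)
    rw [mul_pow, mul_pow, mu_sq b hb, one_mul]
    calc mu v ^ 2 * cA lp ((v : ℝ) / R * b) b ^ 2 ≤ 1 * cA lp ((v : ℝ) / R * b) b ^ 2 := by gcongr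
      _ = _ := one_mul _
  have hsub : v0.divisors ⊆ a.divisors := Nat.divisors_subset_of_dvd ha.ne' hva
  have h4 : ∑ v ∈ v0.divisors, (mu v * (mu b * cA lp ((v : ℝ) / R * b) b)) ^ 2 ≤
      ∑ v ∈ a.divisors, cA lp ((v : ℝ) / R * b) b ^ 2 :=
    (sum_le_sum h2).trans (sum_le_sum_of_subset_of_nonneg hsub fun _ _ _ => sq_nonneg _)
  have h5 : (v0.divisors.card : ℝ) ≤ a.divisors.card := by exact_mod_cast card_le_card hsub
  exact mul_le_mul h5 h4 (sum_nonneg fun _ _ => sq_nonneg _) (by positivity)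

/-- Tail of `∑ τ(a)²/a²`. -/
theorem tau_tail (η : ℝ) (hη : 0 < η) : ∃ A : ℕ, ∀ N : ℕ,
    ∑ a ∈ Ioc A N, (a.divisors.card : ℝ) ^ 2 / (a : ℝ) ^ 2 ≤ η := by
  obtain ⟨C, hC, hb⟩ := H353.divisor_bound_real (1 / 8) (by norm_num)
  have hs : Summable (fun n : ℕ => C ^ 2 * (1 / (n : ℝ) ^ (7 / 4 : ℝ))) :=
    (Real.summable_one_div_nat_rpow.2 (by norm_num)).mul_left _
  have hle : ∀ a : ℕ, (a.divisors.card : ℝ) ^ 2 / (a : ℝ) ^ 2 ≤
      C ^ 2 * (1 / (a : ℝ) ^ (7 / 4 : ℝ)) := by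
    intro a
    rcases Nat.eq_zero_or_pos a with h | h
    · subst h; simp
    · have ha : (0 : ℝ) < a := by exact_mod_cast h
      have h1 := hb a h.ne'
      have h2 : (a.divisors.card : ℝ) ^ 2 ≤ C ^ 2 * ((a : ℝ) ^ (1 / 4 : ℝ)) := by
        calc (a.divisors.card : ℝ) ^ 2 ≤ (C * (a : ℝ) ^ (1 / 8 : ℝ)) ^ 2 := by gcongr
          _ = C ^ 2 * ((a : ℝ) ^ (1 / 8 : ℝ) * (a : ℝ) ^ (1 / 8 : ℝ)) := by ring
          _ = _ := by rw [← Real.rpow_add ha]; norm_num
      calc (a.divisors.card : ℝ) ^ 2 / (a : ℝ) ^ 2 ≤ C ^ 2 * ((a : ℝ) ^ (1 / 4 : ℝ)) / (a : ℝ) ^ 2 := by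
            gcongr
        _ = C ^ 2 * ((a : ℝ) ^ (1 / 4 : ℝ) / (a : ℝ) ^ (2 : ℝ)) := by
            rw [mul_div_assoc]; norm_num
        _ = C ^ 2 * (1 / (a : ℝ) ^ (7 / 4 : ℝ)) := by
            rw [← Real.rpow_sub ha, one_div ((a : ℝ) ^ (7 / 4 : ℝ)), ← Real.rpow_neg ha.le (7 / 4)]
            norm_num
  have hs2 : Summable (fun a : ℕ => (a.divisors.card : ℝ) ^ 2 / (a : ℝ) ^ 2) :=
    Summable.of_nonneg_of_le (fun _ => by positivity) hle hs
  have h1 := hs2.hasSum.tendsto_sum_nat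
  have h2 := (h1.eventually (lt_mem_nhds (sub_lt_self _ hη)))
  obtain ⟨A, hA⟩ := h2.exists_forall_of_atTop
  refine ⟨A, fun N => ?_⟩
  rcases Nat.lt_or_ge N A with h | h
  · rw [Ioc_eq_empty (by omega), sum_empty]; exact hη.le
  · have h3 := hA (A + 1) (Nat.le_succ A)
    have h4 := hs2.sum_le_tsum (range (N + 1)) (fun _ _ => by positivity)
    have h5 : ∑ a ∈ range (A + 1), (a.divisors.card : ℝ) ^ 2 / (a : ℝ) ^ 2 +
        ∑ a ∈ Ioc A N, (a.divisors.card : ℝ) ^ 2 / (a : ℝ) ^ 2 =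
        ∑ a ∈ range (N + 1), (a.divisors.card : ℝ) ^ 2 / (a : ℝ) ^ 2 := by
      have : Ioc A N = Ico (A + 1) (N + 1) := by
        ext x; simp only [mem_Ioc, mem_Ico]; omega
      rw [this, sum_range_add_sum_Ico _ (by omega)]
    linarith

end

end Pool.Agent.E8helper88
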