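import Pool.Agent.E8helper88.Sup

set_option autoImplicit false

open Finset

namespace Pool.Agent.E8helper88

noncomputable section

theorem farey_sep (P r b r' b' : ℕ) (m : ℤ) (hr : 0 < r) (hr' : 0 < r') (hrP : r ≤ 2 * P)
    (hrP' : r' ≤ 2 * P) (hb : b < r) (hb' : b' < r') (hc : Nat.Coprime b r)
    (hc' : Nat.Coprime b' r') (h : |(b : ℝ) / r - b' / r' - m| < 1 / ((4 * P ^ 2 : ℕ) : ℝ)) :
    r = r' ∧ b = b' := by
  have hr0 : (0 : ℝ) < r := by exact_mod_cast hr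
  have hr0' : (0 : ℝ) < r' := by exact_mod_cast hr'
  have h1 : |(b : ℝ) * r' - b' * r - m * r * r'| < 1 := by
    have e : (b : ℝ) * r' - b' * r - m * r * r' = ((b : ℝ) / r - b' / r' - m) * (r * r') := by
      field_simp
    rw [e, abs_mul, abs_of_pos (by positivity : (0 : ℝ) < r * r')]
    have hP : (0 : ℝ) < ((4 * P ^ 2 : ℕ) : ℝ) := by
      have : 0 < P := by omega
      positivity
    have h2 : (r : ℝ) * r' ≤ ((4 * P ^ 2 : ℕ) : ℝ) := by
      have : r * r' ≤ 4 * P ^ 2 := by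
        calc r * r' ≤ (2 * P) * (2 * P) := Nat.mul_le_mul hrP hrP'
          _ = _ := by ring
      exact_mod_cast this
    calc |(b : ℝ) / r - b' / r' - m| * (r * r') ≤
          |(b : ℝ) / r - b' / r' - m| * ((4 * P ^ 2 : ℕ) : ℝ) := by gcongr
      _ < 1 / ((4 * P ^ 2 : ℕ) : ℝ) * ((4 * P ^ 2 : ℕ) : ℝ) := by
          exact mul_lt_mul_of_pos_right h hP
      _ = 1 := by field_simp
  have h2 : |(b : ℤ) * r' - b' * r - m * r * r'| < 1 := by exact_mod_cast h1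
  have h3 : (b : ℤ) * r' - b' * r - m * r * r' = 0 := Int.abs_lt_one_iff.1 h2
  have hbr : (b : ℤ) < r := by exact_mod_cast hb
  have hbr' : (b' : ℤ) < r' := by exact_mod_cast hb'
  have hrz : (0 : ℤ) < r := by exact_mod_cast hr
  have hrz' : (0 : ℤ) < r' := by exact_mod_cast hr'
  have hb0 : (0 : ℤ) ≤ b := Int.natCast_nonneg b
  have hb0' : (0 : ℤ) ≤ b' := Int.natCast_nonneg b'
  have hm : m = 0 := by
    have hpos : (0 : ℤ) < r * r' := by positivity
    have h4 : m * (r * r') < 1 * (r * r') := by nlinarith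
    have h5 : (-1) * ((r : ℤ) * r') < m * (r * r') := by nlinarith
    have h6 := lt_of_mul_lt_mul_right h4 hpos.le
    have h7 := lt_of_mul_lt_mul_right h5 hpos.le
    omega
  rw [hm] at h3
  have h8 : b * r' = b' * r := by
    have : (b : ℤ) * r' = b' * r := by linarith
    exact_mod_cast this
  have h9 : r ∣ r' := by
    have : r ∣ b * r' := ⟨b', by rw [h8]; ring⟩
    exact (Nat.Coprime.symm hc).dvd_of_dvd_mul_left this
  have h10 : r' ∣ r := by
    have : r' ∣ b' * r := ⟨b, by rw [← h8]; ring⟩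
    exact (Nat.Coprime.symm hc').dvd_of_dvd_mul_left this
  have h11 : r = r' := Nat.dvd_antisymm h9 h10
  refine ⟨h11, ?_⟩
  rw [h11] at h8
  exact Nat.eq_of_mul_eq_mul_right hr' h8

theorem block (P X : ℕ) (hP : 1 ≤ P) (α : ℝ) :
    ∑ r ∈ Ioc P (2 * P), ∑ b ∈ red r, ‖Vs X (α + b / r)‖ ≤
      2 * X + ((4 * P ^ 2 : ℕ) : ℝ) * (1 + Real.log ((4 * P ^ 2 : ℕ) : ℝ)) := by
  rw [← sum_sigma (Ioc P (2 * P)) red (fun i => ‖Vs X (α + (i.2 : ℝ) / (i.1 : ℝ))‖)]
  refine spaced ((Ioc P (2 * P)).sigma red)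
    (fun i => (α + (i.2 : ℝ) / (i.1 : ℝ)) - round (α + (i.2 : ℝ) / (i.1 : ℝ)))
    (fun i => ‖Vs X (α + (i.2 : ℝ) / (i.1 : ℝ))‖) (4 * P ^ 2) (by nlinarith) X
    (Nat.cast_nonneg _) ?_ ?_ ?_ ?_ ?_
  · rintro ⟨r, b⟩ hi ⟨r', b'⟩ hj h
    rw [mem_sigma, mem_Ioc] at hi hj
    simp only [red, mem_filter, mem_range] at hi hj
    have hm := farey_sep P r b r' b' (round (α + (b : ℝ) / r) - round (α + (b' : ℝ) / r'))
      (by omega) (by omega) hi.1.2 hj.1.2 hi.2.1 hj.2.1 hi.2.2 hj.2.2 (by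
        refine lt_of_eq_of_lt ?_ h
        congr 1
        push_cast
        ring)
    obtain ⟨h1, h2⟩ := hm
    subst h1; subst h2; rfl
  · intro i _
    exact abs_sub_round _
  · intro i _
    exact norm_nonneg _
  · intro i _
    exact norm_Vs_le _ _
  · intro i _
    rw [Vs_round X (α + (i.2 : ℝ) / (i.1 : ℝ))]
    exact norm_Vs_mul X _ (abs_sub_round _)

theorem dyadic (g T : ℕ → ℝ) (hg : ∀ r, 0 ≤ g r)
    (hT : ∀ P, 1 ≤ P → ∑ r ∈ Ioc P (2 * P), g r ≤ T P) (Q : ℕ) (hQ : 1 ≤ Q) (i : ℕ) :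
    ∑ r ∈ Ioc Q (Q * 2 ^ i), g r / r ≤
      ∑ j ∈ range i, T (Q * 2 ^ j) / ((Q * 2 ^ j : ℕ) : ℝ) := by
  induction i with
  | zero => simp
  | succ i ih =>
    rw [sum_range_succ]
    have hP : 1 ≤ Q * 2 ^ i := Nat.mul_pos hQ (by positivity)
    have h1 : Q * 2 ^ (i + 1) = 2 * (Q * 2 ^ i) := by ring
    have h0 : Q ≤ Q * 2 ^ i := Nat.le_mul_of_pos_right Q (by positivity)
    rw [← sum_Ioc_consecutive _ h0 (by omega : Q * 2 ^ i ≤ Q * 2 ^ (i + 1))]
    refine add_le_add ih ?_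
    rw [h1]
    set P := Q * 2 ^ i with hPdef
    have hP0 : (0 : ℝ) < (P : ℕ) := by exact_mod_cast hP
    rw [le_div_iff₀ hP0, sum_mul]
    refine le_trans (sum_le_sum fun r hr => ?_) (hT P hP)
    rw [mem_Ioc] at hr
    have hr0 : (0 : ℝ) < r := by
      have : 0 < r := by omega
      exact_mod_cast this
    have hPr : (P : ℝ) ≤ r := by exact_mod_cast hr.1.le
    rw [div_mul_eq_mul_div, div_le_iff₀ hr0]
    exact mul_le_mul_of_nonneg_left hPr (hg r)

/-- The exponential sum of `FF` is small everywhere. -/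
theorem sup_bound (R Q X : ℕ) (hQ : 1 ≤ Q) (hQR : Q ≤ R) (α : ℝ) :
    ‖∑ n ∈ Ioc 0 X, (FF R Q n : ℂ) * ee (n * α)‖ ≤
      24 * (1 + Real.log R) ^ 4 * ((X : ℝ) / Q + R) := by
  have hQ0 : (0 : ℝ) < Q := by exact_mod_cast hQ
  have hR1 : 1 ≤ R := hQ.trans hQR
  have hR0 : (0 : ℝ) < R := by exact_mod_cast hR1
  have hR1' : (1 : ℝ) ≤ R := by exact_mod_cast hR1
  have hL0 : 0 ≤ Real.log R := Real.log_natCast_nonneg R
  have e1 : ∑ n ∈ Ioc 0 X, (FF R Q n : ℂ) * ee (n * α) =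
      ∑ r ∈ Ioc Q R, (aR R r : ℂ) * ∑ b ∈ red r, Vs X (α + b / r) := by
    have h1 : ∀ n ∈ Ioc 0 X, (FF R Q n : ℂ) * ee (n * α) =
        ∑ r ∈ Ioc Q R, (aR R r : ℂ) * ∑ b ∈ red r, ee (n * (α + b / r)) := by
      intro n _
      unfold FF
      push_cast
      rw [sum_mul]
      refine sum_congr rfl fun r hr => ?_
      rw [mem_Ioc] at hr
      rw [ram_eq r n (by omega), mul_assoc, sum_mul]
      congr 1
      refine sum_congr rfl fun b _ => ?_
      rw [← ee_add]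
      congr 1
      ring
    rw [sum_congr rfl h1, sum_comm]
    refine sum_congr rfl fun r _ => ?_
    rw [← mul_sum]
    congr 1
    rw [sum_comm]
    rfl
  rw [e1]
  have h2 : ‖∑ r ∈ Ioc Q R, (aR R r : ℂ) * ∑ b ∈ red r, Vs X (α + b / r)‖ ≤
      (1 + Real.log R) ^ 2 * ∑ r ∈ Ioc Q R, (∑ b ∈ red r, ‖Vs X (α + b / r)‖) / r := by
    refine (norm_sum_le _ _).trans ?_
    rw [mul_sum]
    refine sum_le_sum fun r hr => ?_
    rw [mem_Ioc] at hr
    rw [norm_mul, Complex.norm_real, Real.norm_eq_abs]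
    have h3 := aR_bound R r (by omega)
    calc |aR R r| * ‖∑ b ∈ red r, Vs X (α + b / r)‖ ≤
          ((1 + Real.log R) ^ 2 / r) * ∑ b ∈ red r, ‖Vs X (α + b / r)‖ :=
          mul_le_mul h3 (norm_sum_le _ _) (norm_nonneg _) (by positivity)
      _ = _ := by ring
  refine h2.trans ?_
  -- dyadic decomposition
  have hex : ∃ I : ℕ, R ≤ Q * 2 ^ I := ⟨R, by
    calc R ≤ 2 ^ R := Nat.lt_two_pow_self.le
      _ ≤ Q * 2 ^ R := Nat.le_mul_of_pos_left _ hQ⟩
  classical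
  set I := Nat.find hex with hI
  have hI1 : R ≤ Q * 2 ^ I := Nat.find_spec hex
  have hI2 : ∀ j < I, Q * 2 ^ j < R := fun j hj => by
    have := Nat.find_min hex hj
    omega
  have hIbd : (I : ℝ) ≤ 2 * (1 + Real.log R) := by
    rcases Nat.eq_zero_or_pos I with h | h
    · rw [h]; simp; linarith
    · have h3 := hI2 (I - 1) (by omega)
      have h4 : 2 ^ (I - 1) ≤ R := by
        calc 2 ^ (I - 1) ≤ Q * 2 ^ (I - 1) := Nat.le_mul_of_pos_left _ hQ
          _ ≤ R := h3.le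
      have h5 : ((2 : ℝ)) ^ (I - 1) ≤ R := by exact_mod_cast h4
      have h6 := Real.log_le_log (by positivity) h5
      rw [Real.log_pow, Nat.cast_sub h] at h6
      have h7 := Real.log_two_gt_d9
      push_cast at h6
      nlinarith
  have h3 := dyadic (fun r => ∑ b ∈ red r, ‖Vs X (α + b / r)‖)
    (fun P => 2 * X + ((4 * P ^ 2 : ℕ) : ℝ) * (1 + Real.log ((4 * P ^ 2 : ℕ) : ℝ)))
    (fun r => sum_nonneg fun _ _ => norm_nonneg _) (fun P hP => block P X hP α) Q hQ I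
  have h4 : ∑ r ∈ Ioc Q R, (∑ b ∈ red r, ‖Vs X (α + b / r)‖) / r ≤
      ∑ r ∈ Ioc Q (Q * 2 ^ I), (∑ b ∈ red r, ‖Vs X (α + b / r)‖) / r :=
    sum_le_sum_of_subset_of_nonneg (Ioc_subset_Ioc_right hI1) fun _ _ _ =>
      div_nonneg (sum_nonneg fun _ _ => norm_nonneg _) (Nat.cast_nonneg _)
  have h5 : ∀ j ∈ range I, (fun P : ℕ => 2 * (X : ℝ) + ((4 * P ^ 2 : ℕ) : ℝ) *
      (1 + Real.log ((4 * P ^ 2 : ℕ) : ℝ))) (Q * 2 ^ j) / ((Q * 2 ^ j : ℕ) : ℝ) ≤
      12 * (1 + Real.log R) * ((X : ℝ) / Q + R) := by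
    intro j hj
    rw [mem_range] at hj
    dsimp only
    have hPR := hI2 j hj
    have hQP : Q ≤ Q * 2 ^ j := Nat.le_mul_of_pos_right Q (by positivity)
    set P := Q * 2 ^ j with hP
    have hP0 : 0 < P := by omega
    have hP0' : (0 : ℝ) < P := by exact_mod_cast hP0
    have hPR' : (P : ℝ) ≤ R := by exact_mod_cast hPR.le
    have hQP' : (Q : ℝ) ≤ P := by exact_mod_cast hQP
    have hlog : Real.log ((4 * P ^ 2 : ℕ) : ℝ) ≤ 2 + 2 * Real.log R := by
      push_cast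
      rw [Real.log_mul (by norm_num) (by positivity), Real.log_pow]
      have h6 : Real.log 4 ≤ 2 := by
        have : (4 : ℝ) = 2 ^ 2 := by norm_num
        rw [this, Real.log_pow]
        have := Real.log_two_lt_d9
        push_cast
        linarith
      have h7 : Real.log P ≤ Real.log R := Real.log_le_log hP0' hPR'
      push_cast
      linarith
    have e2 : (2 * (X : ℝ) + ((4 * P ^ 2 : ℕ) : ℝ) * (1 + Real.log ((4 * P ^ 2 : ℕ) : ℝ))) / P =
        2 * (X / P) + 4 * P * (1 + Real.log ((4 * P ^ 2 : ℕ) : ℝ)) := by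
      push_cast
      field_simp
    rw [e2]
    have hX0 : (0 : ℝ) ≤ X := Nat.cast_nonneg _
    have h8 : (X : ℝ) / P ≤ X / Q := by gcongr
    have h9 : 0 ≤ (X : ℝ) / Q := by positivity
    have hl4 : 0 ≤ Real.log ((4 * P ^ 2 : ℕ) : ℝ) := Real.log_natCast_nonneg _
    have h10 : 4 * (P : ℝ) * (1 + Real.log ((4 * P ^ 2 : ℕ) : ℝ)) ≤ 4 * R * (3 * (1 + Real.log R)) := by
      gcongr
      linarith
    nlinarith [mul_nonneg hL0 h9]
  have h6 := sum_le_sum h5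
  rw [sum_const, card_range, nsmul_eq_mul] at h6
  have h7 : 0 ≤ 12 * (1 + Real.log R) * ((X : ℝ) / Q + R) := by positivity
  calc (1 + Real.log R) ^ 2 * ∑ r ∈ Ioc Q R, (∑ b ∈ red r, ‖Vs X (α + b / r)‖) / r ≤
        (1 + Real.log R) ^ 2 * (I * (12 * (1 + Real.log R) * ((X : ℝ) / Q + R))) := by
        gcongr
        exact h4.trans (h3.trans h6)
    _ ≤ (1 + Real.log R) ^ 2 * ((2 * (1 + Real.log R)) *
        (12 * (1 + Real.log R) * ((X : ℝ) / Q + R))) := by gcongr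
    _ = _ := by ring

end

end Pool.Agent.E8helper88
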