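import Pool.Agent.E8helper88.Fix
import Pool.Agent.E8helper88.SupB
import Pool.Agent.E8helper88.Norm

set_option autoImplicit false

open Finset

namespace Pool.Agent.E8helper88

noncomputable section

theorem growth (a : ℕ) (b C : ℝ) (hb : 0 < b) (hC : 0 < C) : ∃ x0 : ℕ, ∀ x : ℕ, x0 ≤ x →
    C * (1 + Real.log x) ^ a ≤ (x : ℝ) ^ b := by
  set c := b / (2 * (a + 1)) with hc
  have hc0 : 0 < c := by positivity
  have hca : c * a ≤ b / 2 := by
    rw [hc, div_mul_eq_mul_div, div_le_div_iff₀ (by positivity) (by norm_num)]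
    nlinarith
  have h1 := (tendsto_rpow_atTop (show 0 < b / 2 by positivity)).comp
    (tendsto_natCast_atTop_atTop (R := ℝ))
  have h2 := (h1.eventually (Filter.eventually_ge_atTop (C * (1 + 1 / c) ^ a))).and
    (Filter.eventually_ge_atTop 1)
  obtain ⟨x0, hx0⟩ := h2.exists_forall_of_atTop
  refine ⟨x0, fun x hx => ?_⟩
  obtain ⟨h3, h4⟩ := hx0 x hx
  have hx1 : (1 : ℝ) ≤ x := by exact_mod_cast h4
  have hxpos : (0 : ℝ) < x := by linarith
  simp only [Function.comp] at h3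
  have h5 : Real.log x ≤ (x : ℝ) ^ c / c := Real.log_le_rpow_div hxpos.le hc0
  have h6 : (1 : ℝ) ≤ (x : ℝ) ^ c := Real.one_le_rpow hx1 hc0.le
  have hl : 0 ≤ Real.log x := Real.log_nonneg hx1
  have h7 : 1 + Real.log x ≤ (1 + 1 / c) * (x : ℝ) ^ c := by
    have : (1 + 1 / c) * (x : ℝ) ^ c = (x : ℝ) ^ c + (x : ℝ) ^ c / c := by ring
    linarith
  calc C * (1 + Real.log x) ^ a ≤ C * ((1 + 1 / c) * (x : ℝ) ^ c) ^ a := by gcongr
    _ = (C * (1 + 1 / c) ^ a) * ((x : ℝ) ^ c) ^ a := by rw [mul_pow]; ring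
    _ ≤ (x : ℝ) ^ (b / 2) * (x : ℝ) ^ (b / 2) := by
        gcongr
        rw [← Real.rpow_natCast, ← Real.rpow_mul hxpos.le]
        exact Real.rpow_le_rpow_of_exponent_le hx1 hca
    _ = (x : ℝ) ^ b := by rw [← Real.rpow_add hxpos]; congr 1; ring

theorem psi_le_six (x : ℕ) : ∑ n ∈ Ioc 0 x, ArithmeticFunction.vonMangoldt n ≤ 6 * x := by
  have h1 := Chebyshev.psi_le_const_mul_self (x := (x : ℝ)) (Nat.cast_nonneg _)
  have h2 : ∑ n ∈ Ioc 0 x, ArithmeticFunction.vonMangoldt n = Chebyshev.psi x := by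
    unfold Chebyshev.psi
    rw [Nat.floor_natCast]
  rw [h2]
  have h3 : Real.log 4 ≤ 2 := by
    have : (4 : ℝ) = 2 ^ 2 := by norm_num
    rw [this, Real.log_pow]
    have := Real.log_two_lt_d9
    push_cast
    linarith
  have h4 : (0 : ℝ) ≤ x := Nat.cast_nonneg _
  nlinarith

theorem lam_sq_upper (x : ℕ) :
    ∑ n ∈ Ioc 0 x, ArithmeticFunction.vonMangoldt n ^ 2 ≤ 6 * x * Real.log x := by
  have h1 : ∀ n ∈ Ioc 0 x, ArithmeticFunction.vonMangoldt n ^ 2 ≤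
      Real.log x * ArithmeticFunction.vonMangoldt n := by
    intro n hn
    rw [mem_Ioc] at hn
    have h2 : ArithmeticFunction.vonMangoldt n ≤ Real.log x := by
      refine ArithmeticFunction.vonMangoldt_le_log.trans ?_
      apply Real.log_le_log (by exact_mod_cast hn.1)
      exact_mod_cast hn.2
    rw [sq]
    exact mul_le_mul_of_nonneg_right h2 ArithmeticFunction.vonMangoldt_nonneg
  refine (sum_le_sum h1).trans ?_
  rw [← mul_sum]
  have h3 := psi_le_six x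
  have h4 : 0 ≤ Real.log x := Real.log_natCast_nonneg x
  calc Real.log x * _ ≤ Real.log x * (6 * x) := by gcongr
    _ = _ := by ring

/-- The total of the majorants over the multiples of the moduli. -/
theorem markov_sum (K x : ℕ) (W : ℕ → ℝ) (hW : ∀ h, 0 ≤ W h) (T : ℝ) (hT0 : 0 ≤ T)
    (hT : ∀ h ∈ Ioc 0 x, (h.divisors.card : ℝ) ≤ T) :
    ∑ k ∈ Ioc K (2 * K), ∑ h ∈ (Ioc 0 x).filter (fun h => k ∣ h), W h ≤
      T * (Real.sqrt x * Real.sqrt (∑ h ∈ Ioc 0 x, W h ^ 2)) := by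
  have h1 : ∑ k ∈ Ioc K (2 * K), ∑ h ∈ (Ioc 0 x).filter (fun h => k ∣ h), W h =
      ∑ h ∈ Ioc 0 x, ((Ioc K (2 * K)).filter (fun k => k ∣ h)).card * W h := by
    have h2 : ∀ k ∈ Ioc K (2 * K), ∑ h ∈ (Ioc 0 x).filter (fun h => k ∣ h), W h =
        ∑ h ∈ Ioc 0 x, if k ∣ h then W h else 0 := fun k _ => by rw [sum_filter]
    rw [sum_congr rfl h2, sum_comm]
    refine sum_congr rfl fun h _ => ?_
    rw [← sum_filter, sum_const, nsmul_eq_mul]
  rw [h1]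
  have h3 : ∑ h ∈ Ioc 0 x, (((Ioc K (2 * K)).filter (fun k => k ∣ h)).card : ℝ) * W h ≤
      T * ∑ h ∈ Ioc 0 x, W h := by
    rw [mul_sum]
    refine sum_le_sum fun h hh => ?_
    refine mul_le_mul_of_nonneg_right ?_ (hW h)
    refine le_trans ?_ (hT h hh)
    rw [mem_Ioc] at hh
    have : ((Ioc K (2 * K)).filter (fun k => k ∣ h)) ⊆ h.divisors := by
      intro k hk
      rw [mem_filter] at hk
      rw [Nat.mem_divisors]
      exact ⟨hk.2, by omega⟩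
    exact_mod_cast card_le_card this
  refine h3.trans ?_
  gcongr
  have h4 := sum_mul_sq_le_sq_mul_sq (Ioc 0 x) (fun _ => (1 : ℝ)) W
  simp only [one_mul, one_pow, sum_const, Nat.card_Ioc, Nat.sub_zero, nsmul_eq_mul, mul_one] at h4
  have h5 : 0 ≤ ∑ h ∈ Ioc 0 x, W h := sum_nonneg fun h _ => hW h
  rw [← Real.sqrt_mul (Nat.cast_nonneg x)]
  exact Real.le_sqrt_of_sq_le h4

/-- The majorants for all correlations, for one pair `(Λ, f)`. -/
theorem majorants (x : ℕ) (hx : 1 ≤ x) (f : ℕ → ℝ) (B H : ℝ)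
    (hB : ∀ α : ℝ, ‖∑ n ∈ Ioc 0 x, (f n : ℂ) * ee (n * α)‖ ≤ B)
    (hf : ∑ n ∈ Ioc 0 x, f n ^ 2 ≤ H)
    (hΛ : ∑ n ∈ Ioc 0 x, ArithmeticFunction.vonMangoldt n ^ 2 ≤ H) :
    ∃ W : ℕ → ℝ, (∀ h, 0 ≤ W h) ∧
      (∀ X ≤ x, ∀ h ≤ x, |co X ArithmeticFunction.vonMangoldt f h| ≤ W h ∧
        |co X f ArithmeticFunction.vonMangoldt h| ≤ W h ∧ |co X f f h| ≤ W h) ∧
      ∑ h ∈ Ioc 0 x, W h ^ 2 ≤ (3 * (2 + Real.log ((2 * x : ℕ) : ℝ)) * B) ^ 2 * H := by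
  have hH0 : 0 ≤ H := le_trans (sum_nonneg fun _ _ => sq_nonneg _) hf
  set Λ : ℕ → ℝ := ⇑ArithmeticFunction.vonMangoldt with hΛdef
  have htw : ∀ β α : ℝ, ‖∑ n ∈ Ioc 0 x, ((f n : ℂ) * ee (-((n : ℝ) * β))) * ee (n * α)‖ ≤ B := by
    intro β α
    refine le_trans (le_of_eq ?_) (hB (α - β))
    congr 1
    refine sum_congr rfl fun n _ => ?_
    rw [mul_assoc, ← ee_add]
    congr 2
    ring
  have hnf : ∑ n ∈ Ioc 0 x, ‖(f n : ℂ)‖ ^ 2 ≤ H := by
    refine le_trans (le_of_eq ?_) hf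
    refine sum_congr rfl fun n _ => ?_
    rw [Complex.norm_real, Real.norm_eq_abs, sq_abs]
  have hnΛ : ∑ n ∈ Ioc 0 x, ‖(Λ n : ℂ)‖ ^ 2 ≤ H := by
    refine le_trans (le_of_eq ?_) hΛ
    refine sum_congr rfl fun n _ => ?_
    rw [Complex.norm_real, Real.norm_eq_abs, sq_abs]
  have g1 : ∀ β : ℝ, ∑ h ∈ Ioc 0 x, ‖DC x (fun n => (Λ n : ℂ))
      (fun n => (f n : ℂ) * ee (-((n : ℝ) * β))) h‖ ^ 2 ≤ B ^ 2 * H := fun β =>
    (planch_v x (2 * x) hx le_rfl _ _ B (htw β)).trans (by gcongr)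
  have g3 : ∀ β : ℝ, ∑ h ∈ Ioc 0 x, ‖DC x (fun n => (f n : ℂ))
      (fun n => (f n : ℂ) * ee (-((n : ℝ) * β))) h‖ ^ 2 ≤ B ^ 2 * H := fun β =>
    (planch_v x (2 * x) hx le_rfl _ _ B (htw β)).trans (by gcongr)
  have g2 : ∀ β : ℝ, ∑ h ∈ Ioc 0 x, ‖DC x (fun n => (f n : ℂ))
      (fun n => (Λ n : ℂ) * ee (-((n : ℝ) * β))) h‖ ^ 2 ≤ B ^ 2 * H := fun β => by
    refine (planch_u x (2 * x) hx le_rfl _ _ B hB).trans ?_
    gcongr
    refine le_trans (le_of_eq ?_) hnΛ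
    refine sum_congr rfl fun n _ => ?_
    rw [norm_mul, norm_ee, mul_one]
  obtain ⟨W1, a1, b1, c1⟩ := maximal x (2 * x) hx le_rfl (fun n => (Λ n : ℂ))
    (fun n => (f n : ℂ)) _ g1
  obtain ⟨W2, a2, b2, c2⟩ := maximal x (2 * x) hx le_rfl (fun n => (f n : ℂ))
    (fun n => (Λ n : ℂ)) _ g2
  obtain ⟨W3, a3, b3, c3⟩ := maximal x (2 * x) hx le_rfl (fun n => (f n : ℂ))
    (fun n => (f n : ℂ)) _ g3
  have hco : ∀ (u v : ℕ → ℝ) (X h : ℕ), X ≤ x →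
      ∑ n ∈ (Ioc 0 x).filter (fun n => n + h ≤ X), (u n : ℂ) * (v (n + h) : ℂ) =
        ((co X u v h : ℝ) : ℂ) := by
    intro u v X h hX
    unfold co
    rw [Complex.ofReal_sum]
    have : (Ioc 0 x).filter (fun n => n + h ≤ X) = (Ioc 0 X).filter (fun n => n + h ≤ X) := by
      ext n
      simp only [mem_filter, mem_Ioc]
      constructor
      · rintro ⟨⟨p, q⟩, r⟩; exact ⟨⟨p, by omega⟩, r⟩
      · rintro ⟨⟨p, q⟩, r⟩; exact ⟨⟨p, by omega⟩, r⟩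
    rw [this]
    refine sum_congr rfl fun n _ => ?_
    push_cast
    rfl
  refine ⟨fun h => W1 h + W2 h + W3 h, fun h => by
    have := a1 h
    have := a2 h
    have := a3 h
    linarith, fun X hX h hh => ?_, ?_⟩
  · have p1 := b1 X hX h hh
    have p2 := b2 X hX h hh
    have p3 := b3 X hX h hh
    rw [hco _ _ X h hX, Complex.norm_real, Real.norm_eq_abs] at p1 p2 p3
    have q1 := a1 h
    have q2 := a2 h
    have q3 := a3 h
    exact ⟨by linarith, by linarith, by linarith⟩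
  · have h1 : ∀ h ∈ Ioc 0 x, (W1 h + W2 h + W3 h) ^ 2 ≤
        3 * (W1 h ^ 2 + W2 h ^ 2 + W3 h ^ 2) := by
      intro h _
      nlinarith [sq_nonneg (W1 h - W2 h), sq_nonneg (W1 h - W3 h), sq_nonneg (W2 h - W3 h)]
    refine (sum_le_sum h1).trans ?_
    rw [← mul_sum, sum_add_distrib, sum_add_distrib]
    have e : (3 * (2 + Real.log ((2 * x : ℕ) : ℝ)) * B) ^ 2 * H =
        9 * ((2 + Real.log ((2 * x : ℕ) : ℝ)) ^ 2 * (B ^ 2 * H)) := by ring
    rw [e]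
    linarith

end

end Pool.Agent.E8helper88
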