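import Pool.Agent.E8helper88.Params

set_option autoImplicit false

open Finset

namespace Pool.Agent.E8helper88

noncomputable section

theorem shift_le (x k N : ℕ) (hk : 0 < k) (hN : N ≤ x) (u v : ℕ → ℝ) (W : ℕ → ℝ)
    (hW0 : ∀ h, 0 ≤ W h) (hW : ∀ h ≤ x, |co N u v h| ≤ W h) :
    |∑ j ∈ Icc 1 N, co N u v (j * k)| ≤ ∑ h ∈ (Ioc 0 x).filter (fun h => k ∣ h), W h := by
  refine (abs_sum_le_sum_abs _ _).trans ?_
  rw [sum_mult x k hk]
  have h1 : ∑ j ∈ Icc 1 N, |co N u v (j * k)| ≤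
      ∑ j ∈ (Icc 1 N).filter (fun j => j * k ≤ x), W (k * j) := by
    rw [sum_filter]
    refine sum_le_sum fun j _ => ?_
    split_ifs with h
    · rw [mul_comm k j]
      exact hW _ h
    · have : co N u v (j * k) = 0 := by
        unfold co
        rw [filter_false_of_mem, sum_empty]
        intro n _
        omega
      rw [this, abs_zero]
  refine h1.trans (sum_le_sum_of_subset_of_nonneg ?_ fun _ _ _ => hW0 _)
  intro j hj
  rw [mem_filter, mem_Icc] at hj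
  rw [mem_Ioc]
  exact ⟨hj.1.1, (Nat.le_div_iff_mul_le hk).2 hj.2⟩

theorem f_norm (x R Q : ℕ) (δ : ℝ) (hδ : δ ≤ 1 / 2)
    (hQR : Real.log Q ≤ Real.log R)
    (h : x * (Real.log R - Real.log Q - δ * Real.log x) ≤
      ∑ m ∈ Ioc 0 x, (2 * ArithmeticFunction.vonMangoldt m * FF R Q m - FF R Q m ^ 2)) :
    ∑ n ∈ Ioc 0 x, FF R Q n ^ 2 ≤ 28 * x * (1 + Real.log x) := by
  have h1 := lam_sq_upper x
  have hx' : (0 : ℝ) ≤ x := Nat.cast_nonneg _
  have hl : 0 ≤ Real.log x := Real.log_natCast_nonneg x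
  have h2 : ∑ m ∈ Ioc 0 x, (2 * ArithmeticFunction.vonMangoldt m * FF R Q m - FF R Q m ^ 2) ≤
      2 * ∑ m ∈ Ioc 0 x, ArithmeticFunction.vonMangoldt m ^ 2 -
        1 / 2 * ∑ m ∈ Ioc 0 x, FF R Q m ^ 2 := by
    rw [mul_sum, mul_sum, ← sum_sub_distrib]
    refine sum_le_sum fun m _ => ?_
    nlinarith [sq_nonneg (2 * ArithmeticFunction.vonMangoldt m - FF R Q m)]
  have h3 : -(δ * (x * Real.log x)) ≤ x * (Real.log R - Real.log Q - δ * Real.log x) := by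
    nlinarith [mul_nonneg hx' (sub_nonneg.2 hQR)]
  have h4 : δ * (x * Real.log x) ≤ 1 / 2 * (x * Real.log x) := by
    have : 0 ≤ x * Real.log x := by positivity
    gcongr
  have h5 : 0 ≤ x * Real.log x := by positivity
  linarith

theorem log_final (δ lk lK lx lN lR lQ l2 : ℝ) (hδ : 0 < δ) (hδ1 : δ ≤ 1 / 16) (hl2 : l2 ≤ 0.7)
    (hl2' : 0 ≤ l2) (hlR : lK - 2 * δ * lx - l2 ≤ lR) (hlQ : lQ ≤ l2 + (1 + δ) * lx - lK)
    (hlogx : 4 * 8 ≤ δ * lx) (hlxN : lx ≤ lN + l2) (hlk : lk ≤ lK + l2) :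
    2 * lk - (1 + 8 * δ) * lN ≤ lR - lQ - δ * lN - 1 := by
  have h1 : δ * lx ≤ δ * (lN + l2) := by gcongr
  have h2 : δ * l2 ≤ 1 / 16 * 0.7 := by
    apply mul_le_mul hδ1 hl2 hl2' (by norm_num)
  nlinarith

theorem scale (δ : ℝ) (hδ : 0 < δ) (hδ1 : δ ≤ 1 / 16) : ∃ x0 : ℕ, ∀ K x : ℕ, x0 ≤ x → 1 ≤ K →
    K ≤ x → (x : ℝ) ^ (1 + 16 * δ) ≤ 16 * (K : ℝ) ^ 2 → ∃ E : ℕ → ℝ, (∀ k, 0 ≤ E k) ∧
      ∑ k ∈ Ioc K (2 * K), E k ≤ K * (x : ℝ) ^ (1 - 3 * δ / 4) ∧
      ∀ k ∈ Ioc K (2 * K), E k ≤ (x : ℝ) ^ (1 - δ / 2) → ∀ N : ℕ, x ≤ 2 * N → N ≤ x → k ≤ N →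
        ∀ y : ℝ, N * (2 * Real.log k - (1 + 8 * δ) * Real.log N) ≤
          ∑ A ∈ (range k).filter (fun A => Nat.Coprime A k),
            (cl k N ArithmeticFunction.vonMangoldt A - y) ^ 2 := by
  obtain ⟨x1, hx1⟩ := params δ hδ hδ1
  obtain ⟨N0, hN0⟩ := main_norm δ hδ (by linarith)
  obtain ⟨Cτ, hCτ, hτ⟩ := H353.divisor_bound_real (δ / 8) (by positivity)
  obtain ⟨x2, hx2⟩ := growth 6 (δ / 8) (2592 * Cτ + 576 * Cτ ^ 2 + 128) (by positivity)
    (by positivity)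
  refine ⟨max (max x1 x2) (2 * N0 + 2), fun K x hx hK hKx hcond => ?_⟩
  have hxx1 : x1 ≤ x := ((le_max_left _ _).trans (le_max_left _ _)).trans hx
  have hxx2 : x2 ≤ x := ((le_max_right _ _).trans (le_max_left _ _)).trans hx
  have hxN0 : 2 * N0 + 2 ≤ x := (le_max_right _ _).trans hx
  obtain ⟨R, Q, hQ1, hQR, hpar, hlR, hlQ, hXQ⟩ := hx1 K x hxx1 hK hKx hcond
  have hgr := hx2 x hxx2
  have hxn : 1 ≤ x := by omega
  have hx1r : (1 : ℝ) ≤ x := by exact_mod_cast hxn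
  have hxpos : (0 : ℝ) < x := by linarith
  have hK0 : (0 : ℝ) < K := by exact_mod_cast hK
  have hKx' : (K : ℝ) ≤ x := by exact_mod_cast hKx
  have hl : 0 ≤ Real.log x := Real.log_nonneg hx1r
  set ℓ := 1 + Real.log x with hℓ
  have hℓ1 : 1 ≤ ℓ := by linarith
  have hpw : ∀ i j : ℕ, i ≤ j → ℓ ^ i ≤ ℓ ^ j := fun i j h => pow_le_pow_right₀ hℓ1 h
  have rp : ∀ s t : ℝ, (x : ℝ) ^ (s + t) = (x : ℝ) ^ s * (x : ℝ) ^ t := fun s t =>
    Real.rpow_add hxpos s t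
  have mono : ∀ s t : ℝ, s ≤ t → (x : ℝ) ^ s ≤ (x : ℝ) ^ t := fun s t h =>
    Real.rpow_le_rpow_of_exponent_le hx1r h
  have pos : ∀ s : ℝ, 0 < (x : ℝ) ^ s := fun s => Real.rpow_pos_of_pos hxpos s
  set X8 := (x : ℝ) ^ (δ / 8) with hX8
  have hX8pos : 0 < X8 := pos _
  have hℓ6 : 1 ≤ ℓ ^ 6 := one_le_pow₀ hℓ1
  have g128 : 128 ≤ X8 := by nlinarith
  have gA : 2592 * Cτ * ℓ ^ 6 ≤ X8 := by
    have : 0 ≤ (576 * Cτ ^ 2 + 128) * ℓ ^ 6 := by positivity
    nlinarith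
  have gB : 576 * Cτ ^ 2 * ℓ ^ 6 ≤ X8 := by
    have : 0 ≤ (2592 * Cτ + 128) * ℓ ^ 6 := by positivity
    nlinarith
  have hQR' : (Q : ℝ) ≤ R := by exact_mod_cast hQR
  have hQ0 : (0 : ℝ) < Q := by exact_mod_cast hQ1
  have hR0 : (0 : ℝ) < R := by linarith
  have hlQR : Real.log Q ≤ Real.log R := Real.log_le_log hQ0 hQR'
  -- R ≤ x
  obtain ⟨hRx, hp1, hp2, hp3⟩ := hpar x (by omega) le_rfl
  have hRx' : (R : ℝ) ≤ x := by exact_mod_cast hRx
  have hlRx : 1 + Real.log R ≤ ℓ := by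
    have := Real.log_le_log hR0 hRx'
    linarith
  have hlR0 : 0 ≤ Real.log R := Real.log_natCast_nonneg R
  -- the sup bound
  set B := 48 * ℓ ^ 4 * (K * (x : ℝ) ^ (-δ)) with hB
  have hB0 : 0 ≤ B := by have := pos (-δ); positivity
  have hsup : ∀ X ≤ x, ∀ α : ℝ, ‖∑ n ∈ Ioc 0 X, (FF R Q n : ℂ) * ee (n * α)‖ ≤ B := by
    intro X hX α
    have hX' : (X : ℝ) ≤ x := by exact_mod_cast hX
    refine (sup_bound R Q X hQ1 hQR α).trans ?_
    calc 24 * (1 + Real.log R) ^ 4 * ((X : ℝ) / Q + R) ≤ 24 * ℓ ^ 4 * ((x : ℝ) / Q + R) := by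
          gcongr
      _ ≤ 24 * ℓ ^ 4 * (2 * (K * (x : ℝ) ^ (-δ))) := by gcongr
      _ = B := by rw [hB]; ring
  -- the norms
  set H := 28 * x * ℓ with hH
  have hfn : ∑ n ∈ Ioc 0 x, FF R Q n ^ 2 ≤ H :=
    f_norm x R Q δ (by linarith) hlQR (hN0 x R Q (by omega) hQ1 hQR hRx hp1 hp2 hp3)
  have hΛn : ∑ n ∈ Ioc 0 x, ArithmeticFunction.vonMangoldt n ^ 2 ≤ H := by
    refine (lam_sq_upper x).trans ?_
    rw [hH]
    have : Real.log x ≤ ℓ := by linarith
    have h28 : 6 * (x : ℝ) * Real.log x ≤ 28 * x * ℓ := by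
      gcongr
      norm_num
    exact h28
  obtain ⟨W, hW0, hW, hWs⟩ := majorants x hxn (FF R Q) B H (hsup x le_rfl) hfn hΛn
  have hτx : ∀ h ∈ Ioc 0 x, (h.divisors.card : ℝ) ≤ Cτ * X8 := by
    intro h hh
    rw [mem_Ioc] at hh
    refine (hτ h (by omega)).trans ?_
    have : (h : ℝ) ≤ x := by exact_mod_cast hh.2
    gcongr
    exact Real.rpow_le_rpow (Nat.cast_nonneg _) this (by positivity)
  refine ⟨fun k => ∑ h ∈ (Ioc 0 x).filter (fun h => k ∣ h), W h,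
    fun k => sum_nonneg fun h _ => hW0 h, ?_, ?_⟩
  · refine (markov_sum K x W hW0 (Cτ * X8) (by positivity) hτx).trans ?_
    have hlog2x : 2 + Real.log ((2 * x : ℕ) : ℝ) ≤ 3 * ℓ := by
      push_cast
      rw [Real.log_mul (by norm_num) hxpos.ne']
      have := Real.log_two_lt_d9
      linarith
    have hlog2x0 : 0 ≤ 2 + Real.log ((2 * x : ℕ) : ℝ) := by
      have := Real.log_natCast_nonneg (2 * x)
      linarith
    have hs : Real.sqrt (∑ h ∈ Ioc 0 x, W h ^ 2) ≤ 54 * ℓ ^ 2 * B * Real.sqrt x := by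
      apply Real.sqrt_le_iff.2
      refine ⟨by positivity, hWs.trans ?_⟩
      rw [mul_pow _ (Real.sqrt x), Real.sq_sqrt hxpos.le]
      calc (3 * (2 + Real.log ((2 * x : ℕ) : ℝ)) * B) ^ 2 * H ≤
            (3 * (3 * ℓ) * B) ^ 2 * (28 * x * (ℓ * ℓ)) := by
            rw [hH]
            gcongr
            nlinarith
        _ ≤ (3 * (3 * ℓ) * B) ^ 2 * (36 * x * (ℓ * ℓ)) := by
            gcongr
            norm_num
        _ = (54 * ℓ ^ 2 * B) ^ 2 * x := by ring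
    calc Cτ * X8 * (Real.sqrt x * Real.sqrt (∑ h ∈ Ioc 0 x, W h ^ 2)) ≤
          Cτ * X8 * (Real.sqrt x * (54 * ℓ ^ 2 * B * Real.sqrt x)) := by gcongr
      _ = Cτ * X8 * (54 * ℓ ^ 2 * B) * (Real.sqrt x * Real.sqrt x) := by ring
      _ = (2592 * Cτ * ℓ ^ 6) * (X8 * (x : ℝ) ^ (-δ) * x * K) := by
          rw [Real.mul_self_sqrt hxpos.le, hB]; ring
      _ ≤ X8 * (X8 * (x : ℝ) ^ (-δ) * x * K) := by
          have := pos (-δ)
          gcongr
      _ = K * (x : ℝ) ^ (1 - 3 * δ / 4) := by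
          have e : (x : ℝ) ^ (1 - 3 * δ / 4) = (x : ℝ) ^ (δ / 8) * ((x : ℝ) ^ (δ / 8) *
              (x : ℝ) ^ (-δ) * (x : ℝ) ^ (1 : ℝ)) := by
            rw [← rp, ← rp, ← rp]; congr 1; ring
          rw [e, Real.rpow_one]
          ring
  · intro k hk hE N hN1 hN2 hkN y
    rw [mem_Ioc] at hk
    have hk0 : 0 < k := by omega
    have hk0' : (0 : ℝ) < k := by exact_mod_cast hk0
    have hNn : 1 ≤ N := by omega
    have hN1' : (x : ℝ) ≤ 2 * N := by exact_mod_cast hN1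
    have hN2' : (N : ℝ) ≤ x := by exact_mod_cast hN2
    have hNpos : (0 : ℝ) < N := by linarith
    have hKk : (K : ℝ) ≤ k := by exact_mod_cast hk.1.le
    have hk2K : (k : ℝ) ≤ 2 * K := by exact_mod_cast hk.2
    obtain ⟨hRN, hq1, hq2, hq3⟩ := hpar N hN1 hN2
    have hmain := hN0 N R Q (by omega) hQ1 hQR hRN hq1 hq2 hq3
    have hfix := fix_lower k N hk0 hNn (FF R Q) B (hsup N hN2)
      (∑ h ∈ (Ioc 0 x).filter (fun h => k ∣ h), W h)
      (shift_le x k N hk0 hN2 _ _ W hW0 fun h hh => (hW N hN2 h hh).1)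
      (shift_le x k N hk0 hN2 _ _ W hW0 fun h hh => (hW N hN2 h hh).2.1)
      (shift_le x k N hk0 hN2 _ _ W hW0 fun h hh => (hW N hN2 h hh).2.2) y
    refine le_trans ?_ hfix
    set Ek := ∑ h ∈ (Ioc 0 x).filter (fun h => k ∣ h), W h with hEk
    have hlN : 0 ≤ Real.log N := Real.log_natCast_nonneg N
    have hlNx : Real.log N ≤ Real.log x := Real.log_le_log hNpos hN2'
    have hτk : (k.divisors.card : ℝ) ≤ Cτ * X8 := hτx k (mem_Ioc.2 ⟨hk0, hkN.trans hN2⟩)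
    have hτ0 : (0 : ℝ) ≤ k.divisors.card := Nat.cast_nonneg _
    -- error term 2
    have e2 : (k.divisors.card : ℝ) * Real.log N * B ≤ (x : ℝ) ^ (1 - δ / 2) := by
      calc (k.divisors.card : ℝ) * Real.log N * B ≤ (Cτ * X8) * ℓ * B := by
            gcongr
            linarith
        _ = (48 * Cτ * ℓ ^ 5) * (X8 * (K * (x : ℝ) ^ (-δ))) := by rw [hB]; ring
        _ ≤ X8 * (X8 * (x * (x : ℝ) ^ (-δ))) := by
            have h5 : ℓ ^ 5 ≤ ℓ ^ 6 := hpw 5 6 (by norm_num)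
            have h6 : 48 * Cτ * ℓ ^ 5 ≤ X8 := by
              refine le_trans ?_ gA
              have : 48 * Cτ ≤ 2592 * Cτ := by linarith
              gcongr
            have := pos (-δ)
            gcongr
        _ = (x : ℝ) ^ (1 - 3 * δ / 4) := by
            have e : (x : ℝ) ^ (1 - 3 * δ / 4) = (x : ℝ) ^ (δ / 8) * ((x : ℝ) ^ (δ / 8) *
                ((x : ℝ) ^ (1 : ℝ) * (x : ℝ) ^ (-δ))) := by
              rw [← rp, ← rp, ← rp]; congr 1; ring
            rw [e, Real.rpow_one]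
        _ ≤ _ := mono _ _ (by linarith)
    -- error term 3
    have e3 : (∑ n ∈ Ioc 0 N, ArithmeticFunction.vonMangoldt n) * (k.divisors.card : ℝ) ^ 2 * B / k ≤
        (x : ℝ) ^ (1 - δ / 2) := by
      have hψ := psi_le_six N
      have hψ0 : 0 ≤ ∑ n ∈ Ioc 0 N, ArithmeticFunction.vonMangoldt n :=
        sum_nonneg fun _ _ => ArithmeticFunction.vonMangoldt_nonneg
      calc (∑ n ∈ Ioc 0 N, ArithmeticFunction.vonMangoldt n) * (k.divisors.card : ℝ) ^ 2 * B / k ≤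
            (6 * x) * (Cτ * X8) ^ 2 * B / K := by
            gcongr
            linarith
        _ = (288 * Cτ ^ 2 * ℓ ^ 4) * (X8 * X8 * (x * (x : ℝ) ^ (-δ))) := by
            rw [hB]; field_simp; ring
        _ ≤ X8 * (X8 * X8 * (x * (x : ℝ) ^ (-δ))) := by
            have h5 : ℓ ^ 4 ≤ ℓ ^ 6 := hpw 4 6 (by norm_num)
            have h6 : 288 * Cτ ^ 2 * ℓ ^ 4 ≤ X8 := by
              refine le_trans ?_ gB
              have : 288 * Cτ ^ 2 ≤ 576 * Cτ ^ 2 := by linarith only [sq_nonneg Cτ]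
              gcongr
            have := pos (-δ)
            gcongr
        _ = (x : ℝ) ^ (1 - 5 * δ / 8) := by
            have e : (x : ℝ) ^ (1 - 5 * δ / 8) = (x : ℝ) ^ (δ / 8) * ((x : ℝ) ^ (δ / 8) *
                (x : ℝ) ^ (δ / 8) * ((x : ℝ) ^ (1 : ℝ) * (x : ℝ) ^ (-δ))) := by
              rw [← rp, ← rp, ← rp, ← rp]; congr 1; ring
            rw [e, Real.rpow_one]
        _ ≤ _ := mono _ _ (by linarith)
    -- the errors are at most `N`
    have herr : 10 * (x : ℝ) ^ (1 - δ / 2) ≤ N := by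
      have h1 : (x : ℝ) ^ (1 - δ / 2) * X8 ≤ x := by
        rw [hX8, ← rp]
        calc (x : ℝ) ^ (1 - δ / 2 + δ / 8) ≤ (x : ℝ) ^ (1 : ℝ) := mono _ _ (by linarith)
          _ = x := Real.rpow_one _
      have h2 := pos (1 - δ / 2)
      have h3 : (x : ℝ) ^ (1 - δ / 2) * 128 ≤ (x : ℝ) ^ (1 - δ / 2) * X8 := by gcongr
      linarith only [h1, h2, h3, hN1']
    -- logarithms
    have hlogx : 4 * 8 ≤ δ * Real.log x := by
      have h1 : Real.log 128 ≤ Real.log X8 := Real.log_le_log (by norm_num) g128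
      rw [hX8, Real.log_rpow hxpos] at h1
      have h2 : Real.log 128 = 7 * Real.log 2 := by
        have : (128 : ℝ) = 2 ^ 7 := by norm_num
        rw [this, Real.log_pow]
        push_cast
        ring
      have := Real.log_two_gt_d9
      linarith
    have hlxN : Real.log x ≤ Real.log N + Real.log 2 := by
      rw [← Real.log_mul hNpos.ne' (by norm_num)]
      apply Real.log_le_log hxpos
      linarith
    have hlk : Real.log k ≤ Real.log K + Real.log 2 := by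
      rw [← Real.log_mul hK0.ne' (by norm_num)]
      apply Real.log_le_log hk0'
      linarith
    have hl2 := Real.log_two_lt_d9
    have hl2' := Real.log_two_gt_d9
    have hfinal : 2 * Real.log k - (1 + 8 * δ) * Real.log N ≤
        Real.log R - Real.log Q - δ * Real.log N - 1 :=
      log_final δ (Real.log k) (Real.log K) (Real.log x) (Real.log N) (Real.log R) (Real.log Q)
        (Real.log 2) hδ hδ1 (by linarith only [hl2]) (by linarith only [hl2']) hlR hlQ hlogx hlxN hlk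
    have hfinal2 : N * (2 * Real.log k - (1 + 8 * δ) * Real.log N) ≤
        N * (Real.log R - Real.log Q - δ * Real.log N) - N := by
      have := mul_le_mul_of_nonneg_left hfinal hNpos.le
      linarith only [this]
    linarith only [hfinal2, hmain, e2, e3, herr, hE]

end

end Pool.Agent.E8helper88
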