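import Pool.Agent.E8helper88.Inner

set_option autoImplicit false

open Finset

namespace Pool.Agent.E8helper88

noncomputable section

/-- `e(x) = exp(2πix)`. -/
def ee (x : ℝ) : ℂ := Complex.exp (Complex.I * ((2 * Real.pi * x : ℝ) : ℂ))

theorem ee_add (x y : ℝ) : ee (x + y) = ee x * ee y := by
  unfold ee
  rw [← Complex.exp_add]
  congr 1
  push_cast
  ring

theorem ee_zero : ee 0 = 1 := by simp [ee]

theorem norm_ee (x : ℝ) : ‖ee x‖ = 1 := by
  unfold ee
  rw [mul_comm]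
  exact Complex.norm_exp_ofReal_mul_I _

theorem ee_int (n : ℤ) : ee n = 1 := by
  unfold ee
  have := Complex.exp_int_mul_two_pi_mul_I n
  rw [← this]
  congr 1
  push_cast
  ring

theorem ee_nat (n : ℕ) : ee n = 1 := by
  have := ee_int (n : ℤ)
  exact_mod_cast this

theorem ee_nat_mul (n : ℕ) (x : ℝ) : ee (n * x) = ee x ^ n := by
  unfold ee
  rw [← Complex.exp_nat_mul]
  congr 1
  push_cast
  ring

theorem norm_ee_sub_one (y : ℝ) (hy : |y| ≤ 1 / 2) : 4 * |y| ≤ ‖ee y - 1‖ := by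
  unfold ee
  rw [Complex.norm_exp_I_mul_ofReal_sub_one]
  have e : 2 * Real.pi * y / 2 = Real.pi * y := by ring
  rw [e, norm_mul, Real.norm_eq_abs, Real.norm_eq_abs, abs_of_pos (by norm_num : (0 : ℝ) < 2)]
  have h1 : |Real.sin (Real.pi * y)| = |Real.sin (Real.pi * |y|)| := by
    rcases le_total 0 y with h | h
    · rw [abs_of_nonneg h]
    · rw [abs_of_nonpos h, mul_neg, Real.sin_neg, abs_neg]
  rw [h1]
  have h2 := Real.mul_le_sin (x := Real.pi * |y|) (by positivity) (by nlinarith [Real.pi_pos])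
  have h3 : 2 / Real.pi * (Real.pi * |y|) = 2 * |y| := by
    field_simp
  rw [h3] at h2
  have h4 : 0 ≤ Real.sin (Real.pi * |y|) := le_trans (by positivity) h2
  rw [abs_of_nonneg h4]
  linarith

/-- `∑_{n ≤ X} e(nβ)`. -/
def Vs (X : ℕ) (β : ℝ) : ℂ := ∑ n ∈ Ioc 0 X, ee (n * β)

theorem norm_Vs_le (X : ℕ) (β : ℝ) : ‖Vs X β‖ ≤ X := by
  unfold Vs
  refine (norm_sum_le _ _).trans ?_
  rw [sum_congr rfl (fun n _ => norm_ee _), sum_const, Nat.card_Ioc, nsmul_eq_mul, Nat.sub_zero,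
    mul_one]

theorem Vs_round (X : ℕ) (β : ℝ) : Vs X β = Vs X (β - round β) := by
  unfold Vs
  refine sum_congr rfl fun n _ => ?_
  have : (n : ℝ) * β = n * (β - round β) + ((n * round β : ℤ) : ℝ) := by push_cast; ring
  rw [this, ee_add, ee_int, mul_one]

theorem norm_Vs_mul (X : ℕ) (y : ℝ) (hy : |y| ≤ 1 / 2) : ‖Vs X y‖ * |y| ≤ 1 / 2 := by
  rcases eq_or_ne y 0 with h0 | h0
  · subst h0; simp
  have hpos : 0 < |y| := abs_pos.2 h0
  have hne : ee y ≠ 1 := by
    intro h
    have := norm_ee_sub_one y hy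
    rw [h, sub_self, norm_zero] at this
    linarith
  have hsub : ee y - 1 ≠ 0 := sub_ne_zero.2 hne
  have e1 : Vs X y = ee y * ((ee y ^ X - 1) / (ee y - 1)) := by
    rw [← geom_sum_eq hne X, mul_sum]
    unfold Vs
    have : Ioc 0 X = (range X).image (fun n => n + 1) := by
      ext x
      simp only [mem_Ioc, mem_image, mem_range]
      constructor
      · intro h; exact ⟨x - 1, by omega, by omega⟩
      · rintro ⟨a, ha, rfl⟩; omega
    rw [this, sum_image (fun a _ b _ h => by omega)]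
    refine sum_congr rfl fun n _ => ?_
    rw [ee_nat_mul, pow_succ]
    ring
  rw [e1, norm_mul, norm_ee, one_mul, norm_div]
  have h1 : ‖ee y ^ X - 1‖ ≤ 2 := by
    refine (norm_sub_le _ _).trans ?_
    rw [norm_pow, norm_ee, one_pow, norm_one]
    norm_num
  have h2 := norm_ee_sub_one y hy
  have h3 : 0 < ‖ee y - 1‖ := norm_pos_iff.2 hsub
  rw [div_mul_eq_mul_div, div_le_iff₀ h3]
  nlinarith

/-- Well-spaced points. -/
theorem spaced {ι : Type*} (s : Finset ι) (y F : ι → ℝ) (K : ℕ) (hK : 1 ≤ K) (X : ℝ) (hX : 0 ≤ X)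
    (hsep : ∀ i ∈ s, ∀ j ∈ s, |y i - y j| < 1 / K → i = j)
    (hy : ∀ i ∈ s, |y i| ≤ 1 / 2) (hF0 : ∀ i ∈ s, 0 ≤ F i) (hFX : ∀ i ∈ s, F i ≤ X)
    (hF : ∀ i ∈ s, F i * |y i| ≤ 1 / 2) :
    ∑ i ∈ s, F i ≤ 2 * X + K * (1 + Real.log K) := by
  classical
  have hK' : (0 : ℝ) < K := by exact_mod_cast hK
  set w : ℕ → ℝ := fun j => if j = 0 then X else K / 2 * (1 / j) with hw
  have hw0 : ∀ j, 0 ≤ w j := fun j => by
    rw [hw]; dsimp only
    split_ifs
    · exact hX
    · positivity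
  have hFw : ∀ i ∈ s, F i ≤ w ⌊|y i| * K⌋₊ := by
    intro i hi
    rw [hw]; dsimp only
    split_ifs with h
    · exact hFX i hi
    · have h1 : 1 ≤ ⌊|y i| * K⌋₊ := Nat.one_le_iff_ne_zero.2 h
      have h2 : ((⌊|y i| * K⌋₊ : ℕ) : ℝ) ≤ |y i| * K := Nat.floor_le (by positivity)
      have h3 : (0 : ℝ) < (⌊|y i| * K⌋₊ : ℕ) := by exact_mod_cast h1
      rw [mul_one_div, div_div, le_div_iff₀ (by positivity)]
      have h4 := hF i hi
      have h5 := hF0 i hi
      calc F i * (2 * (⌊|y i| * K⌋₊ : ℕ)) ≤ F i * (2 * (|y i| * K)) := by gcongr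
        _ = (F i * |y i|) * (2 * K) := by ring
        _ ≤ (1 / 2) * (2 * K) := by gcongr
        _ = K := by ring
  have hjK : ∀ i ∈ s, ⌊|y i| * K⌋₊ ∈ range (K + 1) := by
    intro i hi
    rw [mem_range, Nat.lt_succ_iff]
    apply Nat.floor_le_of_le
    have := hy i hi
    nlinarith
  have hsumw : ∑ j ∈ range (K + 1), w j ≤ X + K / 2 * (1 + Real.log K) := by
    rw [sum_range_succ']
    have h0 : w 0 = X := by rw [hw]; simp
    have h1 : ∀ j ∈ range K, w (j + 1) = K / 2 * (1 / ((j + 1 : ℕ) : ℝ)) := by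
      intro j _
      rw [hw]; simp
    rw [h0, sum_congr rfl h1, ← mul_sum]
    have h2 : ∑ j ∈ range K, (1 : ℝ) / ((j + 1 : ℕ) : ℝ) = ∑ m ∈ Ioc 0 K, (1 : ℝ) / m := by
      have : Ioc 0 K = (range K).image (fun n => n + 1) := by
        ext x
        simp only [mem_Ioc, mem_image, mem_range]
        constructor
        · intro h; exact ⟨x - 1, by omega, by omega⟩
        · rintro ⟨a, ha, rfl⟩; omega
      rw [this, sum_image (fun a _ b _ h => by omega)]
    rw [h2]
    have h3 := harm_le K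
    have : (K : ℝ) / 2 * ∑ m ∈ Ioc 0 K, (1 : ℝ) / m ≤ K / 2 * (1 + Real.log K) := by gcongr
    linarith
  have hfloor : ∀ i ∈ s, ∀ j ∈ s, ⌊|y i| * K⌋₊ = ⌊|y j| * K⌋₊ → |(|y i| - |y j|)| < 1 / K := by
    intro i _ j _ h
    have a1 := Nat.floor_le (show 0 ≤ |y i| * K by positivity)
    have a2 := Nat.lt_floor_add_one (|y i| * K)
    have b1 := Nat.floor_le (show 0 ≤ |y j| * K by positivity)
    have b2 := Nat.lt_floor_add_one (|y j| * K)
    rw [h] at a1 a2
    rw [lt_div_iff₀ hK', ← abs_of_pos hK', ← abs_mul, abs_lt]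
    constructor <;> nlinarith
  have half : ∀ t ⊆ s, (∀ i ∈ t, ∀ j ∈ t, |y i - y j| = |(|y i| - |y j|)|) →
      ∑ i ∈ t, F i ≤ X + K / 2 * (1 + Real.log K) := by
    intro t hts habs
    refine le_trans ?_ hsumw
    calc ∑ i ∈ t, F i ≤ ∑ i ∈ t, w ⌊|y i| * K⌋₊ := sum_le_sum fun i hi => hFw i (hts hi)
      _ = ∑ j ∈ t.image (fun i => ⌊|y i| * K⌋₊), w j := by
          rw [sum_image]
          intro i hi j hj h
          apply hsep i (hts hi) j (hts hj)
          rw [habs i hi j hj]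
          exact hfloor i (hts hi) j (hts hj) h
      _ ≤ _ := by
          refine sum_le_sum_of_subset_of_nonneg ?_ fun j _ _ => hw0 j
          intro j hj
          rw [mem_image] at hj
          obtain ⟨i, hi, rfl⟩ := hj
          exact hjK i (hts hi)
  have h1 := half (s.filter (fun i => 0 ≤ y i)) (filter_subset _ _) (by
    intro i hi j hj
    rw [mem_filter] at hi hj
    rw [abs_of_nonneg hi.2, abs_of_nonneg hj.2])
  have h2 := half (s.filter (fun i => ¬ 0 ≤ y i)) (filter_subset _ _) (by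
    intro i hi j hj
    rw [mem_filter, not_le] at hi hj
    rw [abs_of_neg hi.2, abs_of_neg hj.2]
    rw [abs_sub_comm]
    congr 1
    ring)
  rw [← sum_filter_add_sum_filter_not s (fun i => 0 ≤ y i)]
  linarith

/-- Reduced numerators. -/
def red (r : ℕ) : Finset ℕ := (range r).filter (fun b => Nat.Coprime b r)

theorem full_sum (e n : ℕ) (he : 0 < e) :
    ∑ b ∈ range e, ee ((b : ℝ) * (n / e)) = if e ∣ n then (e : ℂ) else 0 := by
  have he' : (0 : ℝ) < e := by exact_mod_cast he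
  split_ifs with h
  · obtain ⟨m, rfl⟩ := h
    have : ∀ b ∈ range e, ee ((b : ℝ) * (((e * m : ℕ) : ℝ) / e)) = 1 := by
      intro b _
      have e1 : (b : ℝ) * (((e * m : ℕ) : ℝ) / e) = ((b * m : ℕ) : ℝ) := by
        push_cast
        field_simp
      rw [e1, ee_nat]
    rw [sum_congr rfl this]
    simp
  · have hne : ee ((n : ℝ) / e) ≠ 1 := by
      intro h1
      unfold ee at h1
      rw [Complex.exp_eq_one_iff] at h1
      obtain ⟨k, hk⟩ := h1
      have h2 : ((n : ℝ) / e : ℝ) = k := by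
        have h3 : (2 * Real.pi * ((n : ℝ) / e) : ℝ) = (2 * Real.pi * k : ℝ) := by
          have h4 : Complex.I * ((2 * Real.pi * ((n : ℝ) / e) : ℝ) : ℂ) =
              Complex.I * ((2 * Real.pi * k : ℝ) : ℂ) := by
            rw [hk]; push_cast; ring
          have h5 := mul_left_cancel₀ Complex.I_ne_zero h4
          exact_mod_cast h5
        exact mul_left_cancel₀ (by positivity) h3
      rw [div_eq_iff he'.ne'] at h2
      have h3 : (n : ℤ) = k * e := by exact_mod_cast h2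
      apply h
      have : (e : ℤ) ∣ n := ⟨k, by rw [h3]; ring⟩
      exact_mod_cast this
    have h1 : ∀ b ∈ range e, ee ((b : ℝ) * (n / e)) = ee ((n : ℝ) / e) ^ b := fun b _ =>
      ee_nat_mul b _
    rw [sum_congr rfl h1, geom_sum_eq hne, ← ee_nat_mul]
    have : (e : ℝ) * ((n : ℝ) / e) = (n : ℕ) := by field_simp
    rw [this, ee_nat, sub_self, zero_div]

theorem ram_eq (r n : ℕ) (hr : 0 < r) :
    (ram r n : ℂ) = ∑ b ∈ red r, ee ((b : ℝ) * (n / r)) := by
  have hr' : (0 : ℝ) < r := by exact_mod_cast hr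
  -- expand the coprimality condition
  have h1 : ∑ b ∈ red r, ee ((b : ℝ) * (n / r)) =
      ∑ b ∈ range r, ∑ d ∈ r.divisors, if d ∣ b then (mu d : ℂ) * ee ((b : ℝ) * (n / r)) else 0 := by
    unfold red
    rw [sum_filter]
    refine sum_congr rfl fun b _ => ?_
    rw [← sum_filter]
    have h2 : r.divisors.filter (fun d => d ∣ b) = (Nat.gcd b r).divisors := by
      ext d
      simp only [mem_filter, Nat.mem_divisors]
      constructor
      · rintro ⟨⟨h1, _⟩, h2⟩
        exact ⟨Nat.dvd_gcd h2 h1, (Nat.gcd_pos_of_pos_right b hr).ne'⟩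
      · rintro ⟨h1, _⟩
        exact ⟨⟨h1.trans (Nat.gcd_dvd_right _ _), hr.ne'⟩, h1.trans (Nat.gcd_dvd_left _ _)⟩
    rw [h2, ← sum_mul]
    have h3 : ∑ d ∈ (Nat.gcd b r).divisors, (mu d : ℂ) = if Nat.gcd b r = 1 then 1 else 0 := by
      have h := ArithmeticFunction.coe_mul_zeta_apply (f := ArithmeticFunction.moebius)
        (x := Nat.gcd b r)
      rw [ArithmeticFunction.moebius_mul_coe_zeta, ArithmeticFunction.one_apply] at h
      unfold mu
      have h4 : ∑ d ∈ (Nat.gcd b r).divisors, (((ArithmeticFunction.moebius d : ℤ) : ℝ) : ℂ) =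
          ((∑ d ∈ (Nat.gcd b r).divisors, ArithmeticFunction.moebius d : ℤ) : ℂ) := by
        push_cast
        rfl
      rw [h4, ← h]
      split_ifs <;> simp
    rw [h3]
    by_cases h4 : Nat.gcd b r = 1
    · rw [if_pos h4, if_pos h4, one_mul]
    · rw [if_neg h4, if_neg h4, zero_mul]
  rw [h1, sum_comm]
  have h5 : ∀ d ∈ r.divisors, ∑ b ∈ range r,
      (if d ∣ b then (mu d : ℂ) * ee ((b : ℝ) * (n / r)) else 0) =
      (mu d : ℂ) * (if (r / d) ∣ n then ((r / d : ℕ) : ℂ) else 0) := by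
    intro d hd
    have hd0 : 0 < d := Nat.pos_of_mem_divisors hd
    obtain ⟨e, rfl⟩ := Nat.dvd_of_mem_divisors hd
    have he0 : 0 < e := Nat.pos_of_ne_zero (by rintro rfl; simp at hr)
    rw [Nat.mul_div_cancel_left e hd0, ← full_sum e n he0, mul_sum, ← sum_filter]
    have hd' : (0 : ℝ) < d := by exact_mod_cast hd0
    have he' : (0 : ℝ) < e := by exact_mod_cast he0
    symm
    refine sum_bij (fun b _ => d * b) ?_ ?_ ?_ ?_
    · intro b hb
      rw [mem_range] at hb
      rw [mem_filter, mem_range]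
      exact ⟨Nat.mul_lt_mul_of_pos_left hb hd0, dvd_mul_right _ _⟩
    · intro a _ b _ h
      exact Nat.eq_of_mul_eq_mul_left hd0 h
    · intro b hb
      rw [mem_filter, mem_range] at hb
      obtain ⟨hb1, ⟨c, rfl⟩⟩ := hb
      exact ⟨c, mem_range.2 (lt_of_mul_lt_mul_left hb1 (Nat.zero_le d)), rfl⟩
    · intro b _
      congr 2
      push_cast
      field_simp
  rw [sum_congr rfl h5]
  have h6 := Nat.sum_divisorsAntidiagonal (n := r)
    (f := fun a b => (mu a : ℂ) * (if b ∣ n then (b : ℂ) else 0))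
  rw [← h6]
  unfold ram
  push_cast
  refine sum_congr rfl fun x _ => ?_
  split_ifs <;> simp

end

end Pool.Agent.E8helper88
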